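import Mathlib

/-! The points `(n², m)` close to the line `x / (4 π) - y = π / 12`, `n` in a short interval, lie on one
line with a primitive direction `(X, M)`. Here `X / (4 M)` and `12 P / X` are both close to `π`, where `P` is
an integer. -/

set_option autoImplicit false

namespace Pool.Agent.H65.AP

open Real Finset

/-- `n² / (4 π) - π / 12` is within `1 / n²` above an integer -/
def Near (n : ℕ) : Prop :=
  ∃ m : ℤ, 0 ≤ (n : ℝ) ^ 2 / (4 * π) - π / 12 - m ∧ (n : ℝ) ^ 2 / (4 * π) - π / 12 - m < 1 / (n : ℝ) ^ 2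

/-- what a short interval with at least two such `n` looks like -/
structure Data (N : ℕ) (S : Finset ℕ) (X K M a L : ℕ) (P : ℤ) : Prop where
  X1 : 1 ≤ X
  K1 : 1 ≤ K
  M1 : 1 ≤ M
  MX : M ≤ X
  cop : X.Coprime M
  KX : K * X ≤ N ^ 2
  LN : L * N ≤ K * X
  small : |(X : ℝ) - 4 * π * M| * ((N : ℝ) ^ 2 * K) ≤ 4 * π
  smallP : |(P : ℝ) - X * π / 12| * K ≤ 2
  dvdP : ∀ s : ℕ, s * s ∣ X → s ∣ 2 * a → ((s * s : ℕ) : ℤ) ∣ 4 * P
  mem : ∀ n ∈ S, a ≤ n ∧ n ≤ a + L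
  dvd : ∀ n ∈ S, X ∣ (n - a) * (n + a)

theorem block_structure (N : ℕ) (hN : 4 ≤ N) (S : Finset ℕ)
    (hS : ∀ n ∈ S, N ≤ n ∧ 8 * n ≤ 9 * N) (hm : ∀ n ∈ S, Near n) (h2 : 2 ≤ S.card) :
    ∃ X K M a L : ℕ, ∃ P : ℤ, Data N S X K M a L P := by
  classical
  have hpi := Real.pi_pos
  have hpi3 := Real.pi_gt_three
  have hpi4 := Real.pi_lt_four
  have hNR : (4 : ℝ) ≤ N := by exact_mod_cast hN
  have hN0 : (0 : ℝ) < N := by linarith
  have hN2 : (0 : ℝ) < (N : ℝ) ^ 2 := by positivity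
  have hne : S.Nonempty := card_pos.1 (by omega)
  set a := S.min' hne with ha
  set b := S.max' hne with hb
  have haS : a ∈ S := S.min'_mem hne
  have hbS : b ∈ S := S.max'_mem hne
  have hab : a < b := S.min'_lt_max'_of_card (by omega)
  choose! m hm0 hm1 using hm
  have hle : ∀ n ∈ S, a ≤ n ∧ n ≤ b := fun n hn => ⟨S.min'_le n hn, S.le_max' n hn⟩
  -- differences
  let U : ℕ → ℤ := fun n => (n : ℤ) ^ 2 - (a : ℤ) ^ 2
  let W : ℕ → ℤ := fun n => m n - m a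
  let e : ℕ → ℝ := fun n => (U n : ℝ) / (4 * π) - W n
  have hx : ∀ n ∈ S, 1 / (n : ℝ) ^ 2 ≤ 1 / (N : ℝ) ^ 2 := by
    intro n hn
    have h1 : (N : ℝ) ≤ n := by exact_mod_cast (hS n hn).1
    exact one_div_le_one_div_of_le hN2 (pow_le_pow_left₀ hN0.le h1 2)
  have he : ∀ n ∈ S, |e n| < 1 / (N : ℝ) ^ 2 := by
    intro n hn
    have h1 := hm0 n hn
    have h2 := hm1 n hn
    have h3 := hm0 a haS
    have h4 := hm1 a haS
    have h5 := hx n hn
    have h6 := hx a haS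
    have e1 : e n = ((n : ℝ) ^ 2 / (4 * π) - π / 12 - m n) - ((a : ℝ) ^ 2 / (4 * π) - π / 12 - m a) := by
      simp only [e, U, W]
      push_cast
      ring
    rw [e1, abs_lt]
    constructor <;> linarith
  have hU0 : ∀ n ∈ S, 0 ≤ (U n : ℝ) ∧ (U n : ℝ) ≤ 17 / 64 * (N : ℝ) ^ 2 := by
    intro n hn
    have h1 : (a : ℝ) ≤ n := by exact_mod_cast (hle n hn).1
    have h2 : (8 : ℝ) * n ≤ 9 * N := by exact_mod_cast (hS n hn).2
    have h3 : (N : ℝ) ≤ a := by exact_mod_cast (hS a haS).1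
    have e1 : (U n : ℝ) = (n : ℝ) ^ 2 - (a : ℝ) ^ 2 := by simp only [U]; push_cast; ring
    rw [e1]
    constructor
    · nlinarith
    · have h4 : (8 * (n : ℝ)) ^ 2 ≤ (9 * N) ^ 2 := pow_le_pow_left₀ (by positivity) h2 2
      have h5 : (N : ℝ) ^ 2 ≤ (a : ℝ) ^ 2 := pow_le_pow_left₀ hN0.le h3 2
      nlinarith
  -- the determinants vanish
  have hdet : ∀ n ∈ S, U n * W b = U b * W n := by
    intro n hn
    have hWn : (W n : ℝ) = (U n : ℝ) / (4 * π) - e n := by simp only [e]; ring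
    have hWb : (W b : ℝ) = (U b : ℝ) / (4 * π) - e b := by simp only [e]; ring
    have h1 : ((U n * W b - U b * W n : ℤ) : ℝ) = (U b : ℝ) * e n - (U n : ℝ) * e b := by
      push_cast
      rw [hWn, hWb]
      ring
    have h2 := hU0 n hn
    have h3 := hU0 b hbS
    have h4 : |(U b : ℝ) * e n| ≤ 17 / 64 := by
      rw [abs_mul, abs_of_nonneg h3.1]
      calc (U b : ℝ) * |e n| ≤ 17 / 64 * (N : ℝ) ^ 2 * (1 / (N : ℝ) ^ 2) :=
            mul_le_mul h3.2 (he n hn).le (abs_nonneg _) (by positivity)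
        _ = 17 / 64 := by field_simp
    have h5 : |(U n : ℝ) * e b| ≤ 17 / 64 := by
      rw [abs_mul, abs_of_nonneg h2.1]
      calc (U n : ℝ) * |e b| ≤ 17 / 64 * (N : ℝ) ^ 2 * (1 / (N : ℝ) ^ 2) :=
            mul_le_mul h2.2 (he b hbS).le (abs_nonneg _) (by positivity)
        _ = 17 / 64 := by field_simp
    have h6 : |((U n * W b - U b * W n : ℤ) : ℝ)| < 1 := by
      rw [h1]
      calc |(U b : ℝ) * e n - (U n : ℝ) * e b| ≤ |(U b : ℝ) * e n| + |(U n : ℝ) * e b| := abs_sub _ _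
        _ ≤ 17 / 64 + 17 / 64 := add_le_add h4 h5
        _ < 1 := by norm_num
    have h7 : |U n * W b - U b * W n| < 1 := by exact_mod_cast h6
    have h8 := Int.abs_lt_one_iff.1 h7
    linarith
  -- the primitive direction
  have hUb : 0 < U b := by
    simp only [U]
    have h1 : (a : ℤ) < b := by exact_mod_cast hab
    nlinarith [Int.natCast_nonneg a]
  have hg0 : 0 < Int.gcd (U b) (W b) := Int.gcd_pos_of_ne_zero_left _ hUb.ne'
  obtain ⟨X', hX'⟩ : ((Int.gcd (U b) (W b) : ℕ) : ℤ) ∣ U b := Int.gcd_dvd_left _ _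
  obtain ⟨M', hM'⟩ : ((Int.gcd (U b) (W b) : ℕ) : ℤ) ∣ W b := Int.gcd_dvd_right _ _
  set K := Int.gcd (U b) (W b) with hK
  have hK0 : (0 : ℤ) < K := by exact_mod_cast hg0
  have hX'0 : 0 < X' := by
    by_contra hcon
    push Not at hcon
    have : (K : ℤ) * X' ≤ 0 := mul_nonpos_of_nonneg_of_nonpos hK0.le hcon
    omega
  have hcop : IsCoprime X' M' := by
    rw [Int.isCoprime_iff_gcd_eq_one]
    have h1 : K = K * Int.gcd X' M' := by
      conv_lhs => rw [hK, hX', hM']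
      rw [Int.gcd_mul_left]
      simp
    have h2 : K * 1 = K * Int.gcd X' M' := by rw [mul_one]; exact h1
    exact (Nat.eq_of_mul_eq_mul_left hg0 h2).symm
  obtain ⟨X, rfl⟩ : ∃ X : ℕ, X' = X := ⟨X'.toNat, (Int.toNat_of_nonneg hX'0.le).symm⟩
  have hX1 : 1 ≤ X := by exact_mod_cast hX'0
  have hXR : (1 : ℝ) ≤ X := by exact_mod_cast hX1
  have hKR : (1 : ℝ) ≤ K := by exact_mod_cast hg0
  have hK0R : (0 : ℝ) < K := by linarith
  have hdvd : ∀ n ∈ S, (X : ℤ) ∣ U n := by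
    intro n hn
    have h1 := hdet n hn
    rw [hX', hM'] at h1
    have h2 : (K : ℤ) * (U n * M') = K * ((X : ℤ) * W n) := by linear_combination h1
    have h3 : U n * M' = (X : ℤ) * W n := mul_left_cancel₀ hK0.ne' h2
    have h4 : (X : ℤ) ∣ U n * M' := ⟨W n, h3⟩
    exact hcop.dvd_of_dvd_mul_right h4
  -- the small linear form
  have hsm : |(X : ℝ) / (4 * π) - M'| * ((N : ℝ) ^ 2 * K) < 1 := by
    have h1 := he b hbS
    have e1 : e b = K * ((X : ℝ) / (4 * π) - M') := by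
      simp only [e]
      rw [hX', hM']
      push_cast
      ring
    rw [e1, abs_mul, abs_of_pos hK0R, lt_div_iff₀ hN2] at h1
    calc _ = K * |(X : ℝ) / (4 * π) - M'| * (N : ℝ) ^ 2 := by ring
      _ < 1 := h1
  have hNK : (16 : ℝ) ≤ (N : ℝ) ^ 2 * K := by nlinarith
  have hsm' : |(X : ℝ) / (4 * π) - M'| < 1 / 16 := by
    by_contra hcon
    push Not at hcon
    have : 1 / 16 * 16 ≤ |(X : ℝ) / (4 * π) - M'| * ((N : ℝ) ^ 2 * K) :=
      mul_le_mul hcon hNK (by norm_num) (abs_nonneg _)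
    linarith
  rw [abs_lt] at hsm'
  have hXpi : (X : ℝ) / (4 * π) ≤ X / 12 := div_le_div_of_nonneg_left (by positivity) (by norm_num) (by linarith)
  have hXpi2 : (X : ℝ) / 16 < (X : ℝ) / (4 * π) :=
    div_lt_div_of_pos_left (by positivity) (by positivity) (by linarith)
  have hM1 : 1 ≤ M' := by
    by_contra hcon
    push Not at hcon
    have h1 : (M' : ℝ) ≤ 0 := by exact_mod_cast (by omega : M' ≤ 0)
    linarith [hsm'.2]
  obtain ⟨M, rfl⟩ : ∃ M : ℕ, M' = M := ⟨M'.toNat, (Int.toNat_of_nonneg (by omega)).symm⟩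
  have hMX : (M : ℝ) ≤ X := by
    have := hsm'.1
    push_cast at this
    linarith
  have hUbK : (b : ℤ) ^ 2 - (a : ℤ) ^ 2 = K * X := hX'
  have h0 := (hU0 b hbS).2
  rw [hX'] at h0
  push_cast at h0
  have hcopN : X.Coprime M := by
    rw [Nat.coprime_iff_gcd_eq_one]
    have := Int.isCoprime_iff_gcd_eq_one.1 hcop
    simpa using this
  refine ⟨X, K, M, a, b - a, (a : ℤ) ^ 2 * M - X * m a, hX1, hg0, by exact_mod_cast hM1, by exact_mod_cast hMX,
    hcopN, ?_, ?_, ?_, ?_, ?_, ?_, ?_⟩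
  · have h2 : (K : ℝ) * X ≤ (N : ℝ) ^ 2 := by linarith
    exact_mod_cast h2
  · have h3 : ((b - a : ℕ) : ℤ) = (b : ℤ) - a := by push_cast [Nat.cast_sub hab.le]; ring
    have h4 : (N : ℤ) ≤ b := by exact_mod_cast (hS b hbS).1
    have h5 : (0 : ℤ) ≤ (b : ℤ) - a := by omega
    have h6 : ((b : ℤ) - a) * N ≤ K * X := by
      rw [← hUbK]
      have h7 : (0 : ℤ) ≤ a := Int.natCast_nonneg a
      nlinarith
    have h8 : (((b - a) * N : ℕ) : ℤ) ≤ ((K * X : ℕ) : ℤ) := by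
      push_cast [Nat.cast_sub hab.le]
      exact h6
    exact_mod_cast h8
  · have e1 : |(X : ℝ) - 4 * π * M| = 4 * π * |(X : ℝ) / (4 * π) - ((M : ℤ) : ℝ)| := by
      rw [← abs_of_pos (by positivity : (0:ℝ) < 4 * π), ← abs_mul, abs_of_pos (by positivity : (0:ℝ) < 4 * π)]
      congr 1
      push_cast
      field_simp
    rw [e1]
    have h1 := mul_le_mul_of_nonneg_left hsm.le (by positivity : (0:ℝ) ≤ 4 * π)
    linarith
  · have e1 : (((a : ℤ) ^ 2 * M - X * m a : ℤ) : ℝ) - X * π / 12 =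
        X * ((a : ℝ) ^ 2 / (4 * π) - π / 12 - m a) - (a : ℝ) ^ 2 * ((X : ℝ) / (4 * π) - ((M : ℤ) : ℝ)) := by
      push_cast
      ring
    have h3 := hm0 a haS
    have h4 := (hm1 a haS).trans_le (hx a haS)
    have h5 : |(X : ℝ) * ((a : ℝ) ^ 2 / (4 * π) - π / 12 - m a)| * (K : ℝ) ≤ 17 / 64 := by
      rw [abs_of_nonneg (mul_nonneg (by positivity) h3)]
      calc (X : ℝ) * ((a : ℝ) ^ 2 / (4 * π) - π / 12 - m a) * K ≤ X * (1 / (N : ℝ) ^ 2) * K := by
            gcongr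
        _ = (K * X) * (1 / (N : ℝ) ^ 2) := by ring
        _ ≤ (17 / 64 * (N : ℝ) ^ 2) * (1 / (N : ℝ) ^ 2) := by gcongr
        _ = 17 / 64 := by field_simp
    have h6 : |(a : ℝ) ^ 2 * ((X : ℝ) / (4 * π) - ((M : ℤ) : ℝ))| * (K : ℝ) ≤ 81 / 64 := by
      rw [abs_mul, abs_of_nonneg (by positivity : (0:ℝ) ≤ (a : ℝ) ^ 2)]
      have h7 : (8 : ℝ) * a ≤ 9 * N := by exact_mod_cast (hS a haS).2
      have h8 : (a : ℝ) ^ 2 ≤ 81 / 64 * (N : ℝ) ^ 2 := by
        have := pow_le_pow_left₀ (by positivity) h7 2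
        nlinarith
      calc (a : ℝ) ^ 2 * |(X : ℝ) / (4 * π) - ((M : ℤ) : ℝ)| * K
          ≤ (81 / 64 * (N : ℝ) ^ 2) * |(X : ℝ) / (4 * π) - ((M : ℤ) : ℝ)| * K := by gcongr
        _ = 81 / 64 * (|(X : ℝ) / (4 * π) - ((M : ℤ) : ℝ)| * ((N : ℝ) ^ 2 * K)) := by ring
        _ ≤ 81 / 64 * 1 := by gcongr
        _ = 81 / 64 := by norm_num
    rw [e1]
    calc _ ≤ (|(X : ℝ) * ((a : ℝ) ^ 2 / (4 * π) - π / 12 - m a)| +
          |(a : ℝ) ^ 2 * ((X : ℝ) / (4 * π) - ((M : ℤ) : ℝ))|) * (K : ℝ) := by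
          apply mul_le_mul_of_nonneg_right (abs_sub _ _) (by positivity)
      _ ≤ 17 / 64 + 81 / 64 := by rw [add_mul]; exact add_le_add h5 h6
      _ ≤ 2 := by norm_num
  · intro s hsX hsa
    have h1 : ((s * s : ℕ) : ℤ) ∣ (2 * a : ℤ) ^ 2 := by
      have h2 : (s : ℤ) ∣ 2 * a := by exact_mod_cast hsa
      rw [sq]
      push_cast
      exact mul_dvd_mul h2 h2
    have h2 : ((s * s : ℕ) : ℤ) ∣ X := by exact_mod_cast hsX
    have e1 : 4 * ((a : ℤ) ^ 2 * M - X * m a) = (2 * a : ℤ) ^ 2 * M - X * (4 * m a) := by ring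
    rw [e1]
    exact dvd_sub (h1.mul_right _) (h2.mul_right _)
  · intro n hn
    have := hle n hn
    omega
  · intro n hn
    have h1 := hdvd n hn
    have h2 := (hle n hn).1
    have e1 : U n = (((n - a) * (n + a) : ℕ) : ℤ) := by
      simp only [U]
      push_cast [Nat.cast_sub h2]
      ring
    rw [e1] at h1
    exact_mod_cast h1

end Pool.Agent.H65.AP
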