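import Mathlib

/-! Solutions of `X ∣ (n - a) (n + a)` in a short interval `[a, a + L]`. -/

set_option autoImplicit false

namespace Pool.Agent.H65.AP

open Finset

theorem card_modEq (T : Finset ℕ) (a L h : ℕ) (hT : ∀ n ∈ T, a ≤ n ∧ n ≤ a + L)
    (hc : ∀ n ∈ T, ∀ n' ∈ T, n ≡ n' [MOD h]) : T.card ≤ L / h + 1 := by
  have hinj : Set.InjOn (fun n => (n - a) / h) (T : Set ℕ) := by
    intro n hn n' hn' he
    simp only at he
    have h1 := hT n hn
    have h2 := hT n' hn'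
    have h3 : n - a ≡ n' - a [MOD h] := by
      have h4 := hc n hn n' hn'
      have h5 : (n - a) + a ≡ (n' - a) + a [MOD h] := by
        rw [Nat.sub_add_cancel h1.1, Nat.sub_add_cancel h2.1]; exact h4
      exact Nat.ModEq.add_right_cancel' a h5
    have h4 : n - a = n' - a := by
      rw [← Nat.div_add_mod (n - a) h, ← Nat.div_add_mod (n' - a) h, he]
      congr 1
    omega
  have h1 : T.card = (T.image (fun n => (n - a) / h)).card := (card_image_of_injOn hinj).symm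
  rw [h1]
  have h2 : T.image (fun n => (n - a) / h) ⊆ range (L / h + 1) := by
    intro k hk
    rw [mem_image] at hk
    obtain ⟨n, hn, rfl⟩ := hk
    rw [mem_range]
    have := hT n hn
    exact Nat.lt_succ_of_le (Nat.div_le_div_right (by omega))
  exact (card_le_card h2).trans (by rw [card_range])

theorem gcd_div_dvd (X k l : ℕ) (hX : 0 < X) (h : X ∣ k * l) : X / X.gcd k ∣ l := by
  have hg : 0 < X.gcd k := Nat.gcd_pos_of_pos_left _ hX
  have h1 : X / X.gcd k ∣ k / X.gcd k * l := by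
    have e : k * l = X.gcd k * (k / X.gcd k * l) := by
      rw [← mul_assoc, Nat.mul_div_cancel' (Nat.gcd_dvd_right X k)]
    rw [e] at h
    have h2 : X.gcd k * (X / X.gcd k) ∣ X.gcd k * (k / X.gcd k * l) := by
      rwa [Nat.mul_div_cancel' (Nat.gcd_dvd_left X k)]
    exact Nat.dvd_of_mul_dvd_mul_left hg h2
  exact (Nat.coprime_div_gcd_div_gcd hg).dvd_of_dvd_mul_left h1

/-- the number of solutions of `X ∣ (n - a) (n + a)` in `[a, a + L]`: if `L s ≤ B X` for all `s` with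
`s² ∣ X` and `s ∣ 2 a`, it is at most `(B + 1) d(X)` -/
theorem card_solutions (X a L B : ℕ) (hX : 0 < X) (S : Finset ℕ) (hS : ∀ n ∈ S, a ≤ n ∧ n ≤ a + L)
    (hd : ∀ n ∈ S, X ∣ (n - a) * (n + a))
    (hB : ∀ s : ℕ, 1 ≤ s → s * s ∣ X → s ∣ 2 * a → L * s ≤ B * X) :
    S.card ≤ X.divisors.card * (B + 1) := by
  classical
  have hmap : ∀ n ∈ S, X.gcd (n - a) ∈ X.divisors := fun n _ =>
    Nat.mem_divisors.2 ⟨Nat.gcd_dvd_left _ _, hX.ne'⟩
  rw [card_eq_sum_card_fiberwise hmap, ← smul_eq_mul]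
  apply sum_le_card_nsmul
  intro g hg
  have hgX : g ∣ X := Nat.dvd_of_mem_divisors hg
  have hg0 : 0 < g := Nat.pos_of_mem_divisors hg
  have hgg : g * (X / g) = X := Nat.mul_div_cancel' hgX
  have hpos : 0 < X / g := Nat.div_pos (Nat.le_of_dvd hX hgX) hg0
  -- the two congruences
  have c1 : ∀ n ∈ S.filter (fun n => X.gcd (n - a) = g), g ∣ n - a := by
    intro n hn
    rw [mem_filter] at hn
    rw [← hn.2]
    exact Nat.gcd_dvd_right _ _
  have c2 : ∀ n ∈ S.filter (fun n => X.gcd (n - a) = g), X / g ∣ n + a := by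
    intro n hn
    rw [mem_filter] at hn
    have h2 := gcd_div_dvd X (n - a) (n + a) hX (hd n hn.1)
    rwa [hn.2] at h2
  rcases (S.filter (fun n => X.gcd (n - a) = g)).eq_empty_or_nonempty with he | ⟨n₀, hn₀⟩
  · rw [he, card_empty]; exact Nat.zero_le _
  set s := g.gcd (X / g) with hs
  set h := g.lcm (X / g) with hh
  have hs0 : 0 < s := Nat.gcd_pos_of_pos_left _ hg0
  have hsh : s * h = X := by rw [hs, hh, Nat.gcd_mul_lcm, hgg]
  have hh0 : 0 < h := Nat.pos_of_ne_zero (by rintro h0; rw [h0, mul_zero] at hsh; omega)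
  have hssX : s * s ∣ X := by
    rw [← hgg]
    exact mul_dvd_mul (Nat.gcd_dvd_left _ _) (Nat.gcd_dvd_right _ _)
  have hs2a : s ∣ 2 * a := by
    have h1 : s ∣ n₀ - a := (Nat.gcd_dvd_left _ _).trans (c1 n₀ hn₀)
    have h2 : s ∣ n₀ + a := (Nat.gcd_dvd_right _ _).trans (c2 n₀ hn₀)
    have h3 : a ≤ n₀ := (hS n₀ (mem_filter.1 hn₀).1).1
    have e : 2 * a = (n₀ + a) - (n₀ - a) := by omega
    rw [e]
    exact Nat.dvd_sub h2 h1
  have hLs := hB s hs0 hssX hs2a
  have hL : L ≤ B * h := by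
    rw [← hsh] at hLs
    have h1 : L * s ≤ (B * h) * s := by calc L * s ≤ B * (s * h) := hLs
      _ = (B * h) * s := by ring
    exact Nat.le_of_mul_le_mul_right h1 hs0
  have hc : ∀ n ∈ S.filter (fun n => X.gcd (n - a) = g),
      ∀ n' ∈ S.filter (fun n => X.gcd (n - a) = g), n ≡ n' [MOD h] := by
    intro n hn n' hn'
    have ha1 : a ≤ n := (hS n (mem_filter.1 hn).1).1
    have ha2 : a ≤ n' := (hS n' (mem_filter.1 hn').1).1
    have m1 : n ≡ n' [MOD g] := by
      have h1 : n ≡ a [MOD g] := ((Nat.modEq_iff_dvd' ha1).2 (c1 n hn)).symm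
      have h2 : n' ≡ a [MOD g] := ((Nat.modEq_iff_dvd' ha2).2 (c1 n' hn')).symm
      exact h1.trans h2.symm
    have m2 : n ≡ n' [MOD (X / g)] := by
      have h1 : n + a ≡ 0 [MOD (X / g)] := Nat.modEq_zero_iff_dvd.2 (c2 n hn)
      have h2 : n' + a ≡ 0 [MOD (X / g)] := Nat.modEq_zero_iff_dvd.2 (c2 n' hn')
      exact Nat.ModEq.add_right_cancel' a (h1.trans h2.symm)
    rw [Nat.modEq_iff_dvd] at m1 m2 ⊢
    rw [Int.natCast_dvd] at m1 m2 ⊢
    exact Nat.lcm_dvd m1 m2
  have h1 := card_modEq (S.filter (fun n => X.gcd (n - a) = g)) a L h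
    (fun n hn => hS n (mem_filter.1 hn).1) hc
  have h2 : L / h ≤ B := by
    rw [Nat.div_le_iff_le_mul_add_pred hh0]
    nlinarith
  omega

end Pool.Agent.H65.AP
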