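import Pool.Agent.H65.APDiv
import Pool.Agent.H65.APCount
import Pool.Agent.H65.APBlock

/-! The number of `n ≤ N` for which `n² / (4 π) - π / 12` is within `1 / n²` above an integer is `O(N ^ ε)`. -/

set_option autoImplicit false

namespace Pool.Agent.H65.AP

open Real Finset

theorem s_bound {N X K M a L : ℕ} {S : Finset ℕ} {P : ℤ} (hN : 6 ≤ N) (D : Data N S X K M a L P) (s : ℕ)
    (hs1 : 1 ≤ s) (hsX : s * s ∣ X) (hsa : s ∣ 2 * a) : L * s ≤ 11 * X := by
  have hpi := Real.pi_pos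
  have hpi1 := Real.pi_gt_d4
  have hpi2 := Real.pi_lt_d4
  obtain ⟨P', hP'⟩ := D.dvdP s hsX hsa
  obtain ⟨x, hx⟩ := hsX
  have hX1 := D.X1
  have hK1 := D.K1
  have hM1 := D.M1
  have hNR : (6 : ℝ) ≤ N := by exact_mod_cast hN
  have hN36 : (36 : ℝ) ≤ (N : ℝ) ^ 2 := by nlinarith
  have hXR : (1 : ℝ) ≤ X := by exact_mod_cast hX1
  have hKR : (1 : ℝ) ≤ K := by exact_mod_cast hK1
  have hMR : (1 : ℝ) ≤ M := by exact_mod_cast hM1
  have hMX : (M : ℝ) ≤ X := by exact_mod_cast D.MX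
  have hKX : (K : ℝ) * X ≤ (N : ℝ) ^ 2 := by exact_mod_cast D.KX
  have hXN : (X : ℝ) ≤ (N : ℝ) ^ 2 := by nlinarith
  have hx' : (X : ℝ) = s * s * x := by exact_mod_cast hx
  have hP'' : 4 * (P : ℝ) = s * s * P' := by
    have : ((4 * P : ℤ) : ℝ) = (((s * s : ℕ) : ℤ) * P' : ℤ) := by rw [hP']
    push_cast at this
    exact this
  have h1 := D.small
  have h2 := D.smallP
  -- the integer `Δ` is not zero
  have hΔ : (X : ℤ) * x - 12 * M * P' ≠ 0 := by
    intro h0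
    have h3 : (M : ℤ) ∣ ((X * x : ℕ) : ℤ) := by
      refine ⟨12 * P', ?_⟩
      push_cast
      linear_combination h0
    have h4 : M ∣ X * x := by exact_mod_cast h3
    have h5 : x ∣ X := ⟨s * s, by rw [hx]; ring⟩
    have h6 : M.Coprime X := D.cop.symm
    have h7 : M.Coprime x := h6.coprime_dvd_right h5
    have h8 : M = 1 := (h6.mul_right h7).eq_one_of_dvd h4
    rw [h8] at h1
    have h9 : |(X : ℝ) - 4 * π * ((1 : ℕ) : ℝ)| * 36 ≤ 4 * π := by
      refine le_trans ?_ h1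
      apply mul_le_mul_of_nonneg_left _ (abs_nonneg _)
      nlinarith
    by_cases hc : X ≤ 12
    · have h10 : (X : ℝ) ≤ 12 := by exact_mod_cast hc
      rw [abs_of_nonpos (by push_cast; linarith)] at h9
      push_cast at h9
      linarith
    · have h10 : (13 : ℝ) ≤ X := by exact_mod_cast (by omega : 13 ≤ X)
      rw [abs_of_nonneg (by push_cast; linarith)] at h9
      push_cast at h9
      linarith
  have hΔ1 : (1 : ℝ) ≤ |(((X : ℤ) * x - 12 * M * P' : ℤ) : ℝ)| := by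
    have h3 : (1 : ℤ) ≤ |(X : ℤ) * x - 12 * M * P'| := Int.one_le_abs hΔ
    rw [← Int.cast_abs]
    exact_mod_cast h3
  have hΔ2 : (((X : ℤ) * x - 12 * M * P' : ℤ) : ℝ) * (s * s) =
      (X : ℝ) * ((X : ℝ) - 4 * π * M) - 48 * M * ((P : ℝ) - X * π / 12) := by
    push_cast
    have e1 : (X : ℝ) * x * (s * s) = X * X := by
      calc (X : ℝ) * x * (s * s) = X * (s * s * x) := by ring
        _ = X * X := by rw [← hx']
    have e2 : (12 : ℝ) * M * P' * (s * s) = 48 * M * P := by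
      calc (12 : ℝ) * M * P' * (s * s) = 12 * M * (s * s * P') := by ring
        _ = 12 * M * (4 * P) := by rw [← hP'']
        _ = 48 * M * P := by ring
    rw [sub_mul, e1, e2]
    ring
  have hs0 : (0 : ℝ) ≤ (s : ℝ) * s := by positivity
  -- `K s² ≤ 109 X`
  have h3 : (K : ℝ) * (s * s) ≤ 109 * X := by
    have h4 : (s : ℝ) * s ≤ |(X : ℝ) * ((X : ℝ) - 4 * π * M) - 48 * M * ((P : ℝ) - X * π / 12)| := by
      rw [← hΔ2, abs_mul, abs_of_nonneg hs0]
      nlinarith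
    have h5 : |(X : ℝ) * ((X : ℝ) - 4 * π * M) - 48 * M * ((P : ℝ) - X * π / 12)| ≤
        X * |(X : ℝ) - 4 * π * M| + 48 * M * |(P : ℝ) - X * π / 12| := by
      refine (abs_sub _ _).trans (le_of_eq ?_)
      rw [abs_mul, abs_mul (48 * (M : ℝ)), abs_of_nonneg (by positivity : (0:ℝ) ≤ (X : ℝ)),
        abs_of_nonneg (by positivity : (0:ℝ) ≤ 48 * (M : ℝ))]
    have h6 : (K : ℝ) * (X * |(X : ℝ) - 4 * π * M|) ≤ 13 := by
      have h7 : |(X : ℝ) - 4 * π * M| * (X * K) ≤ 4 * π := by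
        refine le_trans ?_ h1
        apply mul_le_mul_of_nonneg_left _ (abs_nonneg _)
        exact mul_le_mul_of_nonneg_right hXN (by linarith)
      calc _ = |(X : ℝ) - 4 * π * M| * (X * K) := by ring
        _ ≤ 4 * π := h7
        _ ≤ 13 := by linarith
    have h8 : (K : ℝ) * (48 * M * |(P : ℝ) - X * π / 12|) ≤ 96 * X := by
      calc _ = 48 * M * (|(P : ℝ) - X * π / 12| * K) := by ring
        _ ≤ 48 * M * 2 := by gcongr
        _ ≤ 96 * X := by linarith
    calc (K : ℝ) * (s * s) ≤ K * (X * |(X : ℝ) - 4 * π * M| + 48 * M * |(P : ℝ) - X * π / 12|) :=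
          mul_le_mul_of_nonneg_left (h4.trans h5) (by linarith)
      _ = K * (X * |(X : ℝ) - 4 * π * M|) + K * (48 * M * |(P : ℝ) - X * π / 12|) := by ring
      _ ≤ 13 + 96 * X := add_le_add h6 h8
      _ ≤ 109 * X := by linarith
  have h3' : K * (s * s) ≤ 109 * X := by exact_mod_cast h3
  have h4 : (K * s) ^ 2 ≤ (11 * N) ^ 2 := by
    calc (K * s) ^ 2 = K * (K * (s * s)) := by ring
      _ ≤ K * (109 * X) := Nat.mul_le_mul_left _ h3'
      _ = 109 * (K * X) := by ring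
      _ ≤ 109 * N ^ 2 := Nat.mul_le_mul_left _ D.KX
      _ ≤ (11 * N) ^ 2 := by nlinarith
  have h5 : K * s ≤ 11 * N := (Nat.pow_le_pow_iff_left (by norm_num)).1 h4
  have h6 : L * s * N ≤ 11 * X * N := by
    calc L * s * N = (L * N) * s := by ring
      _ ≤ (K * X) * s := Nat.mul_le_mul_right _ D.LN
      _ = (K * s) * X := by ring
      _ ≤ (11 * N) * X := Nat.mul_le_mul_right _ h5
      _ = 11 * X * N := by ring
  exact Nat.le_of_mul_le_mul_right h6 (by omega)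

/-- in a short interval `[N, 9 N / 8]` there are at most `max (1, 12 d(X))` such `n`, for some `X ≤ N²` -/
theorem block_divisors (N : ℕ) (hN : 6 ≤ N) (S : Finset ℕ)
    (hS : ∀ n ∈ S, N ≤ n ∧ 8 * n ≤ 9 * N ∧ Near n) :
    ∃ X : ℕ, 1 ≤ X ∧ X ≤ N ^ 2 ∧ S.card ≤ 12 * X.divisors.card := by
  by_cases h2 : 2 ≤ S.card
  · obtain ⟨X, K, M, a, L, P, D⟩ := block_structure N (by omega) S
      (fun n hn => ⟨(hS n hn).1, (hS n hn).2.1⟩) (fun n hn => (hS n hn).2.2) h2
    refine ⟨X, D.X1, le_trans (Nat.le_mul_of_pos_left X D.K1) D.KX, ?_⟩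
    have := card_solutions X a L 11 D.X1 S D.mem D.dvd (fun s h1 h2 h3 => s_bound hN D s h1 h2 h3)
    linarith
  · refine ⟨1, le_rfl, Nat.one_le_pow _ _ (by omega), ?_⟩
    simp
    omega

theorem block_bound (θ : ℝ) (hθ : 0 < θ) : ∃ C : ℝ, 0 ≤ C ∧ ∀ N : ℕ, 8 ≤ N → ∀ S : Finset ℕ,
      (∀ n ∈ S, N ≤ n ∧ 8 * n ≤ 9 * N ∧ Near n) → (S.card : ℝ) ≤ C * (N : ℝ) ^ θ := by
  obtain ⟨Cd, hCd1, hCd⟩ := card_divisors_le_rpow (θ / 2) (by linarith)
  refine ⟨12 * Cd, by linarith, ?_⟩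
  intro N hN S hS
  obtain ⟨X, hX1, hXN, hcard⟩ := block_divisors N (by omega) S hS
  have hXN' : (X : ℝ) ≤ (N : ℝ) ^ 2 := by exact_mod_cast hXN
  have h1 : (X : ℝ) ^ (θ / 2) ≤ (N : ℝ) ^ θ := by
    have e1 : (N : ℝ) ^ θ = ((N : ℝ) ^ 2) ^ (θ / 2) := by
      rw [← Real.rpow_natCast, ← Real.rpow_mul (Nat.cast_nonneg N)]
      congr 1
      push_cast
      ring
    rw [e1]
    exact Real.rpow_le_rpow (Nat.cast_nonneg X) hXN' (by linarith)
  calc (S.card : ℝ) ≤ 12 * X.divisors.card := by exact_mod_cast hcard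
    _ ≤ 12 * (Cd * (X : ℝ) ^ (θ / 2)) := by
        apply mul_le_mul_of_nonneg_left (hCd X (by omega)) (by norm_num)
    _ ≤ 12 * (Cd * (N : ℝ) ^ θ) := by
        apply mul_le_mul_of_nonneg_left _ (by norm_num)
        exact mul_le_mul_of_nonneg_left h1 (by linarith)
    _ = 12 * Cd * (N : ℝ) ^ θ := by ring

/-- from short intervals to `[1, N]` -/
theorem count_bound (P : ℕ → Prop) [DecidablePred P] (θ C : ℝ) (hθ : 0 < θ) (hC : 0 ≤ C)
    (h : ∀ N : ℕ, 8 ≤ N → ∀ S : Finset ℕ, (∀ n ∈ S, N ≤ n ∧ 8 * n ≤ 9 * N ∧ P n) →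
      (S.card : ℝ) ≤ C * (N : ℝ) ^ θ) :
    ∀ N : ℕ, 1 ≤ N → (((Icc 1 N).filter P).card : ℝ) ≤
      (C / (1 - (17 / 18 : ℝ) ^ θ) + 17) * (N : ℝ) ^ θ := by
  set ρ : ℝ := (17 / 18 : ℝ) ^ θ with hρ
  have hρ1 : ρ < 1 := Real.rpow_lt_one (by norm_num) (by norm_num) hθ
  have hρ0 : 0 < ρ := Real.rpow_pos_of_pos (by norm_num) _
  set C' : ℝ := C / (1 - ρ) + 17 with hC'
  have hC'0 : 17 ≤ C' := by
    have : 0 ≤ C / (1 - ρ) := div_nonneg hC (by linarith)
    rw [hC']; linarith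
  have hC'1 : (C' + C) * ρ ≤ C' := by
    have h1 : C / (1 - ρ) * (1 - ρ) = C := div_mul_cancel₀ _ (by linarith)
    have h2 : C ≤ C' * (1 - ρ) := by
      rw [hC', add_mul, h1]
      have : 0 ≤ 17 * (1 - ρ) := by linarith
      linarith
    nlinarith
  intro N
  induction N using Nat.strong_induction_on with
  | _ N ih =>
    intro hN1
    have hN1R : (1 : ℝ) ≤ N := by exact_mod_cast hN1
    have hNθ : 1 ≤ (N : ℝ) ^ θ := Real.one_le_rpow hN1R hθ.le
    by_cases hN : N < 16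
    · have h1 : ((Icc 1 N).filter P).card ≤ N := by
        refine (card_filter_le _ _).trans ?_
        simp
      have h2 : (((Icc 1 N).filter P).card : ℝ) ≤ 17 := by
        have : ((Icc 1 N).filter P).card ≤ 17 := by omega
        exact_mod_cast this
      calc (((Icc 1 N).filter P).card : ℝ) ≤ 17 * 1 := by linarith
        _ ≤ C' * (N : ℝ) ^ θ := mul_le_mul hC'0 hNθ (by norm_num) (by linarith)
    · push Not at hN
      set N1 := (8 * N + 8) / 9 with hN1d
      have hlt : N1 < N := by omega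
      have hge : 8 ≤ N1 := by omega
      have h1 := ih N1 hlt (by omega)
      have h2 := h N1 hge (((Icc 1 N).filter P).filter (fun n => N1 ≤ n)) (by
        intro n hn
        rw [mem_filter, mem_filter, mem_Icc] at hn
        refine ⟨hn.2, ?_, hn.1.2⟩
        omega)
      have hsub : (Icc 1 N).filter P ⊆ (Icc 1 N1).filter P ∪ ((Icc 1 N).filter P).filter (fun n => N1 ≤ n) := by
        intro n hn
        rw [mem_union]
        by_cases hc : N1 ≤ n
        · exact Or.inr (mem_filter.2 ⟨hn, hc⟩)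
        · left
          rw [mem_filter, mem_Icc] at hn ⊢
          exact ⟨⟨hn.1.1, by omega⟩, hn.2⟩
      have h3 : (((Icc 1 N).filter P).card : ℝ) ≤ ((Icc 1 N1).filter P).card +
          (((Icc 1 N).filter P).filter (fun n => N1 ≤ n)).card := by
        exact_mod_cast (card_le_card hsub).trans (card_union_le _ _)
      have h4 : (N1 : ℝ) ^ θ ≤ ρ * (N : ℝ) ^ θ := by
        rw [hρ, ← Real.mul_rpow (by norm_num) (by positivity)]
        apply Real.rpow_le_rpow (by positivity) _ hθ.le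
        have h5 : 18 * N1 ≤ 17 * N := by omega
        have h6 : (18 : ℝ) * N1 ≤ 17 * N := by exact_mod_cast h5
        linarith
      calc (((Icc 1 N).filter P).card : ℝ) ≤ C' * (N1 : ℝ) ^ θ + C * (N1 : ℝ) ^ θ := by linarith
        _ = (C' + C) * (N1 : ℝ) ^ θ := by ring
        _ ≤ (C' + C) * (ρ * (N : ℝ) ^ θ) := mul_le_mul_of_nonneg_left h4 (by linarith)
        _ = ((C' + C) * ρ) * (N : ℝ) ^ θ := by ring
        _ ≤ C' * (N : ℝ) ^ θ := mul_le_mul_of_nonneg_right hC'1 (by positivity)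

end Pool.Agent.H65.AP
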