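import Mathlib

/-! Bounds for `cot x`, `0 < x ≤ 1`: `1 / x - x / 3 - x ^ 3 / 10 ≤ cot x ≤ 1 / x - x / 3`. -/

set_option autoImplicit false

namespace Pool.Agent.H65.AP

open Real Set

theorem nonneg_of_deriv (f f' : ℝ → ℝ) (hf : ∀ x, HasDerivAt f (f' x) x) (h0 : f 0 = 0)
    (hpos : ∀ x, 0 ≤ x → 0 ≤ f' x) (x : ℝ) (hx : 0 ≤ x) : 0 ≤ f x := by
  have hmono : MonotoneOn f (Ici 0) := by
    apply monotoneOn_of_deriv_nonneg (convex_Ici 0)
    · exact fun y _ => (hf y).continuousAt.continuousWithinAt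
    · exact fun y _ => (hf y).differentiableAt.differentiableWithinAt
    · intro y hy
      rw [interior_Ici] at hy
      rw [(hf y).deriv]
      exact hpos y (le_of_lt hy)
  rw [← h0]
  exact hmono (mem_Ici.2 le_rfl) (mem_Ici.2 hx) hx

theorem sin_lower (x : ℝ) (hx : 0 ≤ x) : x - x ^ 3 / 6 ≤ Real.sin x := by
  have h := nonneg_of_deriv (fun x => Real.sin x - x + x ^ 3 / 6) (fun x => Real.cos x - 1 + x ^ 2 / 2)
    (fun x => (((Real.hasDerivAt_sin x).sub (hasDerivAt_id x)).add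
      ((hasDerivAt_pow 3 x).div_const 6)).congr_deriv (by norm_num; ring)) (by simp) (fun x _ => by
      have := Real.one_sub_sq_div_two_le_cos (x := x)
      linarith) x hx
  linarith

theorem cos_upper (x : ℝ) (hx : 0 ≤ x) : Real.cos x ≤ 1 - x ^ 2 / 2 + x ^ 4 / 24 := by
  have h := nonneg_of_deriv (fun x => 1 - x ^ 2 / 2 + x ^ 4 / 24 - Real.cos x)
    (fun x => Real.sin x - x + x ^ 3 / 6)
    (fun x => (((((hasDerivAt_const x (1:ℝ)).sub ((hasDerivAt_pow 2 x).div_const 2)).add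
        ((hasDerivAt_pow 4 x).div_const 24))).sub (Real.hasDerivAt_cos x)).congr_deriv
          (by norm_num; ring)) (by simp) (fun x hx => by
      have := sin_lower x hx
      linarith) x hx
  linarith

theorem sin_upper (x : ℝ) (hx : 0 ≤ x) : Real.sin x ≤ x - x ^ 3 / 6 + x ^ 5 / 120 := by
  have h := nonneg_of_deriv (fun x => x - x ^ 3 / 6 + x ^ 5 / 120 - Real.sin x)
    (fun x => 1 - x ^ 2 / 2 + x ^ 4 / 24 - Real.cos x)
    (fun x => ((((hasDerivAt_id x).sub ((hasDerivAt_pow 3 x).div_const 6)).add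
        ((hasDerivAt_pow 5 x).div_const 120)).sub (Real.hasDerivAt_sin x)).congr_deriv
          (by norm_num; ring)) (by simp) (fun x hx => by
      have := cos_upper x hx
      linarith) x hx
  linarith

theorem cot_upper (x : ℝ) (hx : 0 < x) (hx1 : x ≤ 1) : Real.cot x ≤ 1 / x - x / 3 := by
  have hs : 0 < Real.sin x := Real.sin_pos_of_pos_of_lt_pi hx (by linarith [Real.pi_gt_three])
  rw [Real.cot_eq_cos_div_sin, div_le_iff₀ hs]
  have h1 := cos_upper x hx.le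
  have h2 := sin_lower x hx.le
  have h3 : 0 ≤ 1 / x - x / 3 := by
    have : 1 ≤ 1 / x := by rw [le_div_iff₀ hx]; linarith
    linarith
  refine h1.trans (le_trans ?_ (mul_le_mul_of_nonneg_left h2 h3))
  have e : (1 / x - x / 3) * (x - x ^ 3 / 6) = 1 - x ^ 2 / 2 + x ^ 4 / 18 := by
    field_simp; ring
  rw [e]
  have : 0 ≤ x ^ 4 := by positivity
  linarith

theorem cot_lower (x : ℝ) (hx : 0 < x) (hx1 : x ≤ 1) : 1 / x - x / 3 - x ^ 3 / 10 ≤ Real.cot x := by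
  have hs : 0 < Real.sin x := Real.sin_pos_of_pos_of_lt_pi hx (by linarith [Real.pi_gt_three])
  rw [Real.cot_eq_cos_div_sin, le_div_iff₀ hs]
  have h1 := Real.one_sub_sq_div_two_le_cos (x := x)
  have h2 := sin_upper x hx.le
  have hx3 : x ^ 3 ≤ 1 := pow_le_one₀ hx.le hx1
  have h3 : 0 ≤ 1 / x - x / 3 - x ^ 3 / 10 := by
    have : 1 ≤ 1 / x := by rw [le_div_iff₀ hx]; linarith
    linarith
  refine (mul_le_mul_of_nonneg_left h2 h3).trans (le_trans ?_ h1)
  have e : (1 / x - x / 3 - x ^ 3 / 10) * (x - x ^ 3 / 6 + x ^ 5 / 120) =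
      1 - x ^ 2 / 2 - x ^ 4 * (13 / 360 - x ^ 2 * (1 / 60 - 1 / 360) + x ^ 4 / 1200) := by
    field_simp; ring
  rw [e]
  have h5 : x ^ 2 ≤ 1 := pow_le_one₀ hx.le hx1
  have h6 : 0 ≤ x ^ 4 * (13 / 360 - x ^ 2 * (1 / 60 - 1 / 360) + x ^ 4 / 1200) := by
    apply mul_nonneg (by positivity)
    have : 0 ≤ x ^ 4 / 1200 := by positivity
    nlinarith
  linarith

/-- the area `A(n)` against `n² / (4 π) - π / 12` -/
theorem area_bounds (n : ℕ) (hn : 4 ≤ n) :
    (n : ℝ) ^ 2 / (4 * π) - π / 12 - 1 / (n : ℝ) ^ 2 < n / 4 * Real.cot (π / n) ∧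
      n / 4 * Real.cot (π / n) ≤ (n : ℝ) ^ 2 / (4 * π) - π / 12 := by
  have hn4 : (4 : ℝ) ≤ n := by exact_mod_cast hn
  have hn0 : (0 : ℝ) < n := by linarith
  have hpi := Real.pi_pos
  have hpi4 : π ≤ 3.15 := Real.pi_lt_d2.le
  have hx : 0 < π / n := by positivity
  have hx1 : π / n ≤ 1 := by rw [div_le_one hn0]; linarith
  have h1 := cot_upper _ hx hx1
  have h2 := cot_lower _ hx hx1
  have e1 : (n : ℝ) / 4 * (1 / (π / n) - π / n / 3) = (n : ℝ) ^ 2 / (4 * π) - π / 12 := by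
    field_simp; ring
  have e2 : (n : ℝ) / 4 * (1 / (π / n) - π / n / 3 - (π / n) ^ 3 / 10) =
      (n : ℝ) ^ 2 / (4 * π) - π / 12 - π ^ 3 / 40 / (n : ℝ) ^ 2 := by
    field_simp; ring
  have h40 : π ^ 3 / 40 < 1 := by
    have : π ^ 3 ≤ 3.15 ^ 3 := pow_le_pow_left₀ hpi.le hpi4 3
    norm_num at this ⊢
    linarith
  constructor
  · have h3 := mul_le_mul_of_nonneg_left h2 (by positivity : (0:ℝ) ≤ (n : ℝ) / 4)
    rw [e2] at h3
    have h4 : π ^ 3 / 40 / (n : ℝ) ^ 2 < 1 / (n : ℝ) ^ 2 := div_lt_div_of_pos_right h40 (by positivity)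
    linarith
  · have h3 := mul_le_mul_of_nonneg_left h1 (by positivity : (0:ℝ) ≤ (n : ℝ) / 4)
    rw [e1] at h3
    exact h3

end Pool.Agent.H65.AP
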