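import Mathlib

/-! Numerical lemmas for MP_9ffd43_co. -/

set_option autoImplicit false

namespace Pool.Agent.H65.DP

theorem choose_drop (m q : ℕ) : ∀ j, j ≤ m → m * m.choose q ≤ m * (m - j).choose q + j * q * m.choose q := by
  intro j
  induction j with
  | zero => intro _; simp
  | succ j ih =>
    intro hj
    have h1 := ih (by omega)
    rcases Nat.eq_zero_or_pos q with hq | hq
    · subst hq; simp
    · obtain ⟨u, hu⟩ : ∃ u, m - j = u + 1 := ⟨m - j - 1, by omega⟩
      obtain ⟨v, hv⟩ : ∃ v, q = v + 1 := ⟨q - 1, by omega⟩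
      obtain ⟨w, hw⟩ : ∃ w, m = w + 1 := ⟨m - 1, by omega⟩
      have h2 : (m - j).choose q = (m - (j + 1)).choose q + u.choose v := by
        have : m - (j + 1) = u := by omega
        rw [hu, this, hv, Nat.choose_succ_succ]; ring
      have h3 : u.choose v ≤ w.choose v := Nat.choose_le_choose _ (by omega)
      have h4 : m * w.choose v = q * m.choose q := by
        rw [hw, hv, Nat.add_one_mul_choose_eq]; ring
      have h5 : m * u.choose v ≤ q * m.choose q := by
        rw [← h4]; exact Nat.mul_le_mul_left _ h3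
      rw [h2] at h1
      nlinarith

theorem choose_gain (m r : ℕ) (hr : 1 ≤ r) : ∀ j, m.choose r + j * m.choose (r - 1) ≤ (m + j).choose r := by
  intro j
  induction j with
  | zero => simp
  | succ j ih =>
    obtain ⟨v, hv⟩ : ∃ v, r = v + 1 := ⟨r - 1, by omega⟩
    subst hv
    have h2 : (m + (j + 1)).choose (v + 1) = (m + j).choose v + (m + j).choose (v + 1) := by
      rw [← add_assoc, Nat.choose_succ_succ]
    have h3 : m.choose v ≤ (m + j).choose v := Nat.choose_le_choose _ (by omega)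
    simp only [Nat.add_sub_cancel] at ih ⊢
    rw [h2]
    nlinarith

theorem poly_aux (q j w r : ℤ) (hq0 : 0 ≤ q) (hj0 : 0 ≤ j) (hrz : r ≤ q + 1)
    (h1 : (q + 2) ^ 4 * (j + 1) ≤ r * (w + j + 2)) :
    (q + 1) * ((q + 2) ^ 3 * (j + 1)) < r * (w + 1 - j * q) := by
  have h2 : r * (j + 1 + j * q) ≤ (q + 1) * (j + 1 + j * q) :=
    mul_le_mul_of_nonneg_right hrz (by positivity)
  have h3 : (q + 1) * (j + 1 + j * q) < (q + 2) ^ 3 * (j + 1) := by
    have h4 : (q + 2) ^ 3 * (j + 1) - (q + 1) * (j + 1 + j * q) =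
        j * q ^ 3 + 5 * (j * q ^ 2) + 10 * (j * q) + 7 * j + q ^ 3 + 6 * q ^ 2 + 11 * q + 7 := by ring
    have h5 : 0 < j * q ^ 3 + 5 * (j * q ^ 2) + 10 * (j * q) + 7 * j + q ^ 3 + 6 * q ^ 2 + 11 * q + 7 := by
      positivity
    linarith
  have h4 : (q + 2) ^ 4 * (j + 1) = (q + 1) * ((q + 2) ^ 3 * (j + 1)) + (q + 2) ^ 3 * (j + 1) := by ring
  have h6 : r * (w + 1 - j * q) = r * (w + j + 2) - r * (j + 1 + j * q) := by ring
  rw [h6]
  linarith

theorem combine_aux (q j w r K C1 C2 C3 : ℤ) (hq0 : 0 ≤ q) (hj : j = 0 ∨ 1 ≤ j) (hw0 : 0 ≤ w) (hwj : 0 < w + j)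
    (hr0 : 0 ≤ r) (hC2 : 0 < C2) (hC1 : (w + 1) * C3 = C1 * (q + 1))
    (hd : (w + j) * C2 ≤ (w + j) * C3 + j * q * C2)
    (hpoly : (q + 1) * K < r * (w + 1 - j * q)) :
    K * C2 < r * C1 := by
  have h1 : (q + 1) * (w + j) * (r * C1) = r * (w + 1) * ((w + j) * C3) := by
    calc (q + 1) * (w + j) * (r * C1) = r * (w + j) * (C1 * (q + 1)) := by ring
      _ = r * (w + j) * ((w + 1) * C3) := by rw [hC1]
      _ = _ := by ring
  have h2 : ((w + j) - j * q) * C2 ≤ (w + j) * C3 := by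
    have : ((w + j) - j * q) * C2 = (w + j) * C2 - j * q * C2 := by ring
    linarith
  have h3 : r * (w + 1) * (((w + j) - j * q) * C2) ≤ r * (w + 1) * ((w + j) * C3) :=
    mul_le_mul_of_nonneg_left h2 (by positivity)
  have h4 : (w + j) * (w + 1 - j * q) ≤ (w + 1) * (w + j - j * q) := by
    have h5 : 0 ≤ j * q * (j - 1) := by
      rcases hj with h | h
      · rw [h]; simp
      · have h6 : 0 ≤ j - 1 := by linarith
        positivity
    have h6 : (w + 1) * (w + j - j * q) - (w + j) * (w + 1 - j * q) = j * q * (j - 1) := by ring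
    linarith
  have h6 : (w + j) * ((q + 1) * K) < (w + j) * (r * (w + 1 - j * q)) :=
    mul_lt_mul_of_pos_left hpoly hwj
  have h7 : (w + j) * (r * (w + 1 - j * q)) ≤ r * ((w + 1) * (w + j - j * q)) := by
    calc (w + j) * (r * (w + 1 - j * q)) = r * ((w + j) * (w + 1 - j * q)) := by ring
      _ ≤ _ := mul_le_mul_of_nonneg_left h4 hr0
  have h9 := mul_lt_mul_of_pos_right (lt_of_lt_of_le h6 h7) hC2
  have h10 : (q + 1) * (w + j) * (K * C2) < (q + 1) * (w + j) * (r * C1) := by
    rw [h1]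
    calc (q + 1) * (w + j) * (K * C2) = (w + j) * ((q + 1) * K) * C2 := by ring
      _ < r * ((w + 1) * (w + j - j * q)) * C2 := h9
      _ = r * (w + 1) * (((w + j) - j * q) * C2) := by ring
      _ ≤ _ := h3
  exact lt_of_mul_lt_mul_left h10 (by positivity)

/-- `k³ s C(n-2,k-2) < r C(n-s,k-1)` for `k⁴ s ≤ r n` -/
theorem key_choose (k s r n : ℕ) (hr : 1 ≤ r) (hrk : r < k) (hs : 1 ≤ s) (hn : k ^ 4 * s ≤ r * n) :
    k ^ 3 * s * (n - 2).choose (k - 2) < r * (n - s).choose (k - 1) := by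
  have hk : 2 ≤ k := by omega
  have hn1 : k ^ 3 * s < n := by
    have h1 : k * (k ^ 3 * s) ≤ r * n := by calc k * (k ^ 3 * s) = k ^ 4 * s := by ring
      _ ≤ r * n := hn
    by_contra hcon
    push Not at hcon
    have h2 : r * n ≤ r * (k ^ 3 * s) := Nat.mul_le_mul_left _ hcon
    have h3 : r * (k ^ 3 * s) < k * (k ^ 3 * s) := Nat.mul_lt_mul_of_pos_right hrk (by positivity)
    omega
  have hk3 : 8 ≤ k ^ 3 := by
    calc 8 = 2 ^ 3 := by norm_num
      _ ≤ k ^ 3 := Nat.pow_le_pow_left hk 3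
  have hsn : 8 * s < n := lt_of_le_of_lt (Nat.mul_le_mul_right _ hk3) hn1
  have hkn : k < n := by
    refine lt_of_le_of_lt ?_ hn1
    calc k ≤ k ^ 3 := Nat.le_self_pow (by norm_num) k
        _ ≤ k ^ 3 * s := Nat.le_mul_of_pos_right _ hs
  clear hn1 hk3
  obtain ⟨q, hq⟩ : ∃ q, k = q + 2 := ⟨k - 2, by omega⟩
  obtain ⟨j, hj⟩ : ∃ j, s = j + 1 := ⟨s - 1, by omega⟩
  obtain ⟨w, hw⟩ : ∃ w, n = s + w + 1 := ⟨n - s - 1, by omega⟩
  have e1 : n - 2 = w + j := by omega
  have e2 : n - s = w + 1 := by omega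
  have hd := choose_drop (n - 2) q j (by omega)
  have e3 : n - 2 - j = w := by omega
  rw [e3, e1] at hd
  have e4 : k - 2 = q := by omega
  have e5 : k - 1 = q + 1 := by omega
  rw [e4, e5, e2, e1]
  have hC1 : (w + 1) * w.choose q = (w + 1).choose (q + 1) * (q + 1) := Nat.add_one_mul_choose_eq w q
  have hC2pos : 0 < (w + j).choose q := Nat.choose_pos (by omega)
  have hr' : r ≤ q + 1 := by omega
  have hwj : 0 < w + j := by omega
  have hn' : (q + 2) ^ 4 * (j + 1) ≤ r * (w + j + 2) := by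
    have : n = w + j + 2 := by omega
    rw [hq, hj, this] at hn
    exact hn
  rw [hq, hj]
  have hj' : j = 0 ∨ 1 ≤ j := by omega
  have hp := poly_aux (q : ℤ) j w r (by positivity) (by positivity) (by exact_mod_cast hr') (by exact_mod_cast hn')
  have hc := combine_aux (q : ℤ) j w r (((q : ℤ) + 2) ^ 3 * (j + 1)) ((w + 1).choose (q + 1) : ℕ) ((w + j).choose q : ℕ)
    (w.choose q : ℕ) (by positivity) (by exact_mod_cast hj') (by positivity) (by exact_mod_cast hwj) (by positivity)
    (by exact_mod_cast hC2pos) (by exact_mod_cast hC1) (by exact_mod_cast hd) hp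
  exact_mod_cast hc

/-- the inequality needed in the main argument -/
theorem key_ineq (k s r n t : ℕ) (hr : 1 ≤ r) (hrk : r < k) (hn : k ^ 4 * s ≤ r * n) (ht : t < s) :
    k.choose r * (k * (s - t) * (k * s * (n - 2).choose (k - 2))) <
      ((n - t).choose r - (n - s).choose r) * (n - r - t).choose (k - r) := by
  have hs : 1 ≤ s := by omega
  have hk := key_choose k s r n hr hrk hs hn
  have hsn : s + k ≤ n := by
    have h1 : 16 * s ≤ k ^ 4 * s := Nat.mul_le_mul_right _ (by
      calc 16 = 2 ^ 4 := by norm_num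
        _ ≤ k ^ 4 := Nat.pow_le_pow_left (by omega) 4)
    by_contra hcon
    push Not at hcon
    have h2 : r * n ≤ k * (s + k) := Nat.mul_le_mul hrk.le hcon.le
    have h3 : k * (s + k) < k ^ 4 * s := by
      have h4 : 2 ≤ k := by omega
      have h5 : k * s ≤ k ^ 2 * s := Nat.mul_le_mul_right _ (Nat.le_self_pow (by norm_num) k)
      have h6 : k * k ≤ k ^ 2 * s := by
        calc k * k = k ^ 2 := by ring
          _ ≤ k ^ 2 * s := Nat.le_mul_of_pos_right _ hs
      have h7 : 4 * (k ^ 2 * s) ≤ k ^ 4 * s := by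
        have : 4 ≤ k ^ 2 := by
          calc 4 = 2 ^ 2 := by norm_num
            _ ≤ k ^ 2 := Nat.pow_le_pow_left h4 2
        calc 4 * (k ^ 2 * s) ≤ k ^ 2 * (k ^ 2 * s) := Nat.mul_le_mul_right _ this
          _ = k ^ 4 * s := by ring
      have h8 : 0 < k ^ 2 * s := by positivity
      calc k * (s + k) = k * s + k * k := by ring
        _ ≤ k ^ 2 * s + k ^ 2 * s := Nat.add_le_add h5 h6
        _ < 4 * (k ^ 2 * s) := by omega
        _ ≤ _ := h7
    omega
  have h1 : (n - s).choose r + (s - t) * (n - s).choose (r - 1) ≤ (n - t).choose r := by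
    have := choose_gain (n - s) r hr (s - t)
    have e : n - s + (s - t) = n - t := by omega
    rwa [e] at this
  have h2 : (s - t) * (n - s).choose (r - 1) ≤ (n - t).choose r - (n - s).choose r := by omega
  have h3 : (n - s - (r - 1)).choose (k - 1 - (r - 1)) ≤ (n - r - t).choose (k - r) := by
    have e : k - 1 - (r - 1) = k - r := by omega
    rw [e]
    exact Nat.choose_le_choose _ (by omega)
  have h4 : (n - s).choose (k - 1) * (k - 1).choose (r - 1) =
      (n - s).choose (r - 1) * (n - s - (r - 1)).choose (k - 1 - (r - 1)) :=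
    Nat.choose_mul (by omega)
  have h5 : (s - t) * ((n - s).choose (k - 1) * (k - 1).choose (r - 1)) ≤
      ((n - t).choose r - (n - s).choose r) * (n - r - t).choose (k - r) := by
    rw [h4, ← mul_assoc]
    exact Nat.mul_le_mul h2 h3
  refine lt_of_lt_of_le ?_ h5
  have h6 : r * k.choose r = k * (k - 1).choose (r - 1) := by
    obtain ⟨u, hu⟩ : ∃ u, k = u + 1 := ⟨k - 1, by omega⟩
    obtain ⟨v, hv⟩ : ∃ v, r = v + 1 := ⟨r - 1, by omega⟩
    rw [hu, hv]
    simp only [Nat.add_sub_cancel]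
    rw [Nat.add_one_mul_choose_eq]; ring
  have hpos : 0 < (k - 1).choose (r - 1) := Nat.choose_pos (by omega)
  have h7 : r * (k.choose r * (k * (s - t) * (k * s * (n - 2).choose (k - 2)))) <
      r * ((s - t) * ((n - s).choose (k - 1) * (k - 1).choose (r - 1))) := by
    calc r * (k.choose r * (k * (s - t) * (k * s * (n - 2).choose (k - 2))))
        = (r * k.choose r) * (k * (s - t) * (k * s * (n - 2).choose (k - 2))) := by ring
      _ = (k * (k - 1).choose (r - 1)) * (k * (s - t) * (k * s * (n - 2).choose (k - 2))) := by rw [h6]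
      _ = ((s - t) * (k - 1).choose (r - 1)) * (k ^ 3 * s * (n - 2).choose (k - 2)) := by ring
      _ < ((s - t) * (k - 1).choose (r - 1)) * (r * (n - s).choose (k - 1)) :=
          Nat.mul_lt_mul_of_pos_left hk (Nat.mul_pos (by omega) hpos)
      _ = _ := by ring
  exact lt_of_mul_lt_mul_left h7 (Nat.zero_le _)

theorem chord (a D x p : ℝ) (ha : 0 ≤ a) (haD : a < D) (hx : 0 ≤ x) (hxD : x ≤ D - a) (hp : 1 ≤ p) :
    (a + x) ^ p ≤ a ^ p + x * ((D ^ p - a ^ p) / (D - a)) := by
  have hc := convexOn_rpow hp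
  have hpos : 0 < D - a := by linarith
  have hw1 : 0 ≤ 1 - x / (D - a) := by
    rw [sub_nonneg, div_le_one hpos]; exact hxD
  have hw2 : 0 ≤ x / (D - a) := by positivity
  have hD : D ∈ Set.Ici (0 : ℝ) := by simp only [Set.mem_Ici]; linarith
  have h := hc.2 (show a ∈ Set.Ici (0 : ℝ) from ha) hD hw1 hw2 (by ring)
  simp only [smul_eq_mul] at h
  have e : (1 - x / (D - a)) * a + x / (D - a) * D = a + x := by
    field_simp; ring
  rw [e] at h
  calc (a + x) ^ p ≤ (1 - x / (D - a)) * a ^ p + x / (D - a) * D ^ p := h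
    _ = a ^ p + x * ((D ^ p - a ^ p) / (D - a)) := by field_simp; ring

end Pool.Agent.H65.DP
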