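import Pool.Agent.H65.PWDefs

/-!
Consequences of excluding cycles of length 3, 4 and 6.
-/

namespace H65PW

open Relation Finset Classical

universe u

/-- `G` has no cycle of length 3, 4 or 6. -/
def NoShortCycles {V : Type u} (G : SimpleGraph V) : Prop :=
  ∀ (v : V) (w : G.Walk v v), w.IsCycle → w.length ≠ 3 ∧ w.length ≠ 4 ∧ w.length ≠ 6

theorem no_tri {V : Type u} {G : SimpleGraph V} (h : NoShortCycles G) (a b c : V)
    (h1 : G.Adj a b) (h2 : G.Adj b c) (h3 : G.Adj c a) : False := by
  have hcyc : (SimpleGraph.Walk.cons h1 (SimpleGraph.Walk.cons h2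
      (SimpleGraph.Walk.cons h3 SimpleGraph.Walk.nil))).IsCycle := by
    rw [SimpleGraph.Walk.cons_isCycle_iff]
    have := h1.ne; have := h2.ne; have := h3.ne
    simp [SimpleGraph.Walk.cons_isPath_iff]
    grind
  exact (h a _ hcyc).1 (by simp)

theorem no_c4 {V : Type u} {G : SimpleGraph V} (h : NoShortCycles G) (a b c d : V)
    (h1 : G.Adj a b) (h2 : G.Adj b c) (h3 : G.Adj c d) (h4 : G.Adj d a) (hac : a ≠ c)
    (hbd : b ≠ d) : False := by
  have hcyc : (SimpleGraph.Walk.cons h1 (SimpleGraph.Walk.cons h2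
      (SimpleGraph.Walk.cons h3 (SimpleGraph.Walk.cons h4 SimpleGraph.Walk.nil)))).IsCycle := by
    rw [SimpleGraph.Walk.cons_isCycle_iff]
    have := h1.ne; have := h2.ne; have := h3.ne; have := h4.ne
    simp [SimpleGraph.Walk.cons_isPath_iff]
    grind
  exact (h a _ hcyc).2.1 (by simp)

theorem no_c6 {V : Type u} {G : SimpleGraph V} (h : NoShortCycles G) (a b c d e f : V)
    (h1 : G.Adj a b) (h2 : G.Adj b c) (h3 : G.Adj c d) (h4 : G.Adj d e) (h5 : G.Adj e f)
    (h6 : G.Adj f a) (hac : a ≠ c) (had : a ≠ d) (hae : a ≠ e) (hbd : b ≠ d) (hbe : b ≠ e)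
    (hbf : b ≠ f) (hce : c ≠ e) (hcf : c ≠ f) (hdf : d ≠ f) : False := by
  have hcyc : (SimpleGraph.Walk.cons h1 (SimpleGraph.Walk.cons h2
      (SimpleGraph.Walk.cons h3 (SimpleGraph.Walk.cons h4 (SimpleGraph.Walk.cons h5
        (SimpleGraph.Walk.cons h6 SimpleGraph.Walk.nil)))))).IsCycle := by
    rw [SimpleGraph.Walk.cons_isCycle_iff]
    have := h1.ne; have := h2.ne; have := h3.ne; have := h4.ne; have := h5.ne; have := h6.ne
    simp [SimpleGraph.Walk.cons_isPath_iff]
    grind
  exact (h a _ hcyc).2.2 (by simp)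

theorem good_of {V : Type u} {G : SimpleGraph V} (h : NoShortCycles G) : Good G := by
  refine ⟨no_tri h, ?_, ?_⟩
  · intro a b x y hab hxa hxb hya hyb
    by_contra hne
    exact no_c4 h x a y b hxa hya.symm hyb hxb.symm hne hab
  · intro x x' f g f' g' h1 h2 h3 h1' h2' h3' hf hf' hg hg'
    by_cases hff : f = f'
    · subst hff
      refine ⟨rfl, ?_⟩
      by_contra hgg
      exact no_c4 h f g x' g' h2 h3 h3'.symm h2'.symm hf hgg
    · exfalso
      by_cases hgg : g = g'
      · subst hgg
        exact no_c4 h x f g f' h1 h2 h2'.symm h1'.symm (Ne.symm hg) hff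
      · have hfg' : f ≠ g' := by
          rintro rfl
          exact no_tri h f g x' h2 h3 h3'.symm
        have hgf' : g ≠ f' := by
          rintro rfl
          exact no_tri h x f g h1 h2 h1'.symm
        have hxx : x ≠ x' := by
          rintro rfl
          exact no_tri h x f g h1 h2 h3
        exact no_c6 h x f g x' g' f' h1 h2 h3 h3'.symm h2'.symm h1'.symm (Ne.symm hg) hxx
          (Ne.symm hg') hf hfg' hff hgg hgf' (Ne.symm hf')

theorem reach_of {V : Type u} [Fintype V] {G : SimpleGraph V} {c : V → Bool} {S : Finset V}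
    (hS : ∀ u ∈ S, ∀ v ∈ S, c u = c v) (a b : (S : Set V))
    (h : (G.induce (S : Set V)).Reachable a b) :
    ReflTransGen (Mono G c Finset.univ) (a : V) (b : V) := by
  obtain ⟨w⟩ := h
  induction w with
  | nil => exact ReflTransGen.refl
  | @cons x y z hxy _ ih =>
    refine ReflTransGen.head ⟨Finset.mem_univ _, Finset.mem_univ _, ?_, ?_⟩ ih
    · simpa using hxy
    · exact hS _ (by simp) _ (by simp)


end H65PW
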