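import Pool.Agent.H65.PWFin
import Pool.Agent.H65.PWCyc

/-!
From path decompositions and excluded cycle lengths to the hypotheses of the induction.
-/

namespace H65PW

open Relation Finset Classical

universe u

/-- `G` has a path decomposition `B 0, …, B (n-1)` of width at most `k`. -/
def PathwidthLE {V : Type u} (G : SimpleGraph V) (k : ℕ) : Prop :=
  ∃ (n : ℕ) (B : Fin n → Finset V),
    (∀ v, ∃ i, v ∈ B i) ∧
    (∀ u v, G.Adj u v → ∃ i, u ∈ B i ∧ v ∈ B i) ∧
    (∀ i j l, i ≤ j → j ≤ l → ∀ v, v ∈ B i → v ∈ B l → v ∈ B j) ∧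
    (∀ i, (B i).card ≤ k + 1)

theorem layout_of {V : Type u} [Fintype V] {G : SimpleGraph V} {k : ℕ} (h : PathwidthLE G k) :
    ∃ l r : V → ℕ, Lay G l r Finset.univ (k + 1) := by
  obtain ⟨n, B, hcov, hedge, hint, hcard⟩ := h
  have hne : ∀ v, (Finset.univ.filter (fun i : Fin n => v ∈ B i)).Nonempty := by
    intro v
    obtain ⟨i, hi⟩ := hcov v
    exact ⟨i, by simp [hi]⟩
  set lo : V → Fin n := fun v => (Finset.univ.filter (fun i : Fin n => v ∈ B i)).min' (hne v)
    with hlo
  set hi : V → Fin n := fun v => (Finset.univ.filter (fun i : Fin n => v ∈ B i)).max' (hne v)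
    with hhi
  have hlom : ∀ v, v ∈ B (lo v) := by
    intro v
    have := Finset.min'_mem _ (hne v)
    simpa using this
  have hhim : ∀ v, v ∈ B (hi v) := by
    intro v
    have := Finset.max'_mem _ (hne v)
    simpa using this
  have hlole : ∀ v i, v ∈ B i → lo v ≤ i := by
    intro v i hvi
    exact Finset.min'_le _ _ (by simp [hvi])
  have hlehi : ∀ v i, v ∈ B i → i ≤ hi v := by
    intro v i hvi
    exact Finset.le_max' _ _ (by simp [hvi])
  refine ⟨fun v => (lo v : ℕ), fun v => (hi v : ℕ), ?_, ?_, ?_⟩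
  · intro u _
    exact hlehi u (lo u) (hlom u)
  · intro u _ v _ huv
    obtain ⟨i, hui, hvi⟩ := hedge u v huv
    exact le_trans (hlole u i hui) (hlehi v i hvi)
  · intro t
    by_cases ht : t < n
    · refine le_trans (Finset.card_le_card ?_) (hcard ⟨t, ht⟩)
      intro u hu
      simp only [Finset.mem_filter, Finset.mem_univ, true_and] at hu
      exact hint (lo u) ⟨t, ht⟩ (hi u) (Fin.le_def.mpr hu.1) (Fin.le_def.mpr hu.2) u
        (hlom u) (hhim u)
    · have : (Finset.univ.filter (fun u : V => (lo u : ℕ) ≤ t ∧ t ≤ (hi u : ℕ))) = ∅ := by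
        rw [Finset.filter_eq_empty_iff]
        intro u _ hu
        have := (hi u).isLt
        omega
      rw [this]
      simp

end H65PW
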