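import Mathlib

/-!
Bounded pathwidth, no cycle of length 3, 4, 6: 2-colourable with bounded clustering.
Basic definitions used in the inductive proof.
-/

namespace H65PW

open Relation Finset Classical

universe u

variable {V : Type u}

/-- Monochromatic adjacency inside `U`. -/
def Mono (G : SimpleGraph V) (c : V → Bool) (U : Finset V) (a b : V) : Prop :=
  a ∈ U ∧ b ∈ U ∧ G.Adj a b ∧ c a = c b

/-- Local consequences of having no cycle of length 3, 4 or 6. -/
structure Good (G : SimpleGraph V) : Prop where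
  tri : ∀ a b c, G.Adj a b → G.Adj b c → G.Adj c a → False
  c4 : ∀ a b x y, a ≠ b → G.Adj x a → G.Adj x b → G.Adj y a → G.Adj y b → x = y
  p3 : ∀ x x' f g f' g', G.Adj x f → G.Adj f g → G.Adj g x' →
    G.Adj x f' → G.Adj f' g' → G.Adj g' x' →
    f ≠ x' → f' ≠ x' → g ≠ x → g' ≠ x → f = f' ∧ g = g'

/-- Interval layout of width `k`. -/
structure Lay (G : SimpleGraph V) (l r : V → ℕ) (U : Finset V) (k : ℕ) : Prop where
  le : ∀ u ∈ U, l u ≤ r u
  adj : ∀ u ∈ U, ∀ v ∈ U, G.Adj u v → l u ≤ r v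
  width : ∀ t, (U.filter (fun u => l u ≤ t ∧ t ≤ r u)).card ≤ k

/-- The inductive statement. -/
def Q (k : ℕ) : Prop :=
  ∀ m : ℕ, ∃ N : ℕ, ∀ (V : Type u) (G : SimpleGraph V), Good G →
    ∀ (l r : V → ℕ) (U : Finset V), Lay G l r U k →
    ∀ (L : List V), L.length ≤ m → (∀ x ∈ L, x ∉ U) →
    ∀ c0 : V → Bool, ∃ c : V → Bool,
      (∀ v, v ∉ U → c v = c0 v) ∧
      (∀ u ∈ U, ∀ x, L.find? (fun y => decide (G.Adj u y)) = some x → c u = !c0 x) ∧
      (∀ u ∈ U, (U.filter (fun v => ReflTransGen (Mono G c U) u v)).card ≤ N)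

theorem Q_zero : Q.{u} 0 := by
  intro m
  refine ⟨0, ?_⟩
  intro V G hG l r U hL L hLm hLU c0
  have hU : ∀ u, u ∉ U := by
    intro u hu
    have h := hL.width (l u)
    have h2 : u ∈ U.filter (fun v => l v ≤ l u ∧ l u ≤ r v) := by
      simp [hu, hL.le u hu]
    have h3 := Finset.card_pos.mpr ⟨u, h2⟩
    omega
  refine ⟨c0, fun v _ => rfl, ?_, ?_⟩
  · intro u hu; exact absurd hu (hU u)
  · intro u hu; exact absurd hu (hU u)

theorem mono_color {G : SimpleGraph V} {c : V → Bool} {U : Finset V} {u v : V}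
    (h : ReflTransGen (Mono G c U) u v) : c u = c v := by
  induction h with
  | refl => rfl
  | tail _ h2 ih => exact ih.trans h2.2.2.2

theorem mono_mem {G : SimpleGraph V} {c : V → Bool} {U : Finset V} {u v : V}
    (hu : u ∈ U) (h : ReflTransGen (Mono G c U) u v) : v ∈ U := by
  induction h with
  | refl => exact hu
  | tail _ h2 ih => exact h2.2.1

theorem crossing {α : Type*} {R : α → α → Prop} {P : α → Prop} {u v : α}
    (h : ReflTransGen R u v) (hu : ¬ P u) (hv : P v) :
    ∃ p q, ReflTransGen R u p ∧ R p q ∧ ¬ P p ∧ P q := by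
  induction h with
  | refl => exact absurd hv hu
  | @tail b c hb hbc ih =>
    by_cases hPb : P b
    · exact ih hPb
    · exact ⟨b, c, hb, hbc, hPb, hv⟩

end H65PW
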