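import Pool.Agent.H65.PWStep

/-!
The cluster bound in the inductive step.
-/

namespace H65PW

open Relation Finset Classical

universe u

variable {V : Type u}

variable {G : SimpleGraph V} {l r : V → ℕ} {U : Finset V} {L : List V} {c0 : V → Bool}
variable {k : ℕ} {c : V → Bool} {N : ℕ}

/-- Segment neighbours of `y` of the same colour. -/
noncomputable def Nb (G : SimpleGraph V) (l r : V → ℕ) (U : Finset V) (c : V → Bool) (y : V) :
    Finset V :=
  U.filter (fun v => ¬ IsY l r U v ∧ G.Adj v y ∧ c v = c y)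

theorem card_Nb (hG : Good G) (hL : Lay G l r U k) {m : ℕ}
    (hm : L.length ≤ m) (hc : Comb G l r U L c0 c N) {y : V} (hy : y ∈ U) (hY : IsY l r U y) :
    (Nb G l r U c y).card ≤ m + 3 * k := by
  have h1 : (Nb G l r U c y).card ≤ (L.toFinset ∪ (Yj l r U (idx l r U y - 1) ∪
      (Yj l r U (idx l r U y) ∪ Yj l r U (idx l r U y + 1)))).card := by
    refine Finset.card_le_card_of_forall_subsingleton
      (fun v x => x ≠ y ∧ G.Adj v x ∧ G.Adj v y) ?_ ?_
    · intro v hv
      rw [Nb, Finset.mem_filter] at hv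
      obtain ⟨hvU, hvY, hadj, hcol⟩ := hv
      have hidx : idx l r U y = idx l r U v ∨ idx l r U y = idx l r U v + 1 := by
        rcases lt_trichotomy (idx l r U y) (idx l r U v) with h | h | h
        · exact absurd (adj_idx hL hy hvU hadj.symm h).1 hvY
        · exact Or.inl h
        · exact Or.inr (adj_idx hL hvU hy hadj h).2
      have hyL : y ∈ Lj G l r U L c0 (idx l r U v) := by
        rw [Lj, List.mem_append, List.mem_append, Finset.mem_toList, Finset.mem_union,
          mem_Yj, mem_Yj]
        rcases hidx with h | h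
        · exact Or.inr (Or.inr (Or.inl ⟨hy, hY, h⟩))
        · exact Or.inr (Or.inr (Or.inr ⟨hy, hY, h⟩))
      obtain ⟨x, hx, hvx, hfind⟩ := find_some_of hyL hadj
      have hcx := hc.onZ v hvU hvY x hfind
      have hxy : x ≠ y := by
        rintro rfl
        rw [hcol] at hcx
        cases h : c x <;> simp [h] at hcx
      refine ⟨x, ?_, hxy, hvx, hadj⟩
      have hx2 : x ∈ L ∨ (x ∈ Yj l r U (idx l r U v) ∨ x ∈ Yj l r U (idx l r U v + 1)) := by
        rw [Lj, List.mem_append, List.mem_append, Finset.mem_toList, Finset.mem_union] at hx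
        rcases hx with h | h | h
        · exact Or.inl h
        · rw [Wj, Finset.mem_toList, Finset.mem_filter, Finset.mem_union] at h
          exact Or.inr h.1
        · exact Or.inr h
      simp only [Finset.mem_union, List.mem_toFinset]
      rcases hx2 with h | h | h
      · exact Or.inl h
      · rcases hidx with h' | h'
        · rw [h']; exact Or.inr (Or.inr (Or.inl h))
        · rw [h']; exact Or.inr (Or.inl (by simpa using h))
      · rcases hidx with h' | h'
        · rw [h']; exact Or.inr (Or.inr (Or.inr h))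
        · rw [h']; exact Or.inr (Or.inr (Or.inl h))
    · rintro x _ v ⟨_, hne, h1, h2⟩ v' ⟨_, _, h1', h2'⟩
      exact hG.c4 x y v v' hne h1 h2 h1' h2'
  have h2 : L.toFinset.card ≤ m := (List.toFinset_card_le L).trans hm
  have h3 := Finset.card_union_le L.toFinset (Yj l r U (idx l r U y - 1) ∪
      (Yj l r U (idx l r U y) ∪ Yj l r U (idx l r U y + 1)))
  have h4 := Finset.card_union_le (Yj l r U (idx l r U y - 1))
      (Yj l r U (idx l r U y) ∪ Yj l r U (idx l r U y + 1))
  have h5 := Finset.card_union_le (Yj l r U (idx l r U y)) (Yj l r U (idx l r U y + 1))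
  have h6 := card_Yj hL (idx l r U y - 1)
  have h7 := card_Yj hL (idx l r U y)
  have h8 := card_Yj hL (idx l r U y + 1)
  omega

/-- The cluster of `u` in `U`. -/
noncomputable def Clu (G : SimpleGraph V) (U : Finset V) (c : V → Bool) (u : V) : Finset V :=
  U.filter (fun v => ReflTransGen (Mono G c U) u v)

/-- Number of indices met by a cluster. -/
def bndI (m : ℕ) : ℕ := 12 * (m * m + 1) + 1

theorem card_Clu_Y (hG : Good G) (hL : Lay G l r U k) (hLU : ∀ x ∈ L, x ∉ U) {m : ℕ}
    (hm : L.length ≤ m) (hc : Comb G l r U L c0 c N) {u : V} (hu : u ∈ U) :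
    ((Clu G U c u).filter (fun v => IsY l r U v)).card ≤ bndI m * k := by
  have hsub : (Clu G U c u).filter (fun v => IsY l r U v) ⊆
      (Finset.Icc (idx l r U u - 6 * (m * m + 1)) (idx l r U u + 6 * (m * m + 1))).biUnion
        (fun j => Yj l r U j) := by
    intro v hv
    rw [Finset.mem_filter, Clu, Finset.mem_filter] at hv
    obtain ⟨⟨hvU, huv⟩, hY⟩ := hv
    rw [Finset.mem_biUnion]
    refine ⟨idx l r U v, ?_, mem_Yj.mpr ⟨hvU, hY, rfl⟩⟩
    rw [Finset.mem_Icc]
    constructor
    · by_contra h
      have := range_down hG hL hLU hm hc hu huv (q := m * m + 1) (by omega)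
      omega
    · by_contra h
      have := range_up hG hL hLU hm hc hu huv (q := m * m + 1) (by omega)
      omega
  refine (Finset.card_le_card hsub).trans ?_
  refine (Finset.card_biUnion_le_card_mul _ _ k (fun j _ => card_Yj hL j)).trans ?_
  refine Nat.mul_le_mul_right k ?_
  rw [Nat.card_Icc, bndI]
  omega

theorem card_Clu (hG : Good G) (hL : Lay G l r U k) (hLU : ∀ x ∈ L, x ∉ U) {m : ℕ}
    (hm : L.length ≤ m) (hc : Comb G l r U L c0 c N) {u : V} (hu : u ∈ U) :
    (Clu G U c u).card ≤ bndI m * k + (1 + bndI m * k * (m + 3 * k)) * N := by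
  have hsplit : (Clu G U c u).card = ((Clu G U c u).filter (fun v => IsY l r U v)).card +
      ((Clu G U c u).filter (fun v => ¬ IsY l r U v)).card :=
    (Finset.card_filter_add_card_filter_not (s := Clu G U c u) (fun v => IsY l r U v)).symm
  have hY := card_Clu_Y hG hL hLU hm hc hu
  -- starting points
  set T : Finset V := insert u (((Clu G U c u).filter (fun v => IsY l r U v)).biUnion
    (fun y => Nb G l r U c y)) with hT
  have hTcard : T.card ≤ 1 + bndI m * k * (m + 3 * k) := by
    have h1 := Finset.card_insert_le u (((Clu G U c u).filter (fun v => IsY l r U v)).biUnion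
      (fun y => Nb G l r U c y))
    have h2 : (((Clu G U c u).filter (fun v => IsY l r U v)).biUnion
      (fun y => Nb G l r U c y)).card ≤
      ((Clu G U c u).filter (fun v => IsY l r U v)).card * (m + 3 * k) := by
      refine Finset.card_biUnion_le_card_mul _ _ _ ?_
      intro y hy
      rw [Finset.mem_filter, Clu, Finset.mem_filter] at hy
      exact card_Nb hG hL hm hc hy.1.1 hy.2
    have h3 : ((Clu G U c u).filter (fun v => IsY l r U v)).card * (m + 3 * k) ≤
      bndI m * k * (m + 3 * k) := Nat.mul_le_mul_right _ hY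
    rw [hT]
    omega
  have hcover : (Clu G U c u).filter (fun v => ¬ IsY l r U v) ⊆
      (T.filter (fun t => t ∈ U ∧ ¬ IsY l r U t)).biUnion (fun t =>
        (Zj l r U (idx l r U t)).filter
          (fun v => ReflTransGen (Mono G c (Zj l r U (idx l r U t))) t v)) := by
    have key : ∀ v, ReflTransGen (Mono G c U) u v → ¬ IsY l r U v →
        ∃ t ∈ T, t ∈ U ∧ ¬ IsY l r U t ∧ idx l r U v = idx l r U t ∧
          ReflTransGen (Mono G c (Zj l r U (idx l r U t))) t v := by
      intro v huv
      induction huv with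
      | refl =>
        intro h
        exact ⟨u, by simp [hT], hu, h, rfl, ReflTransGen.refl⟩
      | @tail a b hua hab ih =>
        intro hbY
        by_cases haY : IsY l r U a
        · refine ⟨b, ?_, hab.2.1, hbY, rfl, ReflTransGen.refl⟩
          rw [hT, Finset.mem_insert, Finset.mem_biUnion]
          right
          refine ⟨a, ?_, ?_⟩
          · rw [Finset.mem_filter, Clu, Finset.mem_filter]
            exact ⟨⟨hab.1, hua⟩, haY⟩
          · rw [Nb, Finset.mem_filter]
            exact ⟨hab.2.1, hbY, hab.2.2.1.symm, hab.2.2.2.symm⟩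
        · obtain ⟨t, htT, htU, htY, hi, ht⟩ := ih haY
          have hi2 : idx l r U b = idx l r U a := by
            rcases lt_trichotomy (idx l r U a) (idx l r U b) with h | h | h
            · exact absurd (adj_idx hL hab.1 hab.2.1 hab.2.2.1 h).1 hbY
            · exact h.symm
            · exact absurd (adj_idx hL hab.2.1 hab.1 hab.2.2.1.symm h).1 haY
          refine ⟨t, htT, htU, htY, hi2.trans hi, ht.tail ?_⟩
          exact ⟨mem_Zj.mpr ⟨hab.1, haY, hi⟩, mem_Zj.mpr ⟨hab.2.1, hbY, hi2.trans hi⟩,
            hab.2.2.1, hab.2.2.2⟩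
    intro v hv
    rw [Finset.mem_filter, Clu, Finset.mem_filter] at hv
    obtain ⟨⟨hvU, huv⟩, hvY⟩ := hv
    obtain ⟨t, htT, htU, htY, hi, ht⟩ := key v huv hvY
    rw [Finset.mem_biUnion]
    refine ⟨t, ?_, ?_⟩
    · rw [Finset.mem_filter]; exact ⟨htT, htU, htY⟩
    · rw [Finset.mem_filter]; exact ⟨mem_Zj.mpr ⟨hvU, hvY, hi⟩, ht⟩
  have hZ : ((Clu G U c u).filter (fun v => ¬ IsY l r U v)).card ≤
      (1 + bndI m * k * (m + 3 * k)) * N := by
    refine (Finset.card_le_card hcover).trans ?_
    refine (Finset.card_biUnion_le_card_mul _ _ N ?_).trans ?_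
    · intro t ht
      rw [Finset.mem_filter] at ht
      exact hc.clus _ t (mem_Zj.mpr ⟨ht.2.1, ht.2.2, rfl⟩)
    · exact Nat.mul_le_mul_right N ((Finset.card_le_card (Finset.filter_subset _ _)).trans hTcard)
  omega

theorem length_Lj (hL : Lay G l r U k) {m : ℕ} (hm : L.length ≤ m) (j : ℕ) :
    (Lj G l r U L c0 j).length ≤ m + 4 * k := by
  rw [Lj, List.length_append, List.length_append, Wj, Finset.length_toList,
    Finset.length_toList]
  have h1 := Finset.card_filter_le (Yj l r U j ∪ Yj l r U (j + 1))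
    (fun n => wall (cY G l r U L c0 n) (idx l r U n))
  have h2 := Finset.card_union_le (Yj l r U j) (Yj l r U (j + 1))
  have h3 := card_Yj hL j
  have h4 := card_Yj hL (j + 1)
  omega

theorem Q_succ {k : ℕ} (ih : Q.{u} k) : Q.{u} (k + 1) := by
  intro m
  obtain ⟨N, hN⟩ := ih (m + 4 * (k + 1))
  refine ⟨bndI m * (k + 1) + (1 + bndI m * (k + 1) * (m + 3 * (k + 1))) * N, ?_⟩
  intro V G hG l r U hL L hm hLU c0
  have hLjU : ∀ j, ∀ x ∈ Lj G l r U L c0 j, x ∉ Zj l r U j := by
    intro j x hx hxZ
    rw [mem_Zj] at hxZ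
    rw [Lj, List.mem_append, List.mem_append, Finset.mem_toList, Finset.mem_union] at hx
    rcases hx with h | h | h
    · exact hLU x h hxZ.1
    · rw [Wj, Finset.mem_toList, Finset.mem_filter, Finset.mem_union, mem_Yj, mem_Yj] at h
      rcases h.1 with h' | h'
      · exact hxZ.2.1 h'.2.1
      · exact hxZ.2.1 h'.2.1
    · rw [mem_Yj, mem_Yj] at h
      rcases h with h' | h'
      · exact hxZ.2.1 h'.2.1
      · exact hxZ.2.1 h'.2.1
  choose cj hcj1 hcj2 hcj3 using fun j => hN V G hG l r (Zj l r U j) (lay_Zj hL j)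
    (Lj G l r U L c0 j) (length_Lj hL hm j) (hLjU j) (c1 G l r U L c0)
  set c : V → Bool := fun v => cj (idx l r U v) v with hc
  have hout : ∀ v, v ∉ U → c v = c0 v := by
    intro v hv
    have h1 : c v = c1 G l r U L c0 v :=
      hcj1 (idx l r U v) v (fun h => hv (mem_Zj.mp h).1)
    rw [h1, c1, if_neg (fun h => hv h.1)]
  have honY : ∀ v ∈ U, IsY l r U v → c v = cY G l r U L c0 v := by
    intro v hv hY
    have h1 : c v = c1 G l r U L c0 v :=
      hcj1 (idx l r U v) v (fun h => (mem_Zj.mp h).2.1 hY)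
    rw [h1, c1, if_pos ⟨hv, hY⟩]
  have hc1 : ∀ j, ∀ x ∈ Lj G l r U L c0 j, c1 G l r U L c0 x = c x := by
    intro j x hx
    rw [Lj, List.mem_append, List.mem_append, Finset.mem_toList, Finset.mem_union] at hx
    have hcase : x ∉ U ∨ (x ∈ U ∧ IsY l r U x) := by
      rcases hx with h | h | h
      · exact Or.inl (hLU x h)
      · rw [Wj, Finset.mem_toList, Finset.mem_filter, Finset.mem_union, mem_Yj, mem_Yj] at h
        rcases h.1 with h' | h'
        · exact Or.inr ⟨h'.1, h'.2.1⟩
        · exact Or.inr ⟨h'.1, h'.2.1⟩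
      · rw [mem_Yj, mem_Yj] at h
        rcases h with h' | h'
        · exact Or.inr ⟨h'.1, h'.2.1⟩
        · exact Or.inr ⟨h'.1, h'.2.1⟩
    rcases hcase with h | h
    · rw [hout x h, c1, if_neg (fun h' => h h'.1)]
    · rw [honY x h.1 h.2, c1, if_pos h]
  have hagree : ∀ j, ∀ x ∈ Zj l r U j, c x = cj j x := by
    intro j x hx
    rw [mem_Zj] at hx
    rw [hc]
    simp only
    rw [hx.2.2]
  have hcomb : Comb G l r U L c0 c N := by
    refine ⟨hout, honY, ?_, ?_⟩
    · intro v hv hY x hx
      have h1 := hcj2 (idx l r U v) v (mem_Zj.mpr ⟨hv, hY, rfl⟩) x hx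
      rw [hc1 _ x (find_spec hx).1] at h1
      exact h1
    · intro j v hv
      refine le_trans (Finset.card_le_card ?_) (hcj3 j v hv)
      intro w hw
      rw [Finset.mem_filter] at hw ⊢
      have hmono : ∀ a b, Mono G c (Zj l r U j) a b → Mono G (cj j) (Zj l r U j) a b := by
        rintro a b ⟨ha, hb, hab, hcab⟩
        refine ⟨ha, hb, hab, ?_⟩
        rw [← hagree j a ha, ← hagree j b hb]
        exact hcab
      exact ⟨hw.1, ReflTransGen.mono hmono _ _ hw.2⟩
  refine ⟨c, hout, ?_, ?_⟩
  · intro v hv x hx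
    by_cases hY : IsY l r U v
    · rw [honY v hv hY, cY, hx]
    · have h1 : (Lj G l r U L c0 (idx l r U v)).find? (fun y => decide (G.Adj v y))
          = some x := by
        rw [Lj, List.find?_append, hx]
        simp
      rw [hcomb.onZ v hv hY x h1, hout x (hLU x (find_spec hx).1)]
  · intro v hv
    exact card_Clu hG hL hLU hm hcomb hv

theorem Q_all (k : ℕ) : Q.{u} k := by
  induction k with
  | zero => exact Q_zero
  | succ k ih => exact Q_succ ih

end H65PW
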