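import Pool.Agent.H65.PWDefs

/-!
The greedy cut points `tau` and the segment index of a vertex.
-/

namespace H65PW

open Relation Finset Classical

universe u

variable {V : Type u}

noncomputable def tau (l r : V → ℕ) (U : Finset V) : ℕ → ℕ
  | 0 => 0
  | j + 1 => max (tau l r U j) ((U.filter (fun u => l u ≤ tau l r U j)).sup r) + 1

theorem tau_lt (l r : V → ℕ) (U : Finset V) (j : ℕ) : tau l r U j < tau l r U (j + 1) := by
  rw [tau]
  have := le_max_left (tau l r U j) ((U.filter (fun u => l u ≤ tau l r U j)).sup r)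
  omega

theorem tau_strictMono (l r : V → ℕ) (U : Finset V) : StrictMono (tau l r U) :=
  strictMono_nat_of_lt_succ (tau_lt l r U)

theorem lt_tau_succ {l r : V → ℕ} {U : Finset V} {j : ℕ} {u : V} (hu : u ∈ U)
    (h : l u ≤ tau l r U j) : r u < tau l r U (j + 1) := by
  rw [tau]
  have h1 : r u ≤ (U.filter (fun u => l u ≤ tau l r U j)).sup r :=
    Finset.le_sup (f := r) (by simp [hu, h])
  have := le_max_right (tau l r U j) ((U.filter (fun u => l u ≤ tau l r U j)).sup r)
  omega

theorem exists_alive {l r : V → ℕ} {U : Finset V} {j t : ℕ} (h1 : tau l r U j < t)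
    (h2 : t < tau l r U (j + 1)) : ∃ w ∈ U, l w ≤ tau l r U j ∧ t ≤ r w := by
  rw [tau] at h2
  by_contra hcon
  push Not at hcon
  have h3 : (U.filter (fun u => l u ≤ tau l r U j)).sup r < t := by
    rw [Finset.sup_lt_iff (by simp only [Nat.bot_eq_zero]; omega)]
    intro b hb
    simp only [Finset.mem_filter] at hb
    exact hcon b hb.1 hb.2
  have h4 : max (tau l r U j) ((U.filter (fun u => l u ≤ tau l r U j)).sup r) < t :=
    max_lt h1 h3
  omega

theorem exists_idx (l r : V → ℕ) (U : Finset V) (u : V) : ∃ j, r u < tau l r U (j + 1) :=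
  ⟨r u, lt_of_lt_of_le (Nat.lt_succ_self _) (tau_strictMono l r U).le_apply⟩

noncomputable def idx (l r : V → ℕ) (U : Finset V) (u : V) : ℕ := Nat.find (exists_idx l r U u)

theorem idx_lt (l r : V → ℕ) (U : Finset V) (u : V) : r u < tau l r U (idx l r U u + 1) :=
  Nat.find_spec (exists_idx l r U u)

theorem le_idx (l r : V → ℕ) (U : Finset V) (u : V) : tau l r U (idx l r U u) ≤ r u := by
  rcases h : idx l r U u with _ | j
  · simp [tau]
  · have := Nat.find_min (exists_idx l r U u) (m := j) (by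
      have : Nat.find (exists_idx l r U u) = j + 1 := h
      omega)
    omega

theorem idx_eq {l r : V → ℕ} {U : Finset V} {u : V} {j : ℕ} (h1 : tau l r U j ≤ r u)
    (h2 : r u < tau l r U (j + 1)) : idx l r U u = j := by
  have h3 := idx_lt l r U u
  have h4 := le_idx l r U u
  have h5 : j < idx l r U u + 1 := (tau_strictMono l r U).lt_iff_lt.mp (lt_of_le_of_lt h1 h3)
  have h6 : idx l r U u < j + 1 := (tau_strictMono l r U).lt_iff_lt.mp (lt_of_le_of_lt h4 h2)
  omega

/-- Vertices alive at `tau j`. -/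
noncomputable def Yj (l r : V → ℕ) (U : Finset V) (j : ℕ) : Finset V :=
  U.filter (fun u => idx l r U u = j ∧ l u ≤ tau l r U j)

/-- Vertices strictly inside segment `j`. -/
noncomputable def Zj (l r : V → ℕ) (U : Finset V) (j : ℕ) : Finset V :=
  U.filter (fun u => idx l r U u = j ∧ tau l r U j < l u)

/-- `u` is a cut vertex. -/
def IsY (l r : V → ℕ) (U : Finset V) (u : V) : Prop := l u ≤ tau l r U (idx l r U u)

theorem mem_Yj {l r : V → ℕ} {U : Finset V} {j : ℕ} {u : V} :
    u ∈ Yj l r U j ↔ u ∈ U ∧ IsY l r U u ∧ idx l r U u = j := by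
  simp only [Yj, IsY, Finset.mem_filter]
  constructor
  · rintro ⟨h1, h2, h3⟩; exact ⟨h1, by rw [h2]; exact h3, h2⟩
  · rintro ⟨h1, h2, h3⟩; exact ⟨h1, h3, by rw [← h3]; exact h2⟩

theorem mem_Zj {l r : V → ℕ} {U : Finset V} {j : ℕ} {u : V} :
    u ∈ Zj l r U j ↔ u ∈ U ∧ ¬ IsY l r U u ∧ idx l r U u = j := by
  simp only [Zj, IsY, Finset.mem_filter, not_le]
  constructor
  · rintro ⟨h1, h2, h3⟩; exact ⟨h1, by rw [h2]; exact h3, h2⟩
  · rintro ⟨h1, h2, h3⟩; exact ⟨h1, h3, by rw [← h3]; exact h2⟩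

theorem card_Yj {G : SimpleGraph V} {l r : V → ℕ} {U : Finset V} {k : ℕ} (hL : Lay G l r U k)
    (j : ℕ) : (Yj l r U j).card ≤ k := by
  refine le_trans (Finset.card_le_card ?_) (hL.width (tau l r U j))
  intro u hu
  simp only [Yj, Finset.mem_filter] at hu ⊢
  refine ⟨hu.1, hu.2.2, ?_⟩
  have := le_idx l r U u
  rw [hu.2.1] at this
  exact this

theorem lay_Zj {G : SimpleGraph V} {l r : V → ℕ} {U : Finset V} {k : ℕ}
    (hL : Lay G l r U (k + 1)) (j : ℕ) : Lay G l r (Zj l r U j) k := by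
  have hsub : Zj l r U j ⊆ U := Finset.filter_subset _ _
  refine ⟨fun u hu => hL.le u (hsub hu), fun u hu v hv h => hL.adj u (hsub hu) v (hsub hv) h, ?_⟩
  intro t
  by_cases hne : ((Zj l r U j).filter (fun u => l u ≤ t ∧ t ≤ r u)).Nonempty
  · obtain ⟨u, hu⟩ := hne
    simp only [Zj, Finset.mem_filter] at hu
    obtain ⟨⟨hu1, hu2, hu3⟩, hu4, hu5⟩ := hu
    have hlt := idx_lt l r U u
    rw [hu2] at hlt
    obtain ⟨w, hw1, hw2, hw3⟩ := exists_alive (l := l) (r := r) (U := U) (j := j) (t := t)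
      (lt_of_lt_of_le hu3 hu4) (lt_of_le_of_lt hu5 hlt)
    have hwn : w ∉ (Zj l r U j).filter (fun u => l u ≤ t ∧ t ≤ r u) := by
      simp only [Zj, Finset.mem_filter]
      rintro ⟨⟨_, _, h⟩, _⟩
      omega
    have hsub2 : insert w ((Zj l r U j).filter (fun u => l u ≤ t ∧ t ≤ r u)) ⊆
        U.filter (fun u => l u ≤ t ∧ t ≤ r u) := by
      intro x hx
      rw [Finset.mem_insert] at hx
      rcases hx with rfl | hx
      · simp only [Finset.mem_filter]
        exact ⟨hw1, by omega, hw3⟩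
      · simp only [Finset.mem_filter] at hx ⊢
        exact ⟨hsub hx.1, hx.2⟩
    have h1 := Finset.card_le_card hsub2
    rw [Finset.card_insert_of_notMem hwn] at h1
    have h2 := hL.width t
    omega
  · rw [Finset.not_nonempty_iff_eq_empty] at hne
    rw [hne]
    simp

theorem adj_idx {G : SimpleGraph V} {l r : V → ℕ} {U : Finset V} {k : ℕ}
    (hL : Lay G l r U k) {u v : V} (hu : u ∈ U) (hv : v ∈ U) (h : G.Adj u v)
    (hlt : idx l r U u < idx l r U v) : IsY l r U v ∧ idx l r U v = idx l r U u + 1 := by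
  have h1 : l v ≤ r u := hL.adj v hv u hu h.symm
  have h2 := idx_lt l r U u
  have h3 : tau l r U (idx l r U u + 1) ≤ tau l r U (idx l r U v) :=
    (tau_strictMono l r U).monotone hlt
  refine ⟨by unfold IsY; omega, ?_⟩
  by_contra hne
  have h4 : idx l r U u + 2 ≤ idx l r U v := by omega
  have h5 : r v < tau l r U (idx l r U u + 1 + 1) := lt_tau_succ hv (by omega)
  have h6 := le_idx l r U v
  have h7 : tau l r U (idx l r U u + 2) ≤ tau l r U (idx l r U v) :=
    (tau_strictMono l r U).monotone h4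
  have h8 : idx l r U u + 1 + 1 = idx l r U u + 2 := rfl
  rw [h8] at h5
  omega

end H65PW
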