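import Pool.Agent.H65.PWConv

/-!
# Bounded pathwidth (superseded by `TreewidthGirthSeven`)

For every `k` there is `N` such that every finite graph which has a path decomposition of width at
most `k` and no cycle of length 3, 4 or 6 (for instance: of girth at least 7) has a 2-colouring
in which every monochromatic connected set of vertices has at most `N` elements.
-/

namespace H65PWResult

open H65PW

universe u

theorem pathwidth_case (k : ℕ) : ∃ N : ℕ, ∀ (V : Type u) [Finite V] (G : SimpleGraph V),
    PathwidthLE G k →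
    -- no cycle of length 3, 4 or 6
    (∀ (v : V) (w : G.Walk v v), w.IsCycle → w.length ≠ 3 ∧ w.length ≠ 4 ∧ w.length ≠ 6) →
    ∃ c : V → Bool, ∀ S : Finset V, (G.induce (S : Set V)).Connected →
      (∀ u ∈ S, ∀ v ∈ S, c u = c v) → S.card ≤ N := by
  classical
  obtain ⟨N, hN⟩ := Q_all.{u} (k + 1) 0
  refine ⟨N, ?_⟩
  intro V _ G hP hC
  have := Fintype.ofFinite V
  obtain ⟨l, r, hL⟩ := layout_of hP
  obtain ⟨c, _, _, hc⟩ := hN V G (good_of hC) l r Finset.univ hL [] (by simp) (by simp)
    (fun _ => false)
  refine ⟨c, ?_⟩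
  intro S hconn hmono
  obtain ⟨a⟩ := hconn.nonempty
  refine le_trans (Finset.card_le_card ?_) (hc (a : V) (Finset.mem_univ _))
  intro v hv
  rw [Finset.mem_filter]
  exact ⟨Finset.mem_univ _, reach_of hmono a ⟨v, by simpa using hv⟩ (hconn.preconnected _ _)⟩

end H65PWResult
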