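import Pool.Agent.H65.PWIdx

/-!
Analysis of the combined colouring in the inductive step.
-/

namespace H65PW

open Relation Finset Classical

universe u

variable {V : Type u}

/-- Default colour of index `j`. -/
def col (j : ℕ) : Bool := decide (3 ≤ j % 6)

/-- `j` is a wall index for colour `a`. -/
def wall (a : Bool) (j : ℕ) : Prop := (a = true ∧ j % 6 = 1) ∨ (a = false ∧ j % 6 = 4)

theorem col_near_wall {a : Bool} {i j : ℕ} (h : wall a j) (h1 : i ≤ j + 1) (h2 : j ≤ i + 1) :
    col i = !a := by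
  unfold col
  rcases h with ⟨rfl, h⟩ | ⟨rfl, h⟩
  · simp only [Bool.not_true, decide_eq_false_iff_not, not_le]
    omega
  · simp only [Bool.not_false, decide_eq_true_eq]
    omega

theorem wall_near_wall {a b : Bool} {i j : ℕ} (h : wall a i) (h' : wall b j) (h1 : i ≤ j + 1)
    (h2 : j ≤ i + 1) : a = b := by
  rcases h with ⟨rfl, h⟩ | ⟨rfl, h⟩ <;> rcases h' with ⟨rfl, h'⟩ | ⟨rfl, h'⟩
  · rfl
  · omega
  · omega
  · rfl

theorem exists_wall (a : Bool) (i : ℕ) : ∃ j, i < j ∧ j ≤ i + 6 ∧ wall a j := by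
  have hb : i % 6 < 6 := Nat.mod_lt _ (by norm_num)
  cases a
  · by_cases h : i % 6 < 4
    · exact ⟨i + (4 - i % 6), by omega, by omega, Or.inr ⟨rfl, by omega⟩⟩
    · exact ⟨i + (10 - i % 6), by omega, by omega, Or.inr ⟨rfl, by omega⟩⟩
  · by_cases h : i % 6 < 1
    · exact ⟨i + 1, by omega, by omega, Or.inl ⟨rfl, by omega⟩⟩
    · exact ⟨i + (7 - i % 6), by omega, by omega, Or.inl ⟨rfl, by omega⟩⟩

variable (G : SimpleGraph V) (l r : V → ℕ) (U : Finset V) (L : List V) (c0 : V → Bool)

/-- Colour of a cut vertex. -/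
noncomputable def cY (y : V) : Bool :=
  match L.find? (fun x => decide (G.Adj y x)) with
  | some x => !c0 x
  | none => col (idx l r U y)

/-- External colouring for the segments. -/
noncomputable def c1 (v : V) : Bool :=
  if v ∈ U ∧ IsY l r U v then cY G l r U L c0 v else c0 v

/-- Cut vertices next to segment `j` lying on a wall for their own colour. -/
noncomputable def Wj (j : ℕ) : List V :=
  ((Yj l r U j ∪ Yj l r U (j + 1)).filter
    (fun n => wall (cY G l r U L c0 n) (idx l r U n))).toList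

/-- Priority list for segment `j`. -/
noncomputable def Lj (j : ℕ) : List V :=
  L ++ (Wj G l r U L c0 j ++ (Yj l r U j ∪ Yj l r U (j + 1)).toList)

/-- The properties of the combined colouring that are used. -/
structure Comb (c : V → Bool) (N : ℕ) : Prop where
  out : ∀ v, v ∉ U → c v = c0 v
  onY : ∀ v ∈ U, IsY l r U v → c v = cY G l r U L c0 v
  onZ : ∀ u ∈ U, ¬ IsY l r U u → ∀ x,
    (Lj G l r U L c0 (idx l r U u)).find? (fun y => decide (G.Adj u y)) = some x → c u = !c x
  clus : ∀ j, ∀ u ∈ Zj l r U j,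
    ((Zj l r U j).filter (fun v => ReflTransGen (Mono G c (Zj l r U j)) u v)).card ≤ N

variable {G l r U L c0}

theorem find_none_of {v : V} {M : List V} (h : ∀ x ∈ M, ¬ G.Adj v x) :
    M.find? (fun y => decide (G.Adj v y)) = none := by
  rw [List.find?_eq_none]
  intro x hx
  simpa using h x hx

theorem find_some_of {v : V} {M : List V} {x : V} (hx : x ∈ M) (h : G.Adj v x) :
    ∃ y ∈ M, G.Adj v y ∧ M.find? (fun y => decide (G.Adj v y)) = some y := by
  have h1 : (M.find? (fun y => decide (G.Adj v y))).isSome := by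
    rw [List.find?_isSome]
    exact ⟨x, hx, by simpa using h⟩
  obtain ⟨y, hy⟩ := Option.isSome_iff_exists.mp h1
  refine ⟨y, List.mem_of_find?_eq_some hy, ?_, hy⟩
  have := List.find?_some hy
  simpa using this

theorem find_spec {v : V} {M : List V} {x : V}
    (h : M.find? (fun y => decide (G.Adj v y)) = some x) : x ∈ M ∧ G.Adj v x := by
  refine ⟨List.mem_of_find?_eq_some h, ?_⟩
  have := List.find?_some h
  simpa using this

variable {k : ℕ} {c : V → Bool} {N : ℕ}

theorem wall1 (hc : Comb G l r U L c0 c N) {n : V} (hn : n ∈ U) (hY : IsY l r U n)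
    (hw : wall (c n) (idx l r U n)) : ∃ x ∈ L, G.Adj n x := by
  by_contra hcon
  push Not at hcon
  have h1 := hc.onY n hn hY
  rw [cY, find_none_of hcon] at h1
  simp only at h1
  have h2 := col_near_wall hw (i := idx l r U n) (by omega) (by omega)
  rw [← h1] at h2
  cases h : c n <;> simp [h] at h2

theorem wall2 (hL : Lay G l r U k) (hc : Comb G l r U L c0 c N) {n : V} (hn : n ∈ U)
    (hY : IsY l r U n) (hw : wall (c n) (idx l r U n)) {v : V} (hv : v ∈ U) (hadj : G.Adj v n)
    (hcol : c v = c n) : ∃ x ∈ L, G.Adj v x := by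
  by_contra hcon
  push Not at hcon
  by_cases hvY : IsY l r U v
  · have h1 := hc.onY v hv hvY
    rw [cY, find_none_of hcon] at h1
    simp only at h1
    have h2 : idx l r U v ≤ idx l r U n + 1 := by
      by_contra h
      have := adj_idx hL hn hv hadj.symm (by omega)
      omega
    have h3 : idx l r U n ≤ idx l r U v + 1 := by
      by_contra h
      have := adj_idx hL hv hn hadj (by omega)
      omega
    have h4 := col_near_wall hw h2 h3
    rw [← h1, hcol] at h4
    cases h : c n <;> simp [h] at h4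
  · -- `v` lies in a segment
    have hidx : idx l r U n = idx l r U v ∨ idx l r U n = idx l r U v + 1 := by
      rcases lt_trichotomy (idx l r U n) (idx l r U v) with h | h | h
      · exact absurd (adj_idx hL hn hv hadj.symm h).1 hvY
      · exact Or.inl h
      · exact Or.inr (adj_idx hL hv hn hadj h).2
    have hnW : n ∈ Wj G l r U L c0 (idx l r U v) := by
      rw [Wj, Finset.mem_toList, Finset.mem_filter]
      refine ⟨?_, ?_⟩
      · rw [Finset.mem_union, mem_Yj, mem_Yj]
        rcases hidx with h | h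
        · exact Or.inl ⟨hn, hY, h⟩
        · exact Or.inr ⟨hn, hY, h⟩
      · rw [← hc.onY n hn hY]
        exact hw
    obtain ⟨n', hn', hadj', hfind⟩ := find_some_of hnW hadj
    have hfind2 : (Lj G l r U L c0 (idx l r U v)).find? (fun y => decide (G.Adj v y))
        = some n' := by
      rw [Lj, List.find?_append, find_none_of hcon, List.find?_append, hfind]
      simp
    have h1 := hc.onZ v hv hvY n' hfind2
    rw [Wj, Finset.mem_toList, Finset.mem_filter, Finset.mem_union, mem_Yj, mem_Yj] at hn'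
    obtain ⟨hn'1, hn'2⟩ := hn'
    have hn'3 : n' ∈ U ∧ IsY l r U n' ∧ (idx l r U n' = idx l r U v ∨
        idx l r U n' = idx l r U v + 1) := by
      rcases hn'1 with ⟨a, b, c⟩ | ⟨a, b, c⟩
      · exact ⟨a, b, Or.inl c⟩
      · exact ⟨a, b, Or.inr c⟩
    rw [← hc.onY n' hn'3.1 hn'3.2.1] at hn'2
    have h2 : c n' = c n := wall_near_wall hn'2 hw (by omega) (by omega)
    rw [h2, hcol] at h1
    cases h : c n <;> simp [h] at h1

/-- Few vertices with an external neighbour have a neighbour with an external neighbour. -/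
noncomputable def WF (G : SimpleGraph V) (U : Finset V) (L : List V) : Finset V :=
  U.filter (fun n => ∃ x ∈ L, G.Adj x n ∧ ∃ g ∈ U, G.Adj n g ∧ ∃ x' ∈ L, G.Adj g x')

theorem card_WF (hG : Good G) (hLU : ∀ x ∈ L, x ∉ U) {m : ℕ} (hm : L.length ≤ m) :
    (WF G U L).card ≤ m * m := by
  have h1 : (WF G U L).card ≤ (L.toFinset ×ˢ L.toFinset).card := by
    refine Finset.card_le_card_of_forall_subsingleton
      (fun n p => n ∈ U ∧ ∃ g ∈ U, p.1 ∈ L ∧ p.2 ∈ L ∧ G.Adj p.1 n ∧ G.Adj n g ∧ G.Adj g p.2) ?_ ?_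
    · intro n hn
      rw [WF, Finset.mem_filter] at hn
      obtain ⟨hnU, x, hx, hxn, g, hg, hng, x', hx', hgx'⟩ := hn
      exact ⟨(x, x'), by simp [hx, hx'], hnU, g, hg, hx, hx', hxn, hng, hgx'⟩
    · rintro ⟨x, x'⟩ _
      rintro n ⟨_, hnU, g, hg, hx, hx', h1, h2, h3⟩ n' ⟨_, hnU', g', hg', _, _, h1', h2', h3'⟩
      simp only at hx hx' h1 h3 h1' h3'
      have hne : ∀ w ∈ L, ∀ z ∈ U, z ≠ w := fun w hw z hz h => hLU w hw (h ▸ hz)
      exact (hG.p3 x x' n g n' g' h1 h2 h3 h1' h2' h3' (hne _ hx' _ hnU) (hne _ hx' _ hnU')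
        (hne _ hx _ hg) (hne _ hx _ hg')).1
  have h2 : L.toFinset.card ≤ m := (List.toFinset_card_le L).trans hm
  rw [Finset.card_product] at h1
  exact h1.trans (Nat.mul_le_mul h2 h2)

theorem edge_wall (hL : Lay G l r U k) (hc : Comb G l r U L c0 c N) {p q : V} {j : ℕ}
    (hp : p ∈ U) (hq : q ∈ U) (hadj : G.Adj p q) (hcol : c p = c q)
    (h1 : idx l r U p < j) (h2 : j ≤ idx l r U q) (hw : wall (c q) j) :
    ∃ n ∈ WF G U L, idx l r U n = j := by
  obtain ⟨hY, hi⟩ := adj_idx hL hp hq hadj (lt_of_lt_of_le h1 h2)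
  have hj : idx l r U q = j := by omega
  rw [← hj] at hw
  obtain ⟨x, hx, hxq⟩ := wall1 hc hq hY hw
  obtain ⟨x', hx', hxp⟩ := wall2 hL hc hq hY hw hp hadj hcol
  refine ⟨q, ?_, hj⟩
  rw [WF, Finset.mem_filter]
  exact ⟨hq, x, hx, hxq.symm, p, hp, hadj.symm, x', hx', hxp⟩

theorem range_up (hG : Good G) (hL : Lay G l r U k) (hLU : ∀ x ∈ L, x ∉ U) {m : ℕ}
    (hm : L.length ≤ m) (hc : Comb G l r U L c0 c N) {u v : V} (hu : u ∈ U)
    (h : ReflTransGen (Mono G c U) u v) {q : ℕ} (hq : idx l r U u + 6 * q ≤ idx l r U v) :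
    q ≤ m * m := by
  refine le_trans ?_ (card_WF (G := G) (U := U) hG hLU hm)
  have h1 : (Finset.range q).card ≤ (WF G U L).card := by
    refine Finset.card_le_card_of_forall_subsingleton
      (fun s n => idx l r U u + 6 * s < idx l r U n ∧ idx l r U n ≤ idx l r U u + 6 * s + 6) ?_ ?_
    · intro s hs
      rw [Finset.mem_range] at hs
      obtain ⟨j, hj1, hj2, hj3⟩ := exists_wall (c u) (idx l r U u + 6 * s)
      obtain ⟨p, q', hup, hpq, hp, hq'⟩ := crossing (P := fun w => j ≤ idx l r U w) h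
        (by simp only [not_le]; omega) (by omega)
      have hcu : c u = c p := mono_color hup
      have hcq : c u = c q' := hcu.trans hpq.2.2.2
      rw [hcq] at hj3
      obtain ⟨n, hn, hnj⟩ := edge_wall hL hc hpq.1 hpq.2.1 hpq.2.2.1 hpq.2.2.2
        (not_le.mp hp) hq' hj3
      exact ⟨n, hn, by omega, by omega⟩
    · rintro n _ s ⟨_, hs1, hs2⟩ s' ⟨_, hs1', hs2'⟩
      omega
  simpa using h1

theorem range_down (hG : Good G) (hL : Lay G l r U k) (hLU : ∀ x ∈ L, x ∉ U) {m : ℕ}
    (hm : L.length ≤ m) (hc : Comb G l r U L c0 c N) {u v : V} (hu : u ∈ U)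
    (h : ReflTransGen (Mono G c U) u v) {q : ℕ} (hq : idx l r U v + 6 * q ≤ idx l r U u) :
    q ≤ m * m := by
  refine le_trans ?_ (card_WF (G := G) (U := U) hG hLU hm)
  have h1 : (Finset.range q).card ≤ (WF G U L).card := by
    refine Finset.card_le_card_of_forall_subsingleton
      (fun s n => idx l r U v + 6 * s < idx l r U n ∧ idx l r U n ≤ idx l r U v + 6 * s + 6) ?_ ?_
    · intro s hs
      rw [Finset.mem_range] at hs
      obtain ⟨j, hj1, hj2, hj3⟩ := exists_wall (c u) (idx l r U v + 6 * s)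
      obtain ⟨p, q', hup, hpq, hp, hq'⟩ := crossing (P := fun w => idx l r U w < j) h
        (by simp only [not_lt]; omega) (by omega)
      have hcu : c u = c p := mono_color hup
      rw [hcu] at hj3
      obtain ⟨n, hn, hnj⟩ := edge_wall hL hc hpq.2.1 hpq.1 hpq.2.2.1.symm hpq.2.2.2.symm
        hq' (not_lt.mp hp) hj3
      exact ⟨n, hn, by omega, by omega⟩
    · rintro n _ s ⟨_, hs1, hs2⟩ s' ⟨_, hs1', hs2'⟩
      omega
  simpa using h1

end H65PW
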