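import Mathlib

/-!
Finite two-player zero-sum games with public signals and stage durations:
definitions, following the problem file MP_3fd3f5_an.
-/

open Finset Filter Topology

namespace Pool.Agent.H65.TG

/-- A game with finite sets `A` (signals), `Ω` (states), `I`, `J` (actions): the map `f` from
states to signals, the payoff `g` to player 1 and row-stochastic matrices `P i j` on `Ω`. -/
structure Game (A Ω I J : Type) [Fintype Ω] where
  f : Ω → A
  g : I → J → Ω → ℝ
  P : I → J → Ω → Ω → ℝ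
  P_nonneg : ∀ i j ω ω', 0 ≤ P i j ω ω'
  P_sum : ∀ i j ω, ∑ ω', P i j ω ω' = 1

/-- A behaviour strategy of the player with action set `X`: to the list of the past
(signal, action of player 1, action of player 2), most recent stage first, and the current
signal, it assigns a probability vector on `X`. -/
structure Strat (A I J X : Type) [Fintype X] where
  act : List (A × I × J) → A → X → ℝ
  nonneg : ∀ l a x, 0 ≤ act l a x
  sum_one : ∀ l a, ∑ x, act l a x = 1

section general

variable {A Ω I J : Type} [Fintype Ω] [DecidableEq Ω] [Fintype I] [Fintype J]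

/-- The transition matrix `Id + h q` with `q = P - Id`, for a stage of duration `h`. -/
def kern (G : Game A Ω I J) (h : ℝ) (i : I) (j : J) (ω ω' : Ω) : ℝ :=
  (if ω = ω' then 1 else 0) + h * (G.P i j ω ω' - (if ω = ω' then 1 else 0))

/-- `stageExp G h σ τ k l ω` is the expectation of the stage payoff `k` stages after the current
one, when the public past is `l` (so that the current stage is number `l.length`, counted
from `0`, and has duration `h l.length`), and the current state is `ω`. -/
noncomputable def stageExp (G : Game A Ω I J) (h : ℕ → ℝ)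
    (σ : Strat A I J I) (τ : Strat A I J J) :
    ℕ → List (A × I × J) → Ω → ℝ
  | 0, l, ω => ∑ i, ∑ j, σ.act l (G.f ω) i * τ.act l (G.f ω) j * G.g i j ω
  | k + 1, l, ω => ∑ i, ∑ j, σ.act l (G.f ω) i * τ.act l (G.f ω) j *
      ∑ ω', kern G (h l.length) i j ω ω' * stageExp G h σ τ k ((G.f ω, i, j) :: l) ω'

/-- The expected total payoff `E ∑ w n * g n` for the stage durations `h`, the weights `w` and the
initial law `p`. -/
noncomputable def payoff (G : Game A Ω I J) (h w : ℕ → ℝ) (p : Ω → ℝ)
    (σ : Strat A I J I) (τ : Strat A I J J) : ℝ :=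
  ∑' n, w n * ∑ ω, p ω * stageExp G h σ τ n [] ω

/-- The lower value (`sup inf`). -/
noncomputable def lowerVal (G : Game A Ω I J) (h w : ℕ → ℝ) (p : Ω → ℝ) : ℝ :=
  ⨆ σ : Strat A I J I, ⨅ τ : Strat A I J J, payoff G h w p σ τ

/-- The upper value (`inf sup`). -/
noncomputable def upperVal (G : Game A Ω I J) (h w : ℕ → ℝ) (p : Ω → ℝ) : ℝ :=
  ⨅ τ : Strat A I J J, ⨆ σ : Strat A I J I, payoff G h w p σ τ

end general

/-- The weights of the `lam`-discounted game with stage durations `h`. -/
noncomputable def discW (lam : ℝ) (h : ℕ → ℝ) (n : ℕ) : ℝ :=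
  lam * (∏ j ∈ range n, (1 - lam * h j)) * h n

/-- The weights of the game with horizon `T` and stage durations `h`. -/
noncomputable def horW (T : ℝ) (h : ℕ → ℝ) (n : ℕ) : ℝ := h n / T

section limits

variable {A Ω I J : Type} [Fintype Ω] [DecidableEq Ω] [Fintype I] [Fintype J]

/-- `V_lam(p) = v`: the values of the `lam`-discounted games starting from `p` tend to `v` when the
supremum of the stage durations tends to `0`, over the partitions with infinite total
duration (both the lower and the upper value tend to `v`). -/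
def IsV (G : Game A Ω I J) (p : Ω → ℝ) (lam v : ℝ) : Prop :=
  ∀ ε > 0, ∃ δ > 0, ∀ h : ℕ → ℝ, (∀ n, 0 < h n ∧ h n ≤ δ) →
    Tendsto (fun n => ∑ i ∈ range n, h i) atTop atTop →
    |lowerVal G h (discW lam h) p - v| ≤ ε ∧ |upperVal G h (discW lam h) p - v| ≤ ε

/-- `W_T(p) = v`: the values of the games with horizon `T` starting from `p` tend to `v` when the
supremum of the stage durations tends to `0`, over the partitions with total duration `T`
(both the lower and the upper value tend to `v`). -/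
def IsW (G : Game A Ω I J) (p : Ω → ℝ) (T v : ℝ) : Prop :=
  ∀ ε > 0, ∃ δ > 0, ∀ h : ℕ → ℝ, (∀ n, 0 < h n ∧ h n ≤ δ) → HasSum h T →
    |lowerVal G h (horW T h) p - v| ≤ ε ∧ |upperVal G h (horW T h) p - v| ≤ ε

/-- The double limit `lim_{lam → 0} V_lam(p)` exists and equals `ℓ`. -/
def HasLimV (G : Game A Ω I J) (p : Ω → ℝ) (ℓ : ℝ) : Prop :=
  ∃ V : ℝ → ℝ, (∀ lam, 0 < lam → lam < 1 → IsV G p lam (V lam)) ∧
    Tendsto V (𝓝[>] 0) (𝓝 ℓ)

/-- The double limit `lim_{T → ∞} W_T(p)` exists and equals `ℓ`. -/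
def HasLimW (G : Game A Ω I J) (p : Ω → ℝ) (ℓ : ℝ) : Prop :=
  ∃ W : ℝ → ℝ, (∀ T, 0 < T → IsW G p T (W T)) ∧ Tendsto W atTop (𝓝 ℓ)

end limits

/-! ### General lemmas -/

section lemmas

variable {A Ω I J : Type} [Fintype Ω] [DecidableEq Ω] [Fintype I] [Fintype J]

lemma sum_kern (G : Game A Ω I J) (h : ℝ) (i : I) (j : J) (ω : Ω) (F : Ω → ℝ) :
    ∑ ω', kern G h i j ω ω' * F ω' = (1 - h) * F ω + h * ∑ ω', G.P i j ω ω' * F ω' := by
  have h1 : ∀ ω', kern G h i j ω ω' * F ω' =
      (1 - h) * ((if ω = ω' then 1 else 0) * F ω') + h * (G.P i j ω ω' * F ω') := by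
    intro ω'; unfold kern; ring
  simp only [h1, sum_add_distrib, ← mul_sum]
  simp

lemma abs_stageExp_le (G : Game A Ω I J) {B : ℝ} (hB : ∀ i j ω, |G.g i j ω| ≤ B)
    (h : ℕ → ℝ) (h0 : ∀ n, 0 ≤ h n) (h1 : ∀ n, h n ≤ 1)
    (σ : Strat A I J I) (τ : Strat A I J J) :
    ∀ (k : ℕ) (l : List (A × I × J)) (ω : Ω), |stageExp G h σ τ k l ω| ≤ B := by
  have key : ∀ (l : List (A × I × J)) (a : A) (X : I → J → ℝ), (∀ i j, |X i j| ≤ B) →
      |∑ i, ∑ j, σ.act l a i * τ.act l a j * X i j| ≤ B := by
    intro l a X hX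
    calc |∑ i, ∑ j, σ.act l a i * τ.act l a j * X i j|
        ≤ ∑ i, |∑ j, σ.act l a i * τ.act l a j * X i j| := abs_sum_le_sum_abs _ _
      _ ≤ ∑ i, ∑ j, |σ.act l a i * τ.act l a j * X i j| :=
          sum_le_sum fun i _ => abs_sum_le_sum_abs _ _
      _ ≤ ∑ i, ∑ j, σ.act l a i * τ.act l a j * B := by
          refine sum_le_sum fun i _ => sum_le_sum fun j _ => ?_
          rw [abs_mul, abs_of_nonneg (mul_nonneg (σ.nonneg _ _ _) (τ.nonneg _ _ _))]
          exact mul_le_mul_of_nonneg_left (hX i j)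
            (mul_nonneg (σ.nonneg _ _ _) (τ.nonneg _ _ _))
      _ = B := by
          simp only [← sum_mul, ← mul_sum, τ.sum_one, σ.sum_one, mul_one, one_mul]
  intro k
  induction k with
  | zero => intro l ω; exact key l _ _ fun i j => hB i j ω
  | succ k ih =>
    intro l ω
    unfold stageExp
    refine key l _ _ fun i j => ?_
    rw [sum_kern]
    have hh0 := h0 l.length
    have hh1 := h1 l.length
    have e1 : |∑ ω', G.P i j ω ω' * stageExp G h σ τ k ((G.f ω, i, j) :: l) ω'| ≤ B := by
      calc _ ≤ ∑ ω', |G.P i j ω ω' * stageExp G h σ τ k ((G.f ω, i, j) :: l) ω'| :=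
            abs_sum_le_sum_abs _ _
        _ ≤ ∑ ω', G.P i j ω ω' * B := by
            refine sum_le_sum fun ω' _ => ?_
            rw [abs_mul, abs_of_nonneg (G.P_nonneg _ _ _ _)]
            exact mul_le_mul_of_nonneg_left (ih _ _) (G.P_nonneg _ _ _ _)
        _ = B := by rw [← sum_mul, G.P_sum, one_mul]
    calc _ ≤ |(1 - h l.length) * stageExp G h σ τ k ((G.f ω, i, j) :: l) ω| +
          |h l.length * ∑ ω', G.P i j ω ω' * stageExp G h σ τ k ((G.f ω, i, j) :: l) ω'| :=
          abs_add_le _ _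
      _ ≤ (1 - h l.length) * B + h l.length * B := by
          rw [abs_mul, abs_mul, abs_of_nonneg hh0, abs_of_nonneg (by linarith : 0 ≤ 1 - h l.length)]
          exact add_le_add (mul_le_mul_of_nonneg_left (ih _ _) (by linarith))
            (mul_le_mul_of_nonneg_left e1 hh0)
      _ = B := by ring

/-- Partial sums of the weighted expected stage payoffs from the current stage on. -/
noncomputable def PS (G : Game A Ω I J) (h w : ℕ → ℝ) (σ : Strat A I J I) (τ : Strat A I J J)
    (N : ℕ) (l : List (A × I × J)) (ω : Ω) : ℝ :=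
  ∑ k ∈ range N, w (l.length + k) * stageExp G h σ τ k l ω

lemma PS_succ (G : Game A Ω I J) (h w : ℕ → ℝ) (σ : Strat A I J I) (τ : Strat A I J J)
    (N : ℕ) (l : List (A × I × J)) (ω : Ω) :
    PS G h w σ τ (N + 1) l ω = ∑ i, ∑ j, σ.act l (G.f ω) i * τ.act l (G.f ω) j *
      (w l.length * G.g i j ω + ((1 - h l.length) * PS G h w σ τ N ((G.f ω, i, j) :: l) ω +
        h l.length * ∑ ω', G.P i j ω ω' * PS G h w σ τ N ((G.f ω, i, j) :: l) ω')) := by
  have e : ∀ i j, (1 - h l.length) * PS G h w σ τ N ((G.f ω, i, j) :: l) ω +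
        h l.length * ∑ ω', G.P i j ω ω' * PS G h w σ τ N ((G.f ω, i, j) :: l) ω' =
      ∑ k ∈ range N, w (l.length + (k + 1)) *
        ∑ ω', kern G (h l.length) i j ω ω' * stageExp G h σ τ k ((G.f ω, i, j) :: l) ω' := by
    intro i j
    rw [← sum_kern]
    simp only [PS, mul_sum]
    rw [sum_comm]
    refine sum_congr rfl fun k _ => sum_congr rfl fun ω' _ => ?_
    have : (((G.f ω, i, j) :: l).length + k) = l.length + (k + 1) := by
      simp only [List.length_cons]; omega
    rw [this]; ring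
  simp only [e]
  have e2 : PS G h w σ τ (N + 1) l ω =
      w l.length * (∑ i, ∑ j, σ.act l (G.f ω) i * τ.act l (G.f ω) j * G.g i j ω) +
      ∑ k ∈ range N, w (l.length + (k + 1)) * (∑ i, ∑ j, σ.act l (G.f ω) i * τ.act l (G.f ω) j *
        ∑ ω', kern G (h l.length) i j ω ω' * stageExp G h σ τ k ((G.f ω, i, j) :: l) ω') := by
    unfold PS
    rw [sum_range_succ', add_comm]
    simp only [stageExp, add_zero]
  rw [e2]
  simp only [mul_add, sum_add_distrib]
  congr 1
  · rw [mul_sum]
    refine sum_congr rfl fun i _ => ?_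
    rw [mul_sum]
    refine sum_congr rfl fun j _ => ?_
    ring
  · simp only [mul_sum]
    rw [sum_comm]
    refine sum_congr rfl fun i _ => ?_
    rw [sum_comm]
    refine sum_congr rfl fun j _ => ?_
    refine sum_congr rfl fun k _ => ?_
    refine sum_congr rfl fun ω' _ => ?_
    ring



lemma tendsto_PS (G : Game A Ω I J) {B : ℝ} (hB : ∀ i j ω, |G.g i j ω| ≤ B)
    (h w : ℕ → ℝ) (h0 : ∀ n, 0 ≤ h n) (h1 : ∀ n, h n ≤ 1) (w0 : ∀ n, 0 ≤ w n) (hw : Summable w)
    (σ : Strat A I J I) (τ : Strat A I J J) (ω : Ω) :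
    Tendsto (fun N => PS G h w σ τ N [] ω) atTop (𝓝 (∑' n, w n * stageExp G h σ τ n [] ω)) := by
  have hs : Summable fun n => w n * stageExp G h σ τ n [] ω := by
    refine Summable.of_norm_bounded (g := fun n => w n * B) (hw.mul_right B) fun n => ?_
    rw [Real.norm_eq_abs, abs_mul, abs_of_nonneg (w0 n)]
    exact mul_le_mul_of_nonneg_left (abs_stageExp_le G hB h h0 h1 σ τ _ _ _) (w0 n)
  have := hs.hasSum.tendsto_sum_nat
  refine this.congr fun N => ?_
  unfold PS
  simp

end lemmas

end Pool.Agent.H65.TG
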