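import Pool.Agent.H65.TGHor2

/-!
Potentials for the discounted games.
-/

open Finset Filter Topology

namespace Pool.Agent.H65.TG

/-! ### Lower potentials, for `lam = 100 ^ (-(2 n + 1))` -/

noncomputable def loB (n j : ℕ) : ℝ :=
  9 / 1000 + 97 / 100 * (1 / 100) ^ n - 98 / 100 * (1 / 100) ^ (2 * n + 1) * (100 ^ j - 1)

noncomputable def lo (n : ℕ) : Z → ℝ
  | .A => 9 / 1000
  | .B j => max (loB n j) (9 / 1000)
  | .top => 1
  | .bot => -1
  | .gate => 85 / 10000

noncomputable def xlo (n : ℕ) : Z → Bool → ℝ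
  | .A, true => 95 / 10000 * (1 / 100) ^ n
  | .A, false => 1 - 95 / 10000 * (1 / 100) ^ n
  | .gate, true => 1
  | .gate, false => 0
  | _, true => 0
  | _, false => 1

lemma pow_facts {n : ℕ} (hn : 1 ≤ n) : (0:ℝ) < (1 / 100) ^ n ∧ ((1:ℝ) / 100) ^ n ≤ 1 / 100 := by
  refine ⟨by positivity, ?_⟩
  calc ((1:ℝ) / 100) ^ n ≤ (1 / 100) ^ 1 := pow_le_pow_of_le_one (by norm_num) (by norm_num) hn
    _ = 1 / 100 := by norm_num

lemma xlo_nonneg {n : ℕ} (hn : 1 ≤ n) (z : Z) (j : Bool) : 0 ≤ xlo n z j := by
  obtain ⟨h1, h2⟩ := pow_facts hn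
  cases z <;> cases j <;> simp only [xlo] <;> linarith

lemma xlo_sum (n : ℕ) (z : Z) : ∑ j, xlo n z j = 1 := by
  rw [Fintype.sum_bool]
  cases z <;> simp only [xlo] <;> ring

lemma lo_le_one {n : ℕ} (hn : 1 ≤ n) (z : Z) : lo n z ≤ 1 := by
  obtain ⟨h1, h2⟩ := pow_facts hn
  cases z with
  | B j =>
    simp only [lo]
    refine max_le ?_ (by norm_num)
    unfold loB
    have h3 : (1:ℝ) ≤ 100 ^ j := one_le_pow₀ (by norm_num)
    have h4 : 0 ≤ 98 / 100 * ((1:ℝ) / 100) ^ (2 * n + 1) * (100 ^ j - 1) := by
      apply mul_nonneg (by positivity); linarith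
    linarith
  | _ => simp only [lo]; norm_num

set_option maxHeartbeats 2000000 in
lemma disc_lo_stage {n : ℕ} (hn : 1 ≤ n) {h : ℝ} (h0 : 0 < h) (h1 : h ≤ 1) (z : Z) (j : Bool) :
    lo n z ≤ ∑ i, xlo n z i * ((1 / 100) ^ (2 * n + 1) * h * gz z +
      (1 - (1 / 100) ^ (2 * n + 1) * h) * ((1 - h) * lo n z + h * trans z i j (lo n))) := by
  obtain ⟨t0, t1⟩ := pow_facts hn
  set t : ℝ := (1 / 100) ^ n with ht
  have hlam : ((1:ℝ) / 100) ^ (2 * n + 1) = t ^ 2 / 100 := by rw [ht]; ring
  have hBeq : ∀ k, loB n k = 9 / 1000 + 97 / 100 * t - 98 / 100 * (t ^ 2 / 100) * (100 ^ k - 1) := by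
    intro k; unfold loB; rw [hlam]
  rw [hlam]
  set lam : ℝ := t ^ 2 / 100 with hl
  have l0 : 0 < lam := by positivity
  have l1 : lam ≤ 1 / 1000000 := by rw [hl]; nlinarith
  have lh0 : 0 < lam * h := by positivity
  have lh1 : lam * h ≤ lam := by nlinarith
  have hB0 : lo n (.B 0) = 9 / 1000 + 97 / 100 * t := by
    simp only [lo]
    rw [hBeq, pow_zero, sub_self, mul_zero, sub_zero]
    exact max_eq_left (by linarith)
  rw [Fintype.sum_bool]
  cases z with
  | A =>
    have hx : xlo n .A true = 95 / 10000 * t := rfl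
    have hx' : xlo n .A false = 1 - 95 / 10000 * t := rfl
    rw [hx, hx']
    cases j
    · have e1 : trans .A true false (lo n) = 1 / 100 * lo n (.B 0) + 99 / 100 * lo n .A := rfl
      have e2 : trans .A false false (lo n) = lo n .A := rfl
      have e3 : lo n .A = 9 / 1000 := rfl
      rw [e1, e2, hB0, e3]
      simp only [gz]
      have key : (0:ℝ) ≤ h * ((1 - lam * h) * (95 / 10000 * t * (1 / 100 * (97 / 100 * t))) -
          lam * (9 / 1000)) := by
        apply mul_nonneg h0.le
        have : 95 / 10000 * t * (1 / 100 * (97 / 100 * t)) = lam * (9215 / 1000000) := by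
          rw [hl]; ring
        rw [this]
        have h5 : 0 < lam * (9215 / 1000000) := by positivity
        nlinarith
      nlinarith
    · have e1 : trans .A true true (lo n) = -1 := rfl
      have e2 : trans .A false true (lo n) = 1 / 100 * lo n (.B 0) + 99 / 100 * lo n .A := rfl
      have e3 : lo n .A = 9 / 1000 := rfl
      rw [e1, e2, hB0, e3]
      simp only [gz]
      have key : (0:ℝ) ≤ h * ((1 - lam * h) * ((1 - 95 / 10000 * t) * (1 / 100 * (97 / 100 * t)) -
          95 / 10000 * t * (1009 / 1000)) - lam * (9 / 1000)) := by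
        apply mul_nonneg h0.le
        have h6 : t / 10000 ≤ (1 - 95 / 10000 * t) * (1 / 100 * (97 / 100 * t)) -
          95 / 10000 * t * (1009 / 1000) := by nlinarith
        have h7 : lam ≤ t / 10000 := by rw [hl]; nlinarith
        nlinarith
      nlinarith
  | B k =>
    have hx : xlo n (.B k) true = 0 := rfl
    have hx' : xlo n (.B k) false = 1 := rfl
    rw [hx, hx', zero_mul, zero_add, one_mul]
    have hk1 : (1:ℝ) ≤ 100 ^ k := one_le_pow₀ (by norm_num)
    have hBk : loB n k ≤ 9 / 1000 + 97 / 100 * t := by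
      rw [hBeq]
      have : 0 ≤ 98 / 100 * lam * ((100:ℝ) ^ k - 1) := mul_nonneg (by positivity) (by linarith)
      linarith
    have hφ : lo n (.B k) = max (loB n k) (9 / 1000) := rfl
    have hφ1 : lo n (.B k) ≤ 9 / 1000 + 97 / 100 * t := by
      rw [hφ]; exact max_le hBk (by linarith)
    have hφ0 : 9 / 1000 ≤ lo n (.B k) := by rw [hφ]; exact le_max_right _ _
    cases j
    · -- player 2 waits
      have e1 : trans (.B k) false false (lo n) =
        99 / 100 * lo n (.B 0) + 1 / 100 * lo n (.B (k + 1)) := rfl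
      rw [e1, hB0]
      have f1 : 9 / 1000 ≤ lo n (.B (k + 1)) := le_max_right _ _
      have f2 : loB n (k + 1) ≤ lo n (.B (k + 1)) := le_max_left _ _
      simp only [gz]
      rcases le_total (loB n k) (9 / 1000) with hc | hc
      · have e3 : lo n (.B k) = 9 / 1000 := by rw [hφ]; exact max_eq_right hc
        rw [e3]
        have g1 : 9 / 1000 ≤ (1 - h) * (9 / 1000) + h * (99 / 100 * (9 / 1000 + 97 / 100 * t) +
            1 / 100 * lo n (.B (k + 1))) := by
          have : 9 / 1000 ≤ 99 / 100 * (9 / 1000 + 97 / 100 * t) + 1 / 100 * lo n (.B (k + 1)) := by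
            linarith
          have := mul_le_mul_of_nonneg_left this h0.le
          linarith
        have g2 := mul_le_mul_of_nonneg_left g1 (by linarith : 0 ≤ 1 - lam * h)
        linarith
      · have e3 : lo n (.B k) = loB n k := by rw [hφ]; exact max_eq_left hc
        rw [e3]
        have g0 : loB n k - 98 / 100 * lam * (99 / 100) ≤
            99 / 100 * (9 / 1000 + 97 / 100 * t) + 1 / 100 * lo n (.B (k + 1)) := by
          rw [hBeq (k + 1)] at f2
          rw [hBeq k]
          have : (100:ℝ) ^ (k + 1) = 100 * 100 ^ k := by ring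
          rw [this] at f2
          linarith
        have g1 : loB n k - h * (98 / 100 * lam * (99 / 100)) ≤
            (1 - h) * loB n k + h * (99 / 100 * (9 / 1000 + 97 / 100 * t) +
            1 / 100 * lo n (.B (k + 1))) := by
          have := mul_le_mul_of_nonneg_left g0 h0.le
          linarith
        have g2 := mul_le_mul_of_nonneg_left g1 (by linarith : 0 ≤ 1 - lam * h)
        have g3 : 0 ≤ lam * h * (99 / 100 - loB n k - (1 - lam * h) * (98 / 100 * (99 / 100))) := by
          apply mul_nonneg lh0.le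
          nlinarith
        nlinarith
    · -- player 2 exits
      have e1 : trans (.B k) false true (lo n) =
        (1 / 100) ^ k * 1 + (1 - (1 / 100) ^ k) * (9 / 1000) := rfl
      rw [e1]
      have g0 : lo n (.B k) ≤ (1 / 100) ^ k * 1 + (1 - (1 / 100) ^ k) * (9 / 1000) := by
        have q0 : (0:ℝ) < (1 / 100) ^ k := by positivity
        rw [hφ]
        refine max_le ?_ (by linarith)
        rcases le_or_gt k n with hkn | hkn
        · have q1 : t ≤ (1 / 100) ^ k := by
            rw [ht]; exact pow_le_pow_of_le_one (by norm_num) (by norm_num) hkn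
          linarith
        · rw [hBeq]
          have q2 : (100:ℝ) ^ (n + 1) ≤ 100 ^ k := pow_le_pow_right₀ (by norm_num) hkn
          have q3 : lam * 100 ^ (n + 1) = t := by
            rw [hl, ht, one_div, inv_pow]; field_simp; ring
          have q4 : lam * 100 ^ (n + 1) ≤ lam * 100 ^ k := mul_le_mul_of_nonneg_left q2 l0.le
          have q5 : lam ≤ t / 10000 := by rw [hl]; nlinarith
          linarith
      simp only [gz]
      have g1 : lo n (.B k) ≤ (1 - h) * lo n (.B k) + h * ((1 / 100) ^ k * 1 +
          (1 - (1 / 100) ^ k) * (9 / 1000)) := by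
        have := mul_le_mul_of_nonneg_left g0 h0.le
        linarith
      have g2 := mul_le_mul_of_nonneg_left g1 (by linarith : 0 ≤ 1 - lam * h)
      have g3 : lam * h * lo n (.B k) ≤ lam * h * (99 / 100) :=
        mul_le_mul_of_nonneg_left (by linarith) lh0.le
      linarith
  | top =>
    have e : ∀ i, trans .top i j (lo n) = 1 := by intro i; cases i <;> cases j <;> rfl
    simp only [e, xlo, gz, lo]; linarith
  | bot =>
    have e : ∀ i, trans .bot i j (lo n) = -1 := by intro i; cases i <;> cases j <;> rfl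
    simp only [e, xlo, gz, lo]; linarith
  | gate =>
    have e : trans .gate true j (lo n) = 9 / 1000 := by cases j <;> rfl
    simp only [e, xlo, gz, lo]
    have : 0 ≤ h * ((1 - lam * h) * (5 / 10000) - lam * (5 / 10000)) := by
      apply mul_nonneg h0.le; linarith
    nlinarith

/-! ### Upper potentials, for `lam = 100 ^ (-2 n)` -/

noncomputable def upB (n j : ℕ) : ℝ :=
  4 / 10000 + (1 / 100) ^ (2 * n) * (1 - 100 ^ j) + (1 / 100) ^ (max j n) +
    (1 / 100) ^ (2 * n) * 100 ^ (max j n)

noncomputable def up (n : ℕ) : Z → ℝ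
  | .A => 4 / 10000
  | .B j => min 1 (upB n j)
  | .top => 1
  | .bot => -1
  | .gate => 8 / 1000

noncomputable def yup (n : ℕ) : Z → Bool → ℝ
  | .A, true => 1 / 100 * (2 * (1 / 100) ^ n)
  | .A, false => 1 - 1 / 100 * (2 * (1 / 100) ^ n)
  | .B k, true => if n ≤ k then 1 else 0
  | .B k, false => if n ≤ k then 0 else 1
  | _, true => 0
  | _, false => 1

lemma yup_nonneg {n : ℕ} (hn : 1 ≤ n) (z : Z) (j : Bool) : 0 ≤ yup n z j := by
  obtain ⟨h1, h2⟩ := pow_facts hn
  cases z with
  | A => cases j <;> simp only [yup] <;> linarith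
  | B k => cases j <;> simp only [yup] <;> split_ifs <;> norm_num
  | _ => cases j <;> simp only [yup] <;> norm_num

lemma yup_sum (n : ℕ) (z : Z) : ∑ j, yup n z j = 1 := by
  rw [Fintype.sum_bool]
  cases z with
  | A => simp only [yup]; ring
  | B k => simp only [yup]; split_ifs <;> norm_num
  | _ => simp only [yup]; norm_num

lemma upB_ge (n j : ℕ) : 4 / 10000 + (1 / 100) ^ (2 * n) ≤ upB n j := by
  unfold upB
  have h1 : (100:ℝ) ^ j ≤ 100 ^ (max j n) := pow_le_pow_right₀ (by norm_num) (le_max_left _ _)
  have h2 : (0:ℝ) < (1 / 100) ^ (2 * n) := by positivity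
  have h3 := mul_le_mul_of_nonneg_left h1 h2.le
  have h4 : (0:ℝ) < (1 / 100) ^ (max j n) := by positivity
  linarith

lemma up_le_one (n : ℕ) (z : Z) : up n z ≤ 1 := by
  cases z with
  | B j => exact min_le_left _ _
  | _ => simp only [up]; norm_num

lemma neg_up_le (n : ℕ) (z : Z) : -up n z ≤ 1 := by
  cases z with
  | B j =>
    have h1 := upB_ge n j
    have h2 : (0:ℝ) < (1 / 100) ^ (2 * n) := by positivity
    have : 0 ≤ min 1 (upB n j) := le_min (by norm_num) (by linarith)
    simp only [up]; linarith
  | _ => simp only [up]; norm_num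

set_option maxHeartbeats 2000000 in
lemma disc_up_stage {n : ℕ} (hn : 1 ≤ n) {h : ℝ} (h0 : 0 < h) (h1 : h ≤ 1) (z : Z) (i : Bool) :
    ∑ j, yup n z j * ((1 / 100) ^ (2 * n) * h * gz z +
      (1 - (1 / 100) ^ (2 * n) * h) * ((1 - h) * up n z + h * trans z i j (up n))) ≤ up n z := by
  obtain ⟨t0, t1⟩ := pow_facts hn
  have hge := upB_ge n
  set t : ℝ := (1 / 100) ^ n with ht
  have hlam : ((1:ℝ) / 100) ^ (2 * n) = t ^ 2 := by rw [ht]; ring
  have hupB : ∀ j, upB n j = 4 / 10000 + t ^ 2 * (1 - 100 ^ j) + (1 / 100) ^ (max j n) +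
      t ^ 2 * 100 ^ (max j n) := by intro j; unfold upB; rw [hlam]
  rw [hlam]
  simp only [hlam] at hge
  set lam : ℝ := t ^ 2 with hl
  have l0 : 0 < lam := by positivity
  have l1 : lam ≤ 1 / 10000 := by rw [hl]; nlinarith
  have lh0 : 0 < lam * h := by positivity
  have lh1 : lam * h ≤ lam := by nlinarith
  have hlt : lam * 100 ^ n = t := by
    rw [hl, ht, one_div, inv_pow]; field_simp
  rw [Fintype.sum_bool]
  cases z with
  | A =>
    have hx : yup n .A true = 1 / 100 * (2 * t) := rfl
    have hx' : yup n .A false = 1 - 1 / 100 * (2 * t) := rfl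
    have hB0 : up n (.B 0) ≤ 4 / 10000 + 2 * t := by
      refine (min_le_right _ _).trans ?_
      rw [hupB]
      simp only [pow_zero, sub_self, mul_zero, Nat.zero_max]
      rw [hlt, ← ht]; linarith
    rw [hx, hx']
    set b := up n (.B 0) with hb
    cases i
    · have e1 : trans .A false true (up n) = 1 / 100 * b + 99 / 100 * (4 / 10000) := rfl
      have e2 : trans .A false false (up n) = 4 / 10000 := rfl
      have e3 : up n .A = 4 / 10000 := rfl
      rw [e1, e2, e3]
      simp only [gz]
      have k1 : 1 / 100 * (2 * t) * (1 / 100 * (b - 4 / 10000)) ≤ lam * (4 / 10000) := by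
        have k2 : 1 / 100 * (2 * t) * (1 / 100 * (b - 4 / 10000)) ≤
            1 / 100 * (2 * t) * (1 / 100 * (2 * t)) :=
          mul_le_mul_of_nonneg_left (by linarith) (by positivity)
        have k3 : 1 / 100 * (2 * t) * (1 / 100 * (2 * t)) = lam * (4 / 10000) := by rw [hl]; ring
        linarith
      have k4 : (1 - lam * h) * (1 / 100 * (2 * t) * (1 / 100 * (b - 4 / 10000))) ≤
          lam * (4 / 10000) := by
        have k5 := mul_le_mul_of_nonneg_left k1 (by linarith : 0 ≤ 1 - lam * h)
        have k6 : 0 ≤ lam * h * (lam * (4 / 10000)) := by positivity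
        linarith
      have k7 := mul_le_mul_of_nonneg_left k4 h0.le
      linarith
    · have e1 : trans .A true true (up n) = -1 := rfl
      have e2 : trans .A true false (up n) = 1 / 100 * b + 99 / 100 * (4 / 10000) := rfl
      have e3 : up n .A = 4 / 10000 := rfl
      rw [e1, e2, e3]
      simp only [gz]
      have k1 : (1 - 1 / 100 * (2 * t)) * (1 / 100 * (b - 4 / 10000)) ≤ 1 / 100 * (2 * t) := by
        have k2 := mul_le_mul_of_nonneg_left (by linarith : 1 / 100 * (b - 4 / 10000) ≤
          1 / 100 * (2 * t)) (by linarith : 0 ≤ 1 - 1 / 100 * (2 * t))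
        have k3 : 0 ≤ 1 / 100 * (2 * t) * (1 / 100 * (2 * t)) := by positivity
        linarith
      have k4 : (1 - 1 / 100 * (2 * t)) * (1 / 100 * (b - 4 / 10000)) -
          1 / 100 * (2 * t) * (10004 / 10000) ≤ 0 := by linarith
      have k5 := mul_nonpos_of_nonneg_of_nonpos
        (mul_nonneg (by linarith : 0 ≤ 1 - lam * h) h0.le) k4
      have k6 : 0 ≤ lam * h * (4 / 10000) := by positivity
      linarith
  | B k =>
    have hup : up n (.B k) = min 1 (upB n k) := rfl
    have hφ0 : 0 ≤ up n (.B k) := by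
      rw [hup]; exact le_min (by norm_num) (by linarith [hge k])
    have hle : ∀ j, lam * h * gz (.B k) + (1 - lam * h) * ((1 - h) * up n (.B k) +
        h * trans (.B k) i j (up n)) ≤ 1 := by
      intro j
      have a1 := up_le_one n (.B k)
      have a2 := trans_le_const (.B k) i j (up n) 1 (up_le_one n)
      have a3 := mul_le_mul_of_nonneg_left a1 (by linarith : 0 ≤ 1 - h)
      have a4 := mul_le_mul_of_nonneg_left a2 h0.le
      have a5 := mul_le_mul_of_nonneg_left (by linarith : (1 - h) * up n (.B k) +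
        h * trans (.B k) i j (up n) ≤ 1) (by linarith : 0 ≤ 1 - lam * h)
      simp only [gz]
      linarith
    have hlek : up n (.B k) ≤ upB n k := min_le_right _ _
    by_cases hk : n ≤ k
    · have hy : yup n (.B k) true = 1 := by simp only [yup, if_pos hk]
      have hy' : yup n (.B k) false = 0 := by simp only [yup, if_pos hk]
      rw [hy, hy', one_mul, zero_mul, add_zero]
      have hmax : max k n = k := max_eq_left hk
      have e1 : upB n k = 4 / 10000 + lam + (1 / 100) ^ k := by
        rw [hupB, hmax]; ring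
      refine le_min (hle true) ?_
      have e2 : trans (.B k) i true (up n) =
          (1 / 100) ^ k * 1 + (1 - (1 / 100) ^ k) * (4 / 10000) := by
        cases i <;> rfl
      rw [e2]
      have e4 : (0:ℝ) < (1 / 100) ^ k := by positivity
      have e5 : (1 / 100) ^ k * 1 + (1 - (1 / 100) ^ k) * (4 / 10000) ≤ upB n k - lam := by
        rw [e1]; linarith
      have e6 := mul_le_mul_of_nonneg_left hlek (by linarith : 0 ≤ 1 - h)
      have e7 := mul_le_mul_of_nonneg_left e5 h0.le
      have e8 := mul_le_mul_of_nonneg_left (by linarith : (1 - h) * up n (.B k) +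
        h * ((1 / 100) ^ k * 1 + (1 - (1 / 100) ^ k) * (4 / 10000)) ≤ upB n k - h * lam)
        (by linarith : 0 ≤ 1 - lam * h)
      have e9 : 0 ≤ lam * h * (1 / 100 - lam * h + upB n k) := by
        apply mul_nonneg lh0.le; linarith [hge k]
      simp only [gz]
      linarith
    · have hy : yup n (.B k) true = 0 := by simp only [yup, if_neg hk]
      have hy' : yup n (.B k) false = 1 := by simp only [yup, if_neg hk]
      rw [hy, hy', one_mul, zero_mul, zero_add]
      refine le_min (hle false) ?_
      have e2 : trans (.B k) i false (up n) =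
          99 / 100 * up n (.B 0) + 1 / 100 * up n (.B (k + 1)) := by
        cases i <;> rfl
      rw [e2]
      have m1 : max k n = n := max_eq_right (by omega)
      have m2 : max 0 n = n := max_eq_right (by omega)
      have m3 : max (k + 1) n = n := max_eq_right (by omega)
      have f1 : up n (.B 0) ≤ upB n 0 := min_le_right _ _
      have f2 : up n (.B (k + 1)) ≤ upB n (k + 1) := min_le_right _ _
      rw [hupB, m2] at f1
      rw [hupB, m3] at f2
      have g1 : upB n k = 4 / 10000 + lam * (1 - 100 ^ k) + (1 / 100) ^ n + lam * 100 ^ n := by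
        rw [hupB, m1]
      have g3 : (100:ℝ) ^ (k + 1) = 100 * 100 ^ k := by ring
      have g4 : (100:ℝ) ^ 0 = 1 := pow_zero _
      rw [g3] at f2
      rw [g4] at f1
      have e5 : 99 / 100 * up n (.B 0) + 1 / 100 * up n (.B (k + 1)) ≤
          upB n k - 99 / 100 * lam := by
        rw [g1]; linarith
      have e6 := mul_le_mul_of_nonneg_left hlek (by linarith : 0 ≤ 1 - h)
      have e7 := mul_le_mul_of_nonneg_left e5 h0.le
      have e8 := mul_le_mul_of_nonneg_left (by linarith : (1 - h) * up n (.B k) +
        h * (99 / 100 * up n (.B 0) + 1 / 100 * up n (.B (k + 1))) ≤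
          upB n k - h * (99 / 100 * lam))
        (by linarith : 0 ≤ 1 - lam * h)
      have e9 : 0 ≤ lam * h * (upB n k - lam * h * (99 / 100)) := by
        apply mul_nonneg lh0.le; linarith [hge k]
      simp only [gz]
      linarith
  | top =>
    have e : ∀ j, trans .top i j (up n) = 1 := by intro j; cases i <;> cases j <;> rfl
    simp only [e, yup, gz, up]; linarith
  | bot =>
    have e : ∀ j, trans .bot i j (up n) = -1 := by intro j; cases i <;> cases j <;> rfl
    simp only [e, yup, gz, up]; linarith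
  | gate =>
    cases i
    · have e : trans .gate false false (up n) = 8 / 1000 := rfl
      simp only [e, yup, gz, up]; linarith
    · have e : trans .gate true false (up n) = 4 / 10000 := rfl
      simp only [e, yup, gz, up]
      have e9 : 0 ≤ (1 - lam * h) * (h * (8 / 1000 - 4 / 10000)) := by
        apply mul_nonneg (by linarith); positivity
      linarith

end Pool.Agent.H65.TG
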