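import Pool.Agent.H65.TGFin

/-!
Existence of the limit `V_lam` of the discounted values as the mesh tends to zero.
-/

open Finset Filter Topology

namespace Pool.Agent.H65.TG

/-- The minimax theorem for `2 × 2` matrices. -/
lemma minimax2 (M : Bool → Bool → ℝ) : ∃ (v p y : ℝ), 0 ≤ p ∧ p ≤ 1 ∧ 0 ≤ y ∧ y ≤ 1 ∧
    (∀ j, v ≤ p * M true j + (1 - p) * M false j) ∧
    (∀ i, y * M i true + (1 - y) * M i false ≤ v) := by
  obtain ⟨a, ha⟩ : ∃ a, a = M true true := ⟨_, rfl⟩
  obtain ⟨b, hb⟩ : ∃ b, b = M true false := ⟨_, rfl⟩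
  obtain ⟨c, hc⟩ : ∃ c, c = M false true := ⟨_, rfl⟩
  obtain ⟨d, hd⟩ : ∃ d, d = M false false := ⟨_, rfl⟩
  suffices hs : ∃ (v p y : ℝ), 0 ≤ p ∧ p ≤ 1 ∧ 0 ≤ y ∧ y ≤ 1 ∧
      v ≤ p * a + (1 - p) * c ∧ v ≤ p * b + (1 - p) * d ∧
      y * a + (1 - y) * b ≤ v ∧ y * c + (1 - y) * d ≤ v by
    obtain ⟨v, p, y, h1, h2, h3, h4, h5, h6, h7, h8⟩ := hs
    refine ⟨v, p, y, h1, h2, h3, h4, ?_, ?_⟩
    · intro j; cases j
      · rw [← hb, ← hd]; exact h6
      · rw [← ha, ← hc]; exact h5
    · intro i; cases i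
      · rw [← hc, ← hd]; exact h8
      · rw [← ha, ← hb]; exact h7
  by_cases s1 : a ≤ b ∧ c ≤ a
  · exact ⟨a, 1, 1, by norm_num, by norm_num, by norm_num, by norm_num, by linarith,
      by linarith [s1.1], by linarith, by linarith [s1.2]⟩
  by_cases s2 : b ≤ a ∧ d ≤ b
  · exact ⟨b, 1, 0, by norm_num, by norm_num, by norm_num, by norm_num, by linarith [s2.1],
      by linarith, by linarith, by linarith [s2.2]⟩
  by_cases s3 : c ≤ d ∧ a ≤ c
  · exact ⟨c, 0, 1, by norm_num, by norm_num, by norm_num, by norm_num, by linarith,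
      by linarith [s3.1], by linarith [s3.2], by linarith⟩
  by_cases s4 : d ≤ c ∧ b ≤ d
  · exact ⟨d, 0, 0, by norm_num, by norm_num, by norm_num, by norm_num, by linarith [s4.1],
      by linarith, by linarith [s4.2], by linarith⟩
  rcases le_or_gt a b with hab | hab
  · have h1 : a < c := by
      by_contra hcon; exact s1 ⟨hab, not_lt.1 hcon⟩
    have h2 : d < c := by
      by_contra hcon; exact s3 ⟨not_lt.1 hcon, h1.le⟩
    have h3 : d < b := by
      by_contra hcon; exact s4 ⟨h2.le, not_lt.1 hcon⟩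
    have h4 : a < b := by
      by_contra hcon; exact s2 ⟨not_lt.1 hcon, h3.le⟩
    have hS : 0 < b + c - a - d := by linarith
    refine ⟨(b * c - a * d) / (b + c - a - d), (c - d) / (b + c - a - d),
      (b - d) / (b + c - a - d), div_nonneg (by linarith) hS.le, ?_,
      div_nonneg (by linarith) hS.le, ?_, ?_, ?_, ?_, ?_⟩
    · rw [div_le_one hS]; linarith
    · rw [div_le_one hS]; linarith
    all_goals
      refine le_of_eq ?_
      field_simp
      ring
  · have h1 : b < d := by
      by_contra hcon; exact s2 ⟨hab.le, not_lt.1 hcon⟩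
    have h2 : c < d := by
      by_contra hcon; exact s4 ⟨not_lt.1 hcon, h1.le⟩
    have h3 : c < a := by
      by_contra hcon; exact s3 ⟨h2.le, not_lt.1 hcon⟩
    have hS : 0 < a + d - b - c := by linarith
    refine ⟨(a * d - b * c) / (a + d - b - c), (d - c) / (a + d - b - c),
      (d - b) / (a + d - b - c), div_nonneg (by linarith) hS.le, ?_,
      div_nonneg (by linarith) hS.le, ?_, ?_, ?_, ?_, ?_⟩
    · rw [div_le_one hS]; linarith
    · rw [div_le_one hS]; linarith
    all_goals
      refine le_of_eq ?_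
      field_simp
      ring

/-- The value of a `2 × 2` matrix game. -/
noncomputable def val2 (M : Bool → Bool → ℝ) : ℝ := (minimax2 M).choose

lemma val2_spec (M : Bool → Bool → ℝ) : ∃ (p y : ℝ), 0 ≤ p ∧ p ≤ 1 ∧ 0 ≤ y ∧ y ≤ 1 ∧
    (∀ j, val2 M ≤ p * M true j + (1 - p) * M false j) ∧
    (∀ i, y * M i true + (1 - y) * M i false ≤ val2 M) := (minimax2 M).choose_spec

lemma val2_le (M M' : Bool → Bool → ℝ) (ε : ℝ) (h : ∀ i j, M i j ≤ M' i j + ε) :
    val2 M ≤ val2 M' + ε := by
  obtain ⟨p, _, p0, p1, _, _, hp, _⟩ := val2_spec M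
  obtain ⟨_, y, _, _, y0, y1, _, hy⟩ := val2_spec M'
  have k1 := mul_le_mul_of_nonneg_left (hp true) y0
  have k2 := mul_le_mul_of_nonneg_left (hp false) (by linarith : 0 ≤ 1 - y)
  have k3 := mul_le_mul_of_nonneg_left (hy true) p0
  have k4 := mul_le_mul_of_nonneg_left (hy false) (by linarith : 0 ≤ 1 - p)
  have m1 := mul_le_mul_of_nonneg_left (h true true) (mul_nonneg p0 y0)
  have m2 := mul_le_mul_of_nonneg_left (h true false) (mul_nonneg p0 (by linarith : 0 ≤ 1 - y))
  have m3 := mul_le_mul_of_nonneg_left (h false true) (mul_nonneg (by linarith : 0 ≤ 1 - p) y0)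
  have m4 := mul_le_mul_of_nonneg_left (h false false)
    (mul_nonneg (by linarith : 0 ≤ 1 - p) (by linarith : 0 ≤ 1 - y))
  nlinarith

instance : TopologicalSpace Z := ⊥

instance : DiscreteTopology Z := ⟨rfl⟩

open BoundedContinuousFunction

lemma trans_lip (z : Z) (i j : Bool) (φ ψ : Z → ℝ) (ε : ℝ) (h : ∀ z, φ z ≤ ψ z + ε) :
    trans z i j φ ≤ trans z i j ψ + ε := by
  rw [← trans_add_const]
  exact trans_mono z i j _ _ fun z' _ => h z'

lemma abs_trans_le (z : Z) (i j : Bool) (φ : Z → ℝ) (C : ℝ) (h : ∀ z, |φ z| ≤ C) :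
    |trans z i j φ| ≤ C := by
  rw [abs_le]
  constructor
  · have h1 := trans_lip z i j (fun _ => 0) φ C (fun z => by linarith [(abs_le.1 (h z)).1])
    have h2 : trans z i j (fun _ => (0:ℝ)) = 0 := by
      cases z <;> cases i <;> cases j <;> simp [trans]
    linarith
  · exact trans_le_const z i j φ C fun z => (abs_le.1 (h z)).2

lemma abs_gz (z : Z) : |gz z| ≤ 1 := by
  cases z <;> simp only [gz] <;> norm_num [abs_le]

/-- The Shapley operator of the limit equation, before normalisation. -/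
noncomputable def Tfun (lam : ℝ) (φ : Z → ℝ) (z : Z) : ℝ :=
  val2 (fun i j => lam / (1 + lam) * gz z + 1 / (1 + lam) * trans z i j φ)

lemma abs_val2_le (M : Bool → Bool → ℝ) (C : ℝ) (h : ∀ i j, |M i j| ≤ C) : |val2 M| ≤ C := by
  obtain ⟨p, y, p0, p1, y0, y1, hp, hy⟩ := val2_spec M
  rw [abs_le]
  constructor
  · have k1 := hy true
    have k2 := mul_le_mul_of_nonneg_left (abs_le.1 (h true true)).1 y0
    have k3 := mul_le_mul_of_nonneg_left (abs_le.1 (h true false)).1 (by linarith : 0 ≤ 1 - y)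
    linarith
  · have k1 := hp true
    have k2 := mul_le_mul_of_nonneg_left (abs_le.1 (h true true)).2 p0
    have k3 := mul_le_mul_of_nonneg_left (abs_le.1 (h false true)).2 (by linarith : 0 ≤ 1 - p)
    linarith

lemma abs_Tfun_le {lam : ℝ} (l0 : 0 < lam) (φ : Z → ℝ) (C : ℝ) (h : ∀ z, |φ z| ≤ C) (z : Z) :
    |Tfun lam φ z| ≤ lam / (1 + lam) + 1 / (1 + lam) * C := by
  refine abs_val2_le _ _ fun i j => ?_
  have h1 := abs_trans_le z i j φ C h
  have h2 := abs_gz z
  have h3 : 0 ≤ lam / (1 + lam) := by positivity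
  have h4 : 0 ≤ 1 / (1 + lam) := by positivity
  calc _ ≤ |lam / (1 + lam) * gz z| + |1 / (1 + lam) * trans z i j φ| := abs_add_le _ _
    _ ≤ _ := by
      rw [abs_mul, abs_mul, abs_of_nonneg h3, abs_of_nonneg h4]
      have := mul_le_mul_of_nonneg_left h1 h4
      have := mul_le_mul_of_nonneg_left h2 h3
      linarith

lemma Tfun_lip {lam : ℝ} (l0 : 0 < lam) (φ ψ : Z → ℝ) (ε : ℝ) (h : ∀ z, φ z ≤ ψ z + ε) (z : Z) :
    Tfun lam φ z ≤ Tfun lam ψ z + 1 / (1 + lam) * ε := by
  refine val2_le _ _ _ fun i j => ?_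
  have h1 := trans_lip z i j φ ψ ε h
  have h4 : 0 ≤ 1 / (1 + lam) := by positivity
  have := mul_le_mul_of_nonneg_left h1 h4
  linarith

/-- The operator on bounded functions. -/
noncomputable def Top {lam : ℝ} (l0 : 0 < lam) (φ : Z →ᵇ ℝ) : Z →ᵇ ℝ :=
  BoundedContinuousFunction.ofNormedAddCommGroupDiscrete (Tfun lam φ)
    (lam / (1 + lam) + 1 / (1 + lam) * ‖φ‖)
    (fun z => by
      rw [Real.norm_eq_abs]
      exact abs_Tfun_le l0 φ ‖φ‖ (fun z => by
        rw [← Real.norm_eq_abs]; exact φ.norm_coe_le_norm z) z)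

lemma Top_apply {lam : ℝ} (l0 : 0 < lam) (φ : Z →ᵇ ℝ) (z : Z) : Top l0 φ z = Tfun lam φ z := rfl

lemma exists_fixed {lam : ℝ} (l0 : 0 < lam) : ∃ (φ : Z → ℝ) (C : ℝ), 0 ≤ C ∧ (∀ z, |φ z| ≤ C) ∧
    ∀ z, φ z = Tfun lam φ z := by
  have hk1 : 1 / (1 + lam) < 1 := by rw [div_lt_one (by linarith)]; linarith
  have hk0 : 0 ≤ 1 / (1 + lam) := by positivity
  obtain ⟨K, hK⟩ : ∃ K : NNReal, (K : ℝ) = 1 / (1 + lam) := ⟨⟨_, hk0⟩, rfl⟩
  have hc : ContractingWith K (Top l0) := by
    refine ⟨by rw [← NNReal.coe_lt_coe, hK, NNReal.coe_one]; exact hk1, ?_⟩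
    refine LipschitzWith.of_dist_le_mul fun φ ψ => ?_
    rw [hK, BoundedContinuousFunction.dist_le (mul_nonneg hk0 dist_nonneg)]
    intro z
    rw [Top_apply, Top_apply, Real.dist_eq, abs_le]
    have hd : ∀ z, |φ z - ψ z| ≤ dist φ ψ := fun z => by
      rw [← Real.dist_eq]; exact BoundedContinuousFunction.dist_coe_le_dist z
    have e1 := Tfun_lip l0 φ ψ (dist φ ψ) (fun z => by linarith [(abs_le.1 (hd z)).2]) z
    have e2 := Tfun_lip l0 ψ φ (dist φ ψ) (fun z => by linarith [(abs_le.1 (hd z)).1]) z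
    constructor <;> linarith
  obtain ⟨φ, hφ, -, -⟩ := hc.exists_fixedPoint 0 (edist_ne_top _ _)
  refine ⟨φ, ‖φ‖, norm_nonneg _, fun z => ?_, fun z => ?_⟩
  · rw [← Real.norm_eq_abs]; exact φ.norm_coe_le_norm z
  · have : Top l0 φ z = φ z := by rw [hφ]
    rw [← this, Top_apply]

/-! ### From the fixed point to the limit of the values -/

section

variable {h : ℕ → ℝ} {lam : ℝ} (l0 : 0 < lam) (l1 : lam < 1)
  (hT : Tendsto (fun n => ∑ i ∈ range n, h i) atTop atTop)
  (h0 : ∀ n, 0 < h n) (h1 : ∀ n, h n ≤ 1)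

include l0 l1 hT h0 h1

/-- Upper bound for the discounted values from a stationary potential, second version. -/
lemma disc_upper' (φ : Z → ℝ) (y : Z → Bool → ℝ) (hy0 : ∀ z j, 0 ≤ y z j)
    (hy1 : ∀ z, ∑ j, y z j = 1) (C : ℝ) (hφ : ∀ z, -φ z ≤ C)
    (H : ∀ n, ∀ z i, ∑ j, y z j * (lam * h n * gz z +
      (1 - lam * h n) * ((1 - h n) * φ z + h n * trans z i j φ)) ≤ φ z) :
    lowerVal game h (discW lam h) law ≤ φ .gate ∧ upperVal game h (discW lam h) law ≤ φ .gate := by
  let τ : Str :=
    { act := fun l a j => y (trk l a) j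
      nonneg := fun l a j => hy0 _ _
      sum_one := fun l a => hy1 _ }
  refine val_le (fun n => (h0 n).le) h1 (discW_nonneg l0 l1 h0 h1) (discW_summable l0 l1 h0 h1)
    τ _ fun σ => ?_
  have := upper_total (fun n => (h0 n).le) h1 (discW_nonneg l0 l1 h0 h1)
    (discW_summable l0 l1 h0 h1) (fun _ => y) τ (fun _ _ _ => rfl)
    (fun n z => Pr lam h n * φ z) (fun n => Pr lam h n * C)
    (fun n z => by
      have := mul_le_mul_of_nonneg_left (hφ z) (Pr_pos l0 l1 h0 h1 n).le
      linarith) (by simpa using (Pr_tendsto l0 l1 hT h0 h1).mul_const C)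
    (fun n z i => by
      simp only [trans_smul]
      have h6 := mul_le_mul_of_nonneg_left (H n z i) (Pr_pos l0 l1 h0 h1 n).le
      refine le_trans (le_of_eq ?_) h6
      rw [mul_sum]
      refine sum_congr rfl fun j _ => ?_
      rw [Pr_succ]
      unfold discW Pr; ring) σ
  simpa [Pr] using this

/-- Lower bound for the discounted values from a stationary potential, second version. -/
lemma disc_lower' (φ : Z → ℝ) (x : Z → Bool → ℝ) (hx0 : ∀ z j, 0 ≤ x z j)
    (hx1 : ∀ z, ∑ j, x z j = 1) (C : ℝ) (hφ : ∀ z, φ z ≤ C)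
    (H : ∀ n, ∀ z j, φ z ≤ ∑ i, x z i * (lam * h n * gz z +
      (1 - lam * h n) * ((1 - h n) * φ z + h n * trans z i j φ))) :
    φ .gate ≤ lowerVal game h (discW lam h) law ∧ φ .gate ≤ upperVal game h (discW lam h) law := by
  let σ : Str :=
    { act := fun l a j => x (trk l a) j
      nonneg := fun l a j => hx0 _ _
      sum_one := fun l a => hx1 _ }
  refine val_ge (fun n => (h0 n).le) h1 (discW_nonneg l0 l1 h0 h1) (discW_summable l0 l1 h0 h1)
    σ _ fun τ => ?_
  have := lower_total (fun n => (h0 n).le) h1 (discW_nonneg l0 l1 h0 h1)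
    (discW_summable l0 l1 h0 h1) (fun _ => x) σ (fun _ _ _ => rfl)
    (fun n z => Pr lam h n * φ z) (fun n => Pr lam h n * C)
    (fun n z => by
      have := mul_le_mul_of_nonneg_left (hφ z) (Pr_pos l0 l1 h0 h1 n).le
      linarith) (by simpa using (Pr_tendsto l0 l1 hT h0 h1).mul_const C)
    (fun n z j => by
      simp only [trans_smul]
      have h6 := mul_le_mul_of_nonneg_left (H n z j) (Pr_pos l0 l1 h0 h1 n).le
      refine le_trans h6 (le_of_eq ?_)
      rw [mul_sum]
      refine sum_congr rfl fun i _ => ?_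
      rw [Pr_succ]
      unfold discW Pr; ring) τ
  simpa [Pr] using this

end

/-- `V_lam` exists for every discount rate. -/
lemma exists_isV {lam : ℝ} (l0 : 0 < lam) (l1 : lam < 1) : ∃ v, IsV game law lam v := by
  obtain ⟨φ, C, hC0, hC, hfix⟩ := exists_fixed l0
  choose p y p0 p1 y0 y1 hp hy using fun z =>
    val2_spec (fun i j => lam / (1 + lam) * gz z + 1 / (1 + lam) * trans z i j φ)
  refine ⟨φ .gate, fun ε hε => ?_⟩
  have hCp : 0 < 2 * C + 1 := by linarith
  refine ⟨min 1 (ε / (2 * C + 1)), lt_min one_pos (by positivity), fun h hh hT => ?_⟩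
  have h0 : ∀ n, 0 < h n := fun n => (hh n).1
  have h1 : ∀ n, h n ≤ 1 := fun n => (hh n).2.trans (min_le_left _ _)
  have h2 : ∀ n, h n * (2 * C) ≤ ε := by
    intro n
    have h3 : h n ≤ ε / (2 * C + 1) := (hh n).2.trans (min_le_right _ _)
    rw [le_div_iff₀ hCp] at h3
    have := h0 n
    linarith
  have hl : (0:ℝ) < 1 + lam := by linarith
  have hP : ∀ z j, (1 + lam) * φ z ≤ lam * gz z +
      (p z * trans z true j φ + (1 - p z) * trans z false j φ) := by
    intro z j
    have h3 := hp z j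
    have h4 := hfix z
    unfold Tfun at h4
    rw [← h4] at h3
    have h5 := mul_le_mul_of_nonneg_left h3 hl.le
    refine h5.trans (le_of_eq ?_)
    field_simp
    ring
  have hY : ∀ z i, lam * gz z +
      (y z * trans z i true φ + (1 - y z) * trans z i false φ) ≤ (1 + lam) * φ z := by
    intro z i
    have h3 := hy z i
    have h4 := hfix z
    unfold Tfun at h4
    rw [← h4] at h3
    have h5 := mul_le_mul_of_nonneg_left h3 hl.le
    refine le_trans (le_of_eq ?_) h5
    field_simp
    ring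
  have hlow := disc_lower' l0 l1 hT h0 h1 (fun z => φ z + (-ε))
    (fun z i => if i then p z else 1 - p z)
    (fun z i => by
      cases i
      · simpa using p1 z
      · simpa using p0 z)
    (fun z => by rw [Fintype.sum_bool]; simp) C
    (fun z => by linarith [(abs_le.1 (hC z)).2])
    (fun n z j => by
      rw [Fintype.sum_bool]
      simp only [if_true, trans_add_const]
      simp only [Bool.false_eq_true, if_false]
      have k1 := hP z j
      set t := p z * trans z true j φ + (1 - p z) * trans z false j φ with ht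
      have k2 : |t| ≤ C := by
        have a1 := abs_le.1 (abs_trans_le z true j φ C hC)
        have a2 := abs_le.1 (abs_trans_le z false j φ C hC)
        rw [abs_le, ht]
        have q0 := p0 z
        have q1 := p1 z
        constructor <;> nlinarith
      have k3 := abs_le.1 (hC z)
      have k4 := abs_le.1 k2
      have k5 := h0 n
      have k6 := h2 n
      have k7 : p z * (lam * h n * gz z + (1 - lam * h n) * ((1 - h n) * (φ z + -ε) +
          h n * (trans z true j φ + -ε))) + (1 - p z) * (lam * h n * gz z +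
          (1 - lam * h n) * ((1 - h n) * (φ z + -ε) + h n * (trans z false j φ + -ε))) =
          φ z - ε + h n * (lam * gz z + t - (1 + lam) * φ z) +
            lam * h n * (ε - h n * (t - φ z)) := by
        rw [ht]; ring
      rw [k7]
      have k8 : 0 ≤ h n * (lam * gz z + t - (1 + lam) * φ z) :=
        mul_nonneg k5.le (by linarith)
      have k9 : 0 ≤ lam * h n * (ε - h n * (t - φ z)) := by
        apply mul_nonneg (by positivity)
        have : h n * (t - φ z) ≤ h n * (2 * C) := mul_le_mul_of_nonneg_left (by linarith) k5.le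
        linarith
      linarith)
  have hupp := disc_upper' l0 l1 hT h0 h1 (fun z => φ z + ε)
    (fun z j => if j then y z else 1 - y z)
    (fun z j => by
      cases j
      · simpa using y1 z
      · simpa using y0 z)
    (fun z => by rw [Fintype.sum_bool]; simp) C
    (fun z => by linarith [(abs_le.1 (hC z)).1])
    (fun n z i => by
      rw [Fintype.sum_bool]
      simp only [if_true, trans_add_const]
      simp only [Bool.false_eq_true, if_false]
      have k1 := hY z i
      set t := y z * trans z i true φ + (1 - y z) * trans z i false φ with ht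
      have k2 : |t| ≤ C := by
        have a1 := abs_le.1 (abs_trans_le z i true φ C hC)
        have a2 := abs_le.1 (abs_trans_le z i false φ C hC)
        rw [abs_le, ht]
        have q0 := y0 z
        have q1 := y1 z
        constructor <;> nlinarith
      have k3 := abs_le.1 (hC z)
      have k4 := abs_le.1 k2
      have k5 := h0 n
      have k6 := h2 n
      have k7 : y z * (lam * h n * gz z + (1 - lam * h n) * ((1 - h n) * (φ z + ε) +
          h n * (trans z i true φ + ε))) + (1 - y z) * (lam * h n * gz z +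
          (1 - lam * h n) * ((1 - h n) * (φ z + ε) + h n * (trans z i false φ + ε))) =
          φ z + ε + h n * (lam * gz z + t - (1 + lam) * φ z) -
            lam * h n * (ε + h n * (t - φ z)) := by
        rw [ht]; ring
      rw [k7]
      have k8 : h n * (lam * gz z + t - (1 + lam) * φ z) ≤ 0 :=
        mul_nonpos_of_nonneg_of_nonpos k5.le (by linarith)
      have k9 : 0 ≤ lam * h n * (ε + h n * (t - φ z)) := by
        apply mul_nonneg (by positivity)
        have : h n * (φ z - t) ≤ h n * (2 * C) := mul_le_mul_of_nonneg_left (by linarith) k5.le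
        linarith
      linarith)
  obtain ⟨a1, a2⟩ := hlow
  obtain ⟨b1, b2⟩ := hupp
  rw [abs_le, abs_le]
  refine ⟨⟨by linarith, by linarith⟩, ⟨by linarith, by linarith⟩⟩

end Pool.Agent.H65.TG
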