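import Pool.Agent.H65.TGVal

/-!
The discounted values along two sequences of discount rates, and the main facts.
-/

open Finset Filter Topology

namespace Pool.Agent.H65.TG

/-! ### Discounted games -/

section disc

variable {h : ℕ → ℝ} {lam : ℝ} (l0 : 0 < lam) (l1 : lam < 1)
  (hT : Tendsto (fun n => ∑ i ∈ range n, h i) atTop atTop)
  (h0 : ∀ n, 0 < h n) (h1 : ∀ n, h n ≤ 1)

noncomputable def Pr (lam : ℝ) (h : ℕ → ℝ) (n : ℕ) : ℝ := ∏ j ∈ range n, (1 - lam * h j)

lemma Pr_succ (n : ℕ) : Pr lam h (n + 1) = Pr lam h n * (1 - lam * h n) := by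
  unfold Pr; rw [prod_range_succ]

include l0 l1 h0 h1

lemma one_sub_pos (n : ℕ) : 0 < 1 - lam * h n := by
  have := h0 n
  have := h1 n
  nlinarith

lemma Pr_pos (n : ℕ) : 0 < Pr lam h n := by
  unfold Pr; exact prod_pos fun j _ => one_sub_pos l0 l1 h0 h1 j

lemma discW_nonneg (n : ℕ) : 0 ≤ discW lam h n := by
  unfold discW
  have := Pr_pos l0 l1 h0 h1 n
  unfold Pr at this
  have := h0 n
  positivity

lemma sum_discW (n : ℕ) : ∑ i ∈ range n, discW lam h i = 1 - Pr lam h n := by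
  induction n with
  | zero => simp [Pr]
  | succ n ih =>
    rw [sum_range_succ, ih, Pr_succ]
    unfold discW Pr; ring

lemma discW_summable : Summable (discW lam h) := by
  refine summable_of_sum_range_le (c := 1) (discW_nonneg l0 l1 h0 h1) fun n => ?_
  rw [sum_discW l0 l1 h0 h1]
  linarith [Pr_pos l0 l1 h0 h1 n]

include hT

lemma Pr_tendsto : Tendsto (Pr lam h) atTop (𝓝 0) := by
  have hle : ∀ n, Pr lam h n ≤ Real.exp (-(lam * ∑ i ∈ range n, h i)) := by
    intro n
    unfold Pr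
    rw [mul_sum, ← sum_neg_distrib, Real.exp_sum]
    refine prod_le_prod (fun j _ => (one_sub_pos l0 l1 h0 h1 j).le) fun j _ => ?_
    have := Real.add_one_le_exp (-(lam * h j))
    linarith
  have h5 : Tendsto (fun n => Real.exp (-(lam * ∑ i ∈ range n, h i))) atTop (𝓝 0) := by
    refine Real.tendsto_exp_atBot.comp ?_
    exact tendsto_neg_atTop_atBot.comp (hT.const_mul_atTop l0)
  exact tendsto_of_tendsto_of_tendsto_of_le_of_le tendsto_const_nhds h5
    (fun n => (Pr_pos l0 l1 h0 h1 n).le) hle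

/-- Upper bound for the discounted values from a stationary potential. -/
lemma disc_upper (φ : Z → ℝ) (y : Z → Bool → ℝ) (hy0 : ∀ z j, 0 ≤ y z j)
    (hy1 : ∀ z, ∑ j, y z j = 1) (hφ : ∀ z, -φ z ≤ 1)
    (H : ∀ k, 0 < k → k ≤ 1 → ∀ z i, ∑ j, y z j * (lam * k * gz z +
      (1 - lam * k) * ((1 - k) * φ z + k * trans z i j φ)) ≤ φ z) :
    lowerVal game h (discW lam h) law ≤ φ .gate ∧ upperVal game h (discW lam h) law ≤ φ .gate := by
  let τ : Str :=
    { act := fun l a j => y (trk l a) j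
      nonneg := fun l a j => hy0 _ _
      sum_one := fun l a => hy1 _ }
  refine val_le (fun n => (h0 n).le) h1 (discW_nonneg l0 l1 h0 h1) (discW_summable l0 l1 h0 h1)
    τ _ fun σ => ?_
  have := upper_total (fun n => (h0 n).le) h1 (discW_nonneg l0 l1 h0 h1)
    (discW_summable l0 l1 h0 h1) (fun _ => y) τ (fun _ _ _ => rfl)
    (fun n z => Pr lam h n * φ z) (Pr lam h)
    (fun n z => by
      have := mul_le_mul_of_nonneg_left (hφ z) (Pr_pos l0 l1 h0 h1 n).le
      linarith) (Pr_tendsto l0 l1 hT h0 h1)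
    (fun n z i => by
      simp only [trans_smul]
      have h6 := mul_le_mul_of_nonneg_left (H (h n) (h0 n) (h1 n) z i)
        (Pr_pos l0 l1 h0 h1 n).le
      refine le_trans (le_of_eq ?_) h6
      rw [mul_sum]
      refine sum_congr rfl fun j _ => ?_
      rw [Pr_succ]
      unfold discW Pr; ring) σ
  simpa [Pr] using this

/-- Lower bound for the discounted values from a stationary potential. -/
lemma disc_lower (φ : Z → ℝ) (x : Z → Bool → ℝ) (hx0 : ∀ z j, 0 ≤ x z j)
    (hx1 : ∀ z, ∑ j, x z j = 1) (hφ : ∀ z, φ z ≤ 1)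
    (H : ∀ k, 0 < k → k ≤ 1 → ∀ z j, φ z ≤ ∑ i, x z i * (lam * k * gz z +
      (1 - lam * k) * ((1 - k) * φ z + k * trans z i j φ))) :
    φ .gate ≤ lowerVal game h (discW lam h) law ∧ φ .gate ≤ upperVal game h (discW lam h) law := by
  let σ : Str :=
    { act := fun l a j => x (trk l a) j
      nonneg := fun l a j => hx0 _ _
      sum_one := fun l a => hx1 _ }
  refine val_ge (fun n => (h0 n).le) h1 (discW_nonneg l0 l1 h0 h1) (discW_summable l0 l1 h0 h1)
    σ _ fun τ => ?_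
  have := lower_total (fun n => (h0 n).le) h1 (discW_nonneg l0 l1 h0 h1)
    (discW_summable l0 l1 h0 h1) (fun _ => x) σ (fun _ _ _ => rfl)
    (fun n z => Pr lam h n * φ z) (Pr lam h)
    (fun n z => by
      have := mul_le_mul_of_nonneg_left (hφ z) (Pr_pos l0 l1 h0 h1 n).le
      linarith) (Pr_tendsto l0 l1 hT h0 h1)
    (fun n z j => by
      simp only [trans_smul]
      have h6 := mul_le_mul_of_nonneg_left (H (h n) (h0 n) (h1 n) z j)
        (Pr_pos l0 l1 h0 h1 n).le
      refine le_trans h6 (le_of_eq ?_)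
      rw [mul_sum]
      refine sum_congr rfl fun i _ => ?_
      rw [Pr_succ]
      unfold discW Pr; ring) τ
  simpa [Pr] using this

/-- Player 1 can wait at the gate. -/
lemma disc_wait : 8 / 1000 ≤ lowerVal game h (discW lam h) law ∧
    8 / 1000 ≤ upperVal game h (discW lam h) law := by
  refine disc_lower l0 l1 hT h0 h1 (fun z => match z with | .gate => 8 / 1000 | _ => -1)
    (fun _ i => if i then 0 else 1) (fun _ j => by cases j <;> norm_num)
    (fun _ => by rw [Fintype.sum_bool]; norm_num) (fun z => by cases z <;> norm_num) ?_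
  intro k k0 k1 z j
  rw [Fintype.sum_bool]
  have h5 : 0 < lam * k := by positivity
  cases z with
  | gate => simp only [gz, trans]; norm_num; linarith
  | _ => cases j <;> simp only [gz, trans] <;> norm_num <;> nlinarith

end disc

lemma disc_even {n : ℕ} (hn : 1 ≤ n) {h : ℕ → ℝ}
    (hT : Tendsto (fun n => ∑ i ∈ range n, h i) atTop atTop)
    (h0 : ∀ n, 0 < h n) (h1 : ∀ n, h n ≤ 1) :
    lowerVal game h (discW ((1 / 100) ^ (2 * n)) h) law = 8 / 1000 ∧
    upperVal game h (discW ((1 / 100) ^ (2 * n)) h) law = 8 / 1000 := by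
  have l0 : (0:ℝ) < (1 / 100) ^ (2 * n) := by positivity
  have l1 : ((1:ℝ) / 100) ^ (2 * n) < 1 := pow_lt_one₀ (by norm_num) (by norm_num) (by omega)
  obtain ⟨a1, a2⟩ := disc_wait l0 l1 hT h0 h1
  obtain ⟨b1, b2⟩ := disc_upper l0 l1 hT h0 h1 (up n) (yup n) (yup_nonneg hn) (yup_sum n)
    (neg_up_le n) (fun k k0 k1 z i => disc_up_stage hn k0 k1 z i)
  simp only [up] at b1 b2
  exact ⟨le_antisymm b1 a1, le_antisymm b2 a2⟩

lemma disc_odd {n : ℕ} (hn : 1 ≤ n) {h : ℕ → ℝ}
    (hT : Tendsto (fun n => ∑ i ∈ range n, h i) atTop atTop)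
    (h0 : ∀ n, 0 < h n) (h1 : ∀ n, h n ≤ 1) :
    85 / 10000 ≤ lowerVal game h (discW ((1 / 100) ^ (2 * n + 1)) h) law ∧
    85 / 10000 ≤ upperVal game h (discW ((1 / 100) ^ (2 * n + 1)) h) law := by
  have l0 : (0:ℝ) < (1 / 100) ^ (2 * n + 1) := by positivity
  have l1 : ((1:ℝ) / 100) ^ (2 * n + 1) < 1 :=
    pow_lt_one₀ (by norm_num) (by norm_num) (by omega)
  exact disc_lower l0 l1 hT h0 h1 (lo n) (xlo n) (xlo_nonneg hn) (xlo_sum n)
    (lo_le_one hn) (fun k k0 k1 z i => disc_lo_stage hn k0 k1 z i)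

/-! ### Limits -/

lemma exists_pow_small {l : ℝ} (hl : 0 < l) : ∃ n : ℕ, 1 ≤ n ∧ ((1:ℝ) / 100) ^ (2 * n) < l ∧
    ((1:ℝ) / 100) ^ (2 * n + 1) < l := by
  obtain ⟨n, hn⟩ := exists_pow_lt_of_lt_one hl (by norm_num : (1:ℝ) / 100 < 1)
  refine ⟨n + 1, by omega, ?_, ?_⟩
  · exact (pow_le_pow_of_le_one (by norm_num) (by norm_num) (by omega)).trans_lt hn
  · exact (pow_le_pow_of_le_one (by norm_num) (by norm_num) (by omega)).trans_lt hn

lemma const_tendsto {δ : ℝ} (hδ : 0 < δ) :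
    Tendsto (fun n : ℕ => ∑ _i ∈ range n, δ) atTop atTop := by
  simp only [sum_const, card_range, nsmul_eq_mul]
  exact tendsto_natCast_atTop_atTop.atTop_mul_const hδ

lemma isW_gate {T : ℝ} : IsW game law T (8 / 1000) := by
  intro ε hε
  refine ⟨1, one_pos, fun h hh hT => ?_⟩
  obtain ⟨a, b⟩ := hor_value hT (fun n => (hh n).1) (fun n => (hh n).2)
  rw [a, b, sub_self, abs_zero]
  exact ⟨hε.le, hε.le⟩

lemma isV_even {n : ℕ} (hn : 1 ≤ n) : IsV game law ((1 / 100) ^ (2 * n)) (8 / 1000) := by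
  intro ε hε
  refine ⟨1, one_pos, fun h hh hT => ?_⟩
  obtain ⟨a, b⟩ := disc_even hn hT (fun n => (hh n).1) (fun n => (hh n).2)
  rw [a, b, sub_self, abs_zero]
  exact ⟨hε.le, hε.le⟩

lemma not_hasLimV : ¬ ∃ ℓ, HasLimV game law ℓ := by
  rintro ⟨ℓ, V, hV, hlim⟩
  have hodd : ∀ n : ℕ, 1 ≤ n → 85 / 10000 ≤ V ((1 / 100) ^ (2 * n + 1)) := by
    intro n hn
    refine le_of_forall_pos_le_add fun ε hε => ?_
    obtain ⟨δ, hδ, H⟩ := hV ((1 / 100) ^ (2 * n + 1)) (by positivity)
      (pow_lt_one₀ (by norm_num) (by norm_num) (by omega)) ε hε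
    have hm : 0 < min δ 1 := lt_min hδ one_pos
    have h5 := H (fun _ => min δ 1) (fun _ => ⟨hm, min_le_left _ _⟩) (const_tendsto hm)
    have h6 := disc_odd hn (h := fun _ => min δ 1) (const_tendsto hm) (fun _ => hm)
      (fun _ => min_le_right _ _)
    have h7 := abs_le.1 h5.1
    linarith [h6.1]
  have heven : ∀ n : ℕ, 1 ≤ n → V ((1 / 100) ^ (2 * n)) ≤ 8 / 1000 := by
    intro n hn
    refine le_of_forall_pos_le_add fun ε hε => ?_
    obtain ⟨δ, hδ, H⟩ := hV ((1 / 100) ^ (2 * n)) (by positivity)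
      (pow_lt_one₀ (by norm_num) (by norm_num) (by omega)) ε hε
    have hm : 0 < min δ 1 := lt_min hδ one_pos
    have h5 := H (fun _ => min δ 1) (fun _ => ⟨hm, min_le_left _ _⟩) (const_tendsto hm)
    have h6 := disc_even hn (h := fun _ => min δ 1) (const_tendsto hm) (fun _ => hm)
      (fun _ => min_le_right _ _)
    have h7 := abs_le.1 h5.1
    linarith [h6.1]
  have hp : Tendsto (fun n : ℕ => ((1:ℝ) / 100) ^ n) atTop (𝓝[>] 0) := by
    rw [tendsto_nhdsWithin_iff]
    refine ⟨tendsto_pow_atTop_nhds_zero_of_lt_one (by norm_num) (by norm_num), ?_⟩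
    filter_upwards with n
    exact Set.mem_Ioi.2 (by positivity)
  have h2n : Tendsto (fun n : ℕ => 2 * n) atTop atTop :=
    tendsto_atTop_mono (fun n => by simp only [id]; omega) tendsto_id
  have h2n1 : Tendsto (fun n : ℕ => 2 * n + 1) atTop atTop :=
    tendsto_atTop_mono (fun n => by simp only [id]; omega) tendsto_id
  have e1 : Tendsto (fun n : ℕ => V ((1 / 100) ^ (2 * n))) atTop (𝓝 ℓ) := hlim.comp (hp.comp h2n)
  have e2 : Tendsto (fun n : ℕ => V ((1 / 100) ^ (2 * n + 1))) atTop (𝓝 ℓ) :=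
    hlim.comp (hp.comp h2n1)
  have f1 : ℓ ≤ 8 / 1000 := by
    refine le_of_tendsto e1 ?_
    filter_upwards [eventually_ge_atTop 1] with n hn
    exact heven n hn
  have f2 : 85 / 10000 ≤ ℓ := by
    refine ge_of_tendsto e2 ?_
    filter_upwards [eventually_ge_atTop 1] with n hn
    exact hodd n hn
  norm_num at f1 f2
  linarith

lemma hasLimW : HasLimW game law (8 / 1000) :=
  ⟨fun _ => 8 / 1000, fun _ _ => isW_gate, tendsto_const_nhds⟩

end Pool.Agent.H65.TG
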