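import Pool.Agent.H65.TGDefs

/-!
The game: states `A`, `R`, `S b g`, `top`, `bot`, `gate`; verification lemmas.
-/

open Finset Filter Topology

namespace Pool.Agent.H65.TG

/-- The states. In `S b g` the second component is hidden (`true` is good, `false` is bad). -/
inductive St
  | A | R | S (b g : Bool) | top | bot | gate
  deriving DecidableEq, Fintype

/-- The signals. -/
inductive Sg
  | A | R | S (b : Bool) | top | bot | gate
  deriving DecidableEq, Fintype

/-- The signal of a state: everything is revealed except the component `g` of `S b g`. -/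
def sg : St → Sg
  | .A => .A
  | .R => .R
  | .S b _ => .S b
  | .top => .top
  | .bot => .bot
  | .gate => .gate

/-- The payoff, which depends on the state only. -/
noncomputable def py : St → ℝ
  | .A => 0
  | .R => 99 / 100
  | .S _ _ => 99 / 100
  | .top => 1
  | .bot => -1
  | .gate => 8 / 1000

/-- The point mass. -/
noncomputable def pt (x y : St) : ℝ := if y = x then 1 else 0

/-- The transition matrices; the first argument is the action of player 1, the second one is the
action of player 2. -/
noncomputable def tr : Bool → Bool → St → St → ℝ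
  | true, true, .A => pt .bot
  | false, false, .A => pt .A
  | true, false, .A => fun y => 1 / 100 * pt .R y + 99 / 100 * pt .A y
  | false, true, .A => fun y => 1 / 100 * pt .R y + 99 / 100 * pt .A y
  | _, true, .R => pt .top
  | _, false, .R => fun y => 99 / 100 * pt .R y +
      1 / 100 * (1 / 100 * pt (.S true false) y + 99 / 100 * pt (.S true true) y)
  | _, true, .S _ false => pt .top
  | _, true, .S _ true => pt .A
  | _, false, .S b false => fun y => 99 / 100 * pt .R y +
      1 / 100 * (1 / 100 * pt (.S (!b) false) y + 99 / 100 * pt (.S (!b) true) y)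
  | _, false, .S b true => fun y => 99 / 100 * pt .R y + 1 / 100 * pt (.S (!b) true) y
  | _, _, .top => pt .top
  | _, _, .bot => pt .bot
  | true, _, .gate => pt .A
  | false, _, .gate => pt .gate

lemma pt_nonneg (x y : St) : 0 ≤ pt x y := by unfold pt; split_ifs <;> norm_num

lemma sum_pt_mul (x : St) (F : St → ℝ) : ∑ y, pt x y * F y = F x := by
  unfold pt; simp

lemma sum_pt (x : St) : ∑ y, pt x y = 1 := by
  unfold pt; simp

/-- The game. -/
noncomputable def game : Game Sg St Bool Bool where
  f := sg
  g := fun _ _ ω => py ω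
  P := tr
  P_nonneg := by
    intro i j ω ω'
    have h := fun x => pt_nonneg x ω'
    cases i <;> cases j <;> cases ω with
    | S b g => cases g <;> simp only [tr] <;>
        nlinarith [h .R, h (.S (!b) false), h (.S (!b) true), h .top, h .A]
    | _ => simp only [tr] <;>
        nlinarith [h .R, h (.S true false), h (.S true true), h .top, h .A, h .bot, h .gate]
  P_sum := by
    intro i j ω
    cases i <;> cases j <;> cases ω with
    | S b g => cases g <;> simp only [tr, sum_add_distrib, ← mul_sum, sum_pt] <;> norm_num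
    | _ => simp only [tr, sum_add_distrib, ← mul_sum, sum_pt] <;> norm_num

/-- Public states: `B j` means `j` successes in a row since the last restart. -/
inductive Z
  | A | B (j : ℕ) | top | bot | gate

/-- The label after `j + 1` successes. -/
def par : ℕ → Bool
  | 0 => true
  | n + 1 => !par n

/-- The signal of a public state. -/
def zs : Z → Sg
  | .A => .A
  | .B 0 => .R
  | .B (j + 1) => .S (par j)
  | .top => .top
  | .bot => .bot
  | .gate => .gate

/-- Update of the public state. -/
def upd : Z → Sg → Z
  | _, .A => .A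
  | _, .R => .B 0
  | _, .top => .top
  | _, .bot => .bot
  | _, .gate => .gate
  | .B (j + 1), .S b => if b = par j then .B (j + 1) else .B (j + 2)
  | _, .S _ => .B 1

/-- The public state after a history. -/
def trk : List (Sg × Bool × Bool) → Sg → Z
  | [], a => upd .gate a
  | (a0, _, _) :: l, a => upd (trk l a0) a

/-- Expectation of `F` under the belief at the public state `z`. -/
noncomputable def bel : Z → (St → ℝ) → ℝ
  | .A, F => F .A
  | .B 0, F => F .R
  | .B (j + 1), F => (1 / 100) ^ (j + 1) * F (.S (par j) false) +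
      (1 - (1 / 100) ^ (j + 1)) * F (.S (par j) true)
  | .top, F => F .top
  | .bot, F => F .bot
  | .gate, F => F .gate

/-- Payoff at a public state. -/
noncomputable def gz : Z → ℝ
  | .A => 0
  | .B _ => 99 / 100
  | .top => 1
  | .bot => -1
  | .gate => 8 / 1000

/-- Transitions of the public state. -/
noncomputable def trans : Z → Bool → Bool → (Z → ℝ) → ℝ
  | .A, true, true, φ => φ .bot
  | .A, false, false, φ => φ .A
  | .A, true, false, φ => 1 / 100 * φ (.B 0) + 99 / 100 * φ .A
  | .A, false, true, φ => 1 / 100 * φ (.B 0) + 99 / 100 * φ .A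
  | .B j, _, true, φ => (1 / 100) ^ j * φ .top + (1 - (1 / 100) ^ j) * φ .A
  | .B j, _, false, φ => 99 / 100 * φ (.B 0) + 1 / 100 * φ (.B (j + 1))
  | .top, _, _, φ => φ .top
  | .bot, _, _, φ => φ .bot
  | .gate, true, _, φ => φ .A
  | .gate, false, _, φ => φ .gate

lemma bel_trans (z : Z) (i j : Bool) (F : St → ℝ) :
    bel z (fun ω => ∑ ω', game.P i j ω ω' * F ω') = trans z i j (fun z' => bel z' F) := by
  have e : ∀ (a b : ℝ) (f g : St → ℝ), ∑ y, (a * f y + b * g y) * F y =
      a * ∑ y, f y * F y + b * ∑ y, g y * F y := by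
    intro a b f g
    rw [mul_sum, mul_sum, ← sum_add_distrib]
    exact sum_congr rfl fun y _ => by ring
  show bel z (fun ω => ∑ ω', tr i j ω ω' * F ω') = trans z i j (fun z' => bel z' F)
  cases z with
  | A => cases i <;> cases j <;> simp only [bel, trans, tr, e, sum_pt_mul]
  | B n =>
    cases n with
    | zero =>
      cases i <;> cases j <;>
        simp only [bel, trans, tr, e, sum_pt_mul, par, pow_zero, zero_add, pow_one] <;> ring
    | succ n =>
      cases i <;> cases j <;> simp only [bel, trans, tr, e, sum_pt_mul, par, pow_succ] <;> ring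
  | top => cases i <;> cases j <;> simp only [bel, trans, tr, sum_pt_mul]
  | bot => cases i <;> cases j <;> simp only [bel, trans, tr, sum_pt_mul]
  | gate => cases i <;> cases j <;> simp only [bel, trans, tr, sum_pt_mul]

lemma trans_mono (z : Z) (i j : Bool) (φ ψ : Z → ℝ)
    (h : ∀ z', upd z (zs z') = z' → φ z' ≤ ψ z') : trans z i j φ ≤ trans z i j ψ := by
  have hpow : ∀ j : ℕ, (0:ℝ) ≤ (1 / 100) ^ j ∧ ((1:ℝ) / 100) ^ j ≤ 1 := fun j =>
    ⟨by positivity, pow_le_one₀ (by norm_num) (by norm_num)⟩
  have hA := h .A rfl
  have hR := h (.B 0) rfl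
  have ht := h .top rfl
  have hb := h .bot rfl
  have hg := h .gate rfl
  cases z with
  | A => cases i <;> cases j <;> simp only [trans] <;> linarith
  | B n =>
    have h1 : φ (.B (n + 1)) ≤ ψ (.B (n + 1)) := by
      apply h
      cases n with
      | zero => rfl
      | succ n => simp [zs, upd, par]
    obtain ⟨p0, p1⟩ := hpow n
    cases i <;> cases j <;> simp only [trans] <;> nlinarith
  | top => cases i <;> cases j <;> simp only [trans] <;> linarith
  | bot => cases i <;> cases j <;> simp only [trans] <;> linarith
  | gate => cases i <;> cases j <;> simp only [trans] <;> linarith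

lemma trans_add_const (z : Z) (i j : Bool) (φ : Z → ℝ) (c : ℝ) :
    trans z i j (fun z' => φ z' + c) = trans z i j φ + c := by
  cases z <;> cases i <;> cases j <;> simp only [trans] <;> ring

lemma upd_self (z : Z) : upd z (zs z) = z := by
  cases z with
  | B n => cases n <;> simp [zs, upd]
  | _ => rfl

lemma game_f (ω : St) : game.f ω = sg ω := rfl

lemma game_g (i j : Bool) (ω : St) : game.g i j ω = py ω := rfl

lemma aux_sum (s : ℝ) (y X : Bool → ℝ) (C : ℝ) (hs : ∑ j, y j = 1) :
    ∑ j, s * y j * (X j + C) = s * (∑ j, y j * X j + C) := by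
  simp only [Fintype.sum_bool] at *
  have : y false = 1 - y true := by linarith
  rw [this]; ring

lemma bel_PS_succ (h w : ℕ → ℝ) (σ : Strat Sg Bool Bool Bool) (τ : Strat Sg Bool Bool Bool)
    (N : ℕ) (l : List (Sg × Bool × Bool)) (z : Z) :
    bel z (PS game h w σ τ (N + 1) l) = ∑ i, ∑ j, σ.act l (zs z) i * τ.act l (zs z) j *
      (w l.length * gz z + ((1 - h l.length) * bel z (PS game h w σ τ N ((zs z, i, j) :: l)) +
        h l.length * trans z i j (fun z' => bel z' (PS game h w σ τ N ((zs z, i, j) :: l))))) := by
  simp only [← bel_trans]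
  have e : ∀ ω, PS game h w σ τ (N + 1) l ω = _ := fun ω => PS_succ game h w σ τ N l ω
  cases z with
  | B n =>
    cases n with
    | zero => simp only [bel, e, zs, gz, game_f, game_g, sg, py]
    | succ n =>
      simp only [bel, e, zs, gz, game_f, game_g, sg, py, Fintype.sum_bool]
      ring
  | _ => simp only [bel, e, zs, gz, game_f, game_g, sg, py]

/-- Upper verification. -/
lemma upper_verif (h w : ℕ → ℝ) (h0 : ∀ n, 0 ≤ h n) (h1 : ∀ n, h n ≤ 1)
    (σ : Strat Sg Bool Bool Bool) (τ : Strat Sg Bool Bool Bool)
    (y : ℕ → Z → Bool → ℝ) (hτ : ∀ l a j, τ.act l a j = y l.length (trk l a) j)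
    (Φ : ℕ → Z → ℝ) (R : ℕ → ℝ) (hR : ∀ n z, -Φ n z ≤ R n)
    (H : ∀ n z i, ∑ j, y n z j * (w n * gz z + ((1 - h n) * Φ (n + 1) z +
      h n * trans z i j (Φ (n + 1)))) ≤ Φ n z) :
    ∀ (N : ℕ) (l : List (Sg × Bool × Bool)) (z : Z), trk l (zs z) = z →
      bel z (PS game h w σ τ N l) ≤ Φ l.length z + R (l.length + N) := by
  intro N
  induction N with
  | zero =>
    intro l z _
    have e0 : bel z (PS game h w σ τ 0 l) = 0 := by
      have : ∀ ω, PS game h w σ τ 0 l ω = 0 := fun ω => by simp [PS]
      cases z with
      | B n => cases n <;> simp [bel, this]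
      | _ => simp [bel, this]
    rw [e0, add_zero]
    linarith [hR l.length z]
  | succ N ih =>
    intro l z hz
    rw [bel_PS_succ]
    set n := l.length with hn
    have hh0 := h0 n
    have hh1 := h1 n
    set C := R (n + (N + 1)) with hC
    have key : ∀ i j, w n * gz z + ((1 - h n) * bel z (PS game h w σ τ N ((zs z, i, j) :: l)) +
        h n * trans z i j (fun z' => bel z' (PS game h w σ τ N ((zs z, i, j) :: l)))) ≤
        (w n * gz z + ((1 - h n) * Φ (n + 1) z + h n * trans z i j (Φ (n + 1)))) + C := by
      intro i j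
      have ihh : ∀ z', upd z (zs z') = z' → bel z' (PS game h w σ τ N ((zs z, i, j) :: l)) ≤
          Φ (n + 1) z' + C := by
        intro z' hz'
        have := ih ((zs z, i, j) :: l) z' (by simp only [trk]; rw [hz]; exact hz')
        simp only [List.length_cons, ← hn] at this
        have e : n + 1 + N = n + (N + 1) := by ring
        rw [e] at this
        exact this
      have a1 := ihh z (upd_self z)
      have a2 := trans_mono z i j _ _ ihh
      rw [trans_add_const] at a2
      nlinarith
    calc _ ≤ ∑ i, ∑ j, σ.act l (zs z) i * τ.act l (zs z) j *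
          ((w n * gz z + ((1 - h n) * Φ (n + 1) z + h n * trans z i j (Φ (n + 1)))) + C) := by
          refine sum_le_sum fun i _ => sum_le_sum fun j _ => ?_
          exact mul_le_mul_of_nonneg_left (key i j) (mul_nonneg (σ.nonneg _ _ _) (τ.nonneg _ _ _))
      _ = ∑ i, σ.act l (zs z) i * (∑ j, y n z j * (w n * gz z + ((1 - h n) * Φ (n + 1) z +
            h n * trans z i j (Φ (n + 1)))) + C) := by
          refine sum_congr rfl fun i _ => ?_
          have hs : ∑ j, τ.act l (zs z) j = 1 := τ.sum_one _ _
          simp only [hτ, hz, ← hn] at hs ⊢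
          exact aux_sum _ _ _ _ hs
      _ ≤ ∑ i, σ.act l (zs z) i * (Φ n z + C) := by
          refine sum_le_sum fun i _ => ?_
          exact mul_le_mul_of_nonneg_left (by linarith [H n z i]) (σ.nonneg _ _ _)
      _ = Φ n z + C := by rw [← sum_mul, σ.sum_one, one_mul]

/-- Lower verification. -/
lemma lower_verif (h w : ℕ → ℝ) (h0 : ∀ n, 0 ≤ h n) (h1 : ∀ n, h n ≤ 1)
    (σ : Strat Sg Bool Bool Bool) (τ : Strat Sg Bool Bool Bool)
    (x : ℕ → Z → Bool → ℝ) (hσ : ∀ l a j, σ.act l a j = x l.length (trk l a) j)
    (Φ : ℕ → Z → ℝ) (R : ℕ → ℝ) (hR : ∀ n z, Φ n z ≤ R n)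
    (H : ∀ n z j, Φ n z ≤ ∑ i, x n z i * (w n * gz z + ((1 - h n) * Φ (n + 1) z +
      h n * trans z i j (Φ (n + 1))))) :
    ∀ (N : ℕ) (l : List (Sg × Bool × Bool)) (z : Z), trk l (zs z) = z →
      Φ l.length z - R (l.length + N) ≤ bel z (PS game h w σ τ N l) := by
  intro N
  induction N with
  | zero =>
    intro l z _
    have e0 : bel z (PS game h w σ τ 0 l) = 0 := by
      have : ∀ ω, PS game h w σ τ 0 l ω = 0 := fun ω => by simp [PS]
      cases z with
      | B n => cases n <;> simp [bel, this]
      | _ => simp [bel, this]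
    rw [e0, add_zero]
    linarith [hR l.length z]
  | succ N ih =>
    intro l z hz
    rw [bel_PS_succ]
    set n := l.length with hn
    have hh0 := h0 n
    have hh1 := h1 n
    set C := R (n + (N + 1)) with hC
    have key : ∀ i j, (w n * gz z + ((1 - h n) * Φ (n + 1) z + h n * trans z i j (Φ (n + 1)))) +
        (-C) ≤ w n * gz z + ((1 - h n) * bel z (PS game h w σ τ N ((zs z, i, j) :: l)) +
        h n * trans z i j (fun z' => bel z' (PS game h w σ τ N ((zs z, i, j) :: l)))) := by
      intro i j
      have ihh : ∀ z', upd z (zs z') = z' → Φ (n + 1) z' + (-C) ≤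
          bel z' (PS game h w σ τ N ((zs z, i, j) :: l)) := by
        intro z' hz'
        have := ih ((zs z, i, j) :: l) z' (by simp only [trk]; rw [hz]; exact hz')
        simp only [List.length_cons, ← hn] at this
        have e : n + 1 + N = n + (N + 1) := by ring
        rw [e] at this
        linarith
      have a1 := ihh z (upd_self z)
      have a2 := trans_mono z i j _ _ ihh
      rw [trans_add_const] at a2
      nlinarith
    calc Φ n z - C = ∑ j, τ.act l (zs z) j * (Φ n z + (-C)) := by
          rw [← sum_mul, τ.sum_one, one_mul]; ring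
      _ ≤ ∑ j, τ.act l (zs z) j * (∑ i, x n z i * (w n * gz z + ((1 - h n) * Φ (n + 1) z +
            h n * trans z i j (Φ (n + 1)))) + (-C)) := by
          refine sum_le_sum fun j _ => ?_
          exact mul_le_mul_of_nonneg_left (by linarith [H n z j]) (τ.nonneg _ _ _)
      _ = ∑ j, ∑ i, σ.act l (zs z) i * τ.act l (zs z) j *
          ((w n * gz z + ((1 - h n) * Φ (n + 1) z + h n * trans z i j (Φ (n + 1)))) + (-C)) := by
          refine sum_congr rfl fun j _ => ?_
          have hs : ∑ i, σ.act l (zs z) i = 1 := σ.sum_one _ _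
          simp only [hσ, hz, ← hn] at hs ⊢
          rw [← aux_sum _ _ _ _ hs]
          refine sum_congr rfl fun i _ => ?_
          ring
      _ = ∑ i, ∑ j, σ.act l (zs z) i * τ.act l (zs z) j *
          ((w n * gz z + ((1 - h n) * Φ (n + 1) z + h n * trans z i j (Φ (n + 1)))) + (-C)) :=
          sum_comm
      _ ≤ _ := by
          refine sum_le_sum fun i _ => sum_le_sum fun j _ => ?_
          exact mul_le_mul_of_nonneg_left (key i j) (mul_nonneg (σ.nonneg _ _ _) (τ.nonneg _ _ _))

end Pool.Agent.H65.TG
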