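import Pool.Agent.H65.TGGame

/-!
Potentials for the games with a finite horizon.
-/

open Finset Filter Topology

namespace Pool.Agent.H65.TG

lemma ex_mm (s : ℝ) : ∃ m : ℕ, s < 100 ^ (2 * m + 1) := by
  obtain ⟨n, hn⟩ := pow_unbounded_of_one_lt s (by norm_num : (1:ℝ) < 100)
  exact ⟨n, hn.trans_le (pow_le_pow_right₀ (by norm_num) (by omega))⟩

/-- The threshold at time-to-go `s`. -/
noncomputable def mm (s : ℝ) : ℕ := @Nat.find _ (Classical.decPred _) (ex_mm s)

lemma mm_lt (s : ℝ) : s < 100 ^ (2 * mm s + 1) := @Nat.find_spec _ (Classical.decPred _) (ex_mm s)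

lemma mm_le {s : ℝ} {k : ℕ} (h : s < 100 ^ (2 * k + 1)) : mm s ≤ k :=
  @Nat.find_min' _ (Classical.decPred _) (ex_mm s) _ h

lemma le_of_lt_mm {s : ℝ} {k : ℕ} (h : k < mm s) : 100 ^ (2 * k + 1) ≤ s := by
  by_contra hc
  push Not at hc
  exact absurd (mm_le hc) (by omega)

lemma mm_mono {s t : ℝ} (h : s ≤ t) : mm s ≤ mm t := mm_le (h.trans_lt (mm_lt t))

lemma mm_add {s h : ℝ} (h1 : h ≤ 1) : mm (s + h) ≤ mm s + 1 := by
  apply mm_le
  have h2 := mm_lt s
  have e : (100:ℝ) ^ (2 * (mm s + 1) + 1) = 10000 * 100 ^ (2 * mm s + 1) := by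
    rw [show 2 * (mm s + 1) + 1 = (2 * mm s + 1) + 2 by ring, pow_add]; norm_num; ring
  have h3 : (1:ℝ) ≤ 100 ^ (2 * mm s + 1) := one_le_pow₀ (by norm_num)
  rw [e]; linarith

noncomputable def Dm (k : ℕ) (s : ℝ) : ℝ := s / 100 ^ k + 100 ^ k

noncomputable def EE (j : ℕ) (s : ℝ) : ℝ := Dm (max j (mm s)) s

lemma Dm_step {s : ℝ} {k : ℕ} (h : mm s ≤ k) : Dm k s ≤ Dm (k + 1) s := by
  unfold Dm
  have h1 : s < 100 ^ (2 * k + 1) :=
    (mm_lt s).trans_le (pow_le_pow_right₀ (by norm_num) (by omega))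
  have hp : (0:ℝ) < 100 ^ k := by positivity
  have h2 : s / 100 ^ k ≤ 100 * 100 ^ k := by
    rw [div_le_iff₀ hp]
    have : (100:ℝ) * 100 ^ k * 100 ^ k = 100 ^ (2 * k + 1) := by ring
    linarith
  have h3 : s / 100 ^ (k + 1) = (s / 100 ^ k) / 100 := by
    rw [pow_succ]; field_simp
  rw [h3, pow_succ]
  linarith

lemma Dm_mono {s : ℝ} {k k' : ℕ} (h : mm s ≤ k) (h' : k ≤ k') : Dm k s ≤ Dm k' s := by
  induction k', h' using Nat.le_induction with
  | base => exact le_rfl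
  | succ n hn ih => exact ih.trans (Dm_step (h.trans hn))

lemma EE_mono (j : ℕ) {s t : ℝ} (h : s ≤ t) : EE j s ≤ EE j t := by
  unfold EE
  have h1 : Dm (max j (mm s)) s ≤ Dm (max j (mm t)) s :=
    Dm_mono (le_max_right _ _) (max_le_max_left _ (mm_mono h))
  refine h1.trans ?_
  unfold Dm
  have hp : (0:ℝ) < 100 ^ (max j (mm t)) := by positivity
  have := div_le_div_of_nonneg_right h hp.le
  linarith

lemma EE_pos (j : ℕ) {s : ℝ} (h : 0 < s) : 0 < EE j s := by
  unfold EE Dm; positivity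

lemma EE_ge (j : ℕ) {s : ℝ} (h : 0 < s) : 100 ^ j ≤ EE j s := by
  unfold EE Dm
  have h1 : (100:ℝ) ^ j ≤ 100 ^ (max j (mm s)) :=
    pow_le_pow_right₀ (by norm_num) (le_max_left _ _)
  have h2 : 0 ≤ s / 100 ^ (max j (mm s)) := by positivity
  linarith

/-- The potential of the state `A` in the range of the threshold `m`. -/
noncomputable def Um : ℕ → ℝ → ℝ
  | 0, s => 1 / 100 * (55 / 100 * s + s ^ 3 / 60000)
  | m + 1, s => 1 / 100 * (55 / 100 * s + s ^ 3 / (60000 * (100 ^ (2 * (m + 1))) ^ 2) -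
      (100 ^ (2 * (m + 1))) ^ 2 / (20000 * s) + 68 / 10000 * 100 ^ (2 * (m + 1)))

lemma Um_zero (s : ℝ) : Um 0 s = 1 / 100 * (55 / 100 * s + s ^ 3 / 60000) := rfl

lemma Um_succ (m : ℕ) (s : ℝ) : Um (m + 1) s =
    1 / 100 * (55 / 100 * s + s ^ 3 / (60000 * (100 ^ (2 * (m + 1))) ^ 2) -
      (100 ^ (2 * (m + 1))) ^ 2 / (20000 * s) + 68 / 10000 * 100 ^ (2 * (m + 1))) := rfl

/-- The potential of the state `A`. -/
noncomputable def UU (s : ℝ) : ℝ := Um (mm s) s

lemma bounds_aux {m : ℕ} {s : ℝ} (hm : mm s = m + 1) :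
    (100:ℝ) ^ (2 * (m + 1)) ≤ 100 * s ∧ s ≤ 100 * 100 ^ (2 * (m + 1)) ∧
      (10000:ℝ) ≤ 100 ^ (2 * (m + 1)) := by
  have h1 : (100:ℝ) ^ (2 * m + 1) ≤ s := le_of_lt_mm (by omega)
  have h2 := mm_lt s
  rw [hm] at h2
  refine ⟨?_, ?_, ?_⟩
  · have : (100:ℝ) ^ (2 * (m + 1)) = 100 * 100 ^ (2 * m + 1) := by ring
    rw [this]; linarith
  · have : (100:ℝ) ^ (2 * (m + 1) + 1) = 100 * 100 ^ (2 * (m + 1)) := by ring
    linarith
  · calc (10000:ℝ) = 100 ^ 2 := by norm_num
      _ ≤ 100 ^ (2 * (m + 1)) := pow_le_pow_right₀ (by norm_num) (by omega)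

lemma UU_bounds {s : ℝ} (hs : 0 < s) : 0 ≤ UU s ∧ UU s ≤ 8 / 1000 * s := by
  unfold UU
  rcases hm : mm s with _ | m
  · have h2 := mm_lt s
    rw [hm] at h2
    norm_num at h2
    rw [Um_zero]
    have h3 : s ^ 3 ≤ 10000 * s := by nlinarith [mul_pos hs hs]
    constructor
    · positivity
    · nlinarith
  · obtain ⟨b1, b2, b3⟩ := bounds_aux hm
    rw [Um_succ]
    set M : ℝ := 100 ^ (2 * (m + 1)) with hM
    have hMp : 0 < M := by linarith
    obtain ⟨x, hx⟩ : ∃ x : ℝ, s = x * M := ⟨s / M, by field_simp⟩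
    have hx1 : 1 / 100 ≤ x := by
      rw [hx] at b1
      by_contra hc
      push Not at hc
      nlinarith
    have hx2 : x ≤ 100 := by
      rw [hx] at b2
      by_contra hc
      push Not at hc
      nlinarith
    have hxp : 0 < x := by linarith
    have e1 : s ^ 3 / (60000 * M ^ 2) = x ^ 3 / 60000 * M := by
      rw [hx]; field_simp
    have e2 : M ^ 2 / (20000 * s) = 1 / (20000 * x) * M := by
      rw [hx]; field_simp
    rw [e1, e2, hx]
    have k1 : 1 / (20000 * x) ≤ x / 2 := by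
      rw [div_le_div_iff₀ (by positivity) (by norm_num)]
      nlinarith
    have k2 : 0 ≤ x ^ 3 / 60000 := by positivity
    have k3 : x ^ 3 / 60000 + 68 / 10000 ≤ 25 / 100 * x + 1 / (20000 * x) := by
      have : 25 / 100 * x + 1 / (20000 * x) - (x ^ 3 / 60000 + 68 / 10000) =
          (25 / 100 * x ^ 2 + 1 / 20000 - x ^ 4 / 60000 - 68 / 10000 * x) / x := by
        field_simp
        ring
      have h5 : 0 ≤ 25 / 100 * x ^ 2 + 1 / 20000 - x ^ 4 / 60000 - 68 / 10000 * x := by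
        rcases le_total x 1 with hx3 | hx3
        · have : x ^ 4 ≤ x ^ 2 := pow_le_pow_of_le_one hxp.le hx3 (by norm_num)
          nlinarith [sq_nonneg (x - 136 / 10000)]
        · have : x ^ 4 ≤ 10000 * x ^ 2 := by nlinarith [mul_pos hxp hxp, sq_nonneg x]
          nlinarith
      have h6 := div_nonneg h5 hxp.le
      linarith
    constructor
    · have : 0 ≤ (55 / 100 * x + x ^ 3 / 60000 - 1 / (20000 * x) + 68 / 10000) * M := by
        apply mul_nonneg _ hMp.le
        linarith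
      linarith
    · have : (x ^ 3 / 60000 + 68 / 10000) * M ≤ (25 / 100 * x + 1 / (20000 * x)) * M :=
        mul_le_mul_of_nonneg_right k3 hMp.le
      linarith

lemma Um_switch {m : ℕ} {X : ℝ} (h1 : 100 ^ (2 * m + 1) ≤ X) (h2 : X ≤ 100 ^ (2 * m + 1) + 1) :
    Um m X ≤ Um (m + 1) X := by
  have key : ∀ x : ℝ, 100 ≤ x → x ≤ 101 →
      x ^ 3 / 60000 + 68 / 10000 ≤ 68 - 5000 / x := by
    intro x hx1 hx2
    have a1 : 5000 / x ≤ 50 := by
      rw [div_le_iff₀ (by linarith)]; linarith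
    have a2 : x ^ 3 ≤ 101 ^ 3 := pow_le_pow_left₀ (by linarith) hx2 3
    norm_num at a2
    linarith
  rcases m with _ | m
  · norm_num at h1 h2
    rw [Um_succ, Um_zero]
    have k := key X h1 (by linarith)
    have hXp : 0 < X := by linarith
    have e1 : ((100:ℝ) ^ (2 * (0 + 1))) ^ 2 / (20000 * X) = 5000 / X := by
      field_simp; norm_num
    have e2 : (68:ℝ) / 10000 * 100 ^ (2 * (0 + 1)) = 68 := by norm_num
    have e3 : 0 ≤ X ^ 3 / (60000 * ((100:ℝ) ^ (2 * (0 + 1))) ^ 2) := by positivity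
    rw [e1, e2]
    linarith
  · have e0 : (100:ℝ) ^ (2 * (m + 1 + 1)) = 10000 * 100 ^ (2 * (m + 1)) := by
      rw [show 2 * (m + 1 + 1) = 2 * (m + 1) + 2 by ring, pow_add]; norm_num; ring
    have e00 : (100:ℝ) ^ (2 * (m + 1) + 1) = 100 * 100 ^ (2 * (m + 1)) := by ring
    rw [Um_succ, Um_succ, e0]
    rw [e00] at h1 h2
    have hM1 : (1:ℝ) ≤ 100 ^ (2 * (m + 1)) := one_le_pow₀ (by norm_num)
    set M : ℝ := 100 ^ (2 * (m + 1)) with hM
    have hMp : 0 < M := by linarith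
    obtain ⟨x, hx⟩ : ∃ x : ℝ, X = x * M := ⟨X / M, by field_simp⟩
    have hx1 : 100 ≤ x := by
      rw [hx] at h1
      by_contra hc
      push Not at hc
      nlinarith
    have hx2 : x ≤ 101 := by
      rw [hx] at h2
      by_contra hc
      push Not at hc
      nlinarith
    have hxp : 0 < x := by linarith
    have k := key x hx1 hx2
    have e1 : X ^ 3 / (60000 * M ^ 2) = x ^ 3 / 60000 * M := by
      rw [hx]; field_simp
    have e2 : M ^ 2 / (20000 * X) = 1 / (20000 * x) * M := by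
      rw [hx]; field_simp
    have e3 : (10000 * M) ^ 2 / (20000 * X) = 5000 / x * M := by
      rw [hx]; field_simp; norm_num
    have hXp : 0 < X := by rw [hx]; positivity
    have e4 : 0 ≤ X ^ 3 / (60000 * (10000 * M) ^ 2) := by positivity
    rw [e1, e2, e3]
    have k2 := mul_le_mul_of_nonneg_right k hMp.le
    have k3 : 0 ≤ 1 / (20000 * x) * M := by positivity
    nlinarith

lemma Um_incr {s h : ℝ} (hs : 0 < s) (h0 : 0 < h) (h1 : h ≤ 1) :
    Um (mm s) s + h * (1 / 10000 * ((min s (EE 0 s)) ^ 2 / s)) ≤ Um (mm s) (s + h) := by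
  have hE := EE_pos 0 hs
  rcases hm : mm s with _ | m
  · rw [Um_zero, Um_zero]
    have k1 : (min s (EE 0 s)) ^ 2 / s ≤ s := by
      rw [div_le_iff₀ hs, ← sq]
      exact pow_le_pow_left₀ (le_min hs.le hE.le) (min_le_left _ _) 2
    have k2 : h * (1 / 10000 * ((min s (EE 0 s)) ^ 2 / s)) ≤ h * (1 / 10000 * s) := by
      apply mul_le_mul_of_nonneg_left _ h0.le
      linarith
    have k3 : s ^ 3 + 3 * s ^ 2 * h ≤ (s + h) ^ 3 := by
      have : 0 ≤ 3 * s * h ^ 2 + h ^ 3 := by positivity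
      nlinarith
    have k4 : h * (s / 100) ≤ h * (55 / 100 + s ^ 2 / 20000) := by
      apply mul_le_mul_of_nonneg_left _ h0.le
      nlinarith [sq_nonneg (s - 100)]
    nlinarith
  · obtain ⟨b1, b2, b3⟩ := bounds_aux hm
    have hE1 : EE 0 s = s / 100 ^ (m + 1) + 100 ^ (m + 1) := by
      unfold EE Dm; rw [hm]; simp
    have k1 : (min s (EE 0 s)) ^ 2 ≤ (s / 100 ^ (m + 1) + 100 ^ (m + 1)) ^ 2 := by
      rw [← hE1]
      exact pow_le_pow_left₀ (le_min hs.le hE.le) (min_le_right _ _) 2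
    have hMM : (100:ℝ) ^ (2 * (m + 1)) = 100 ^ (m + 1) * 100 ^ (m + 1) := by ring
    have k2 : (s / 100 ^ (m + 1) + 100 ^ (m + 1)) ^ 2 =
        s ^ 2 / 100 ^ (2 * (m + 1)) + 2 * s + 100 ^ (2 * (m + 1)) := by
      rw [hMM]; field_simp; ring
    rw [k2] at k1
    rw [Um_succ, Um_succ]
    set M : ℝ := 100 ^ (2 * (m + 1)) with hM
    have hMp : 0 < M := by linarith
    obtain ⟨x, hx⟩ : ∃ x : ℝ, s = x * M := ⟨s / M, by field_simp⟩
    have hx1 : 1 / 100 ≤ x := by
      rw [hx] at b1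
      by_contra hc
      push Not at hc
      nlinarith
    have hx2 : x ≤ 100 := by
      rw [hx] at b2
      by_contra hc
      push Not at hc
      nlinarith
    have hxp : 0 < x := by linarith
    have k3 : (min s (EE 0 s)) ^ 2 / s ≤ x + 2 + 1 / x := by
      rw [div_le_iff₀ hs]
      refine k1.trans (le_of_eq ?_)
      rw [hx]; field_simp
    have k4 : s ^ 3 + 3 * s ^ 2 * h ≤ (s + h) ^ 3 := by
      have : 0 ≤ 3 * s * h ^ 2 + h ^ 3 := by positivity
      nlinarith
    have k5 : s ^ 3 / (60000 * M ^ 2) + h * (x ^ 2 / 20000) ≤ (s + h) ^ 3 / (60000 * M ^ 2) := by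
      have : s ^ 3 / (60000 * M ^ 2) + h * (x ^ 2 / 20000) =
          (s ^ 3 + 3 * s ^ 2 * h) / (60000 * M ^ 2) := by
        rw [hx]; field_simp; ring
      rw [this]
      exact div_le_div_of_nonneg_right k4 (by positivity)
    have hs100 : 100 ≤ s := by nlinarith
    have k6 : h * (99 / 100 * (1 / (20000 * x ^ 2))) ≤
        M ^ 2 / (20000 * s) - M ^ 2 / (20000 * (s + h)) := by
      have e : M ^ 2 / (20000 * s) - M ^ 2 / (20000 * (s + h)) =
          h * (s / (s + h)) * (1 / (20000 * x ^ 2)) := by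
        have hsh : s + h ≠ 0 := by positivity
        rw [hx] at hsh ⊢
        field_simp
        ring
      rw [e]
      have : 99 / 100 ≤ s / (s + h) := by
        rw [div_le_div_iff₀ (by norm_num) (by positivity)]; nlinarith
      have h9 : (0:ℝ) ≤ 1 / (20000 * x ^ 2) := by positivity
      have h10 := mul_le_mul_of_nonneg_left this h0.le
      nlinarith [mul_le_mul_of_nonneg_right h10 h9]
    have k7 : 1 / 100 * (x + 2 + 1 / x) ≤
        55 / 100 + x ^ 2 / 20000 + 99 / 100 * (1 / (20000 * x ^ 2)) := by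
      obtain ⟨t, ht⟩ : ∃ t : ℝ, t = 1 / (100 * x) := ⟨_, rfl⟩
      have ht0 : 0 < t := by rw [ht]; positivity
      have ht1 : t ≤ 1 := by
        rw [ht, div_le_one (by positivity)]; linarith
      have e1 : 1 / x = 100 * t := by rw [ht]; field_simp
      have e2 : 1 / (20000 * x ^ 2) = t ^ 2 / 2 := by rw [ht]; field_simp; norm_num
      rw [e1, e2]
      have hxt : x * t = 1 / 100 := by rw [ht]; field_simp
      rcases le_total x 1 with h3 | h3
      · have q1 := sq_nonneg x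
        have q2 := sq_nonneg (1 - t)
        have q3 : (1 - t) ^ 2 = 1 - 2 * t + t ^ 2 := by ring
        linarith
      · have q0 := mul_nonneg ht0.le (sub_nonneg.2 h3)
        have q00 : t * (x - 1) = x * t - t := by ring
        have q1 : t ≤ 1 / 100 := by linarith
        have q2 := sq_nonneg t
        have q3 := sq_nonneg (x - 100)
        have q4 : (x - 100) ^ 2 = x ^ 2 - 200 * x + 10000 := by ring
        linarith
    have k8 := mul_le_mul_of_nonneg_left k7 h0.le
    have k9 := mul_le_mul_of_nonneg_left k3 h0.le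
    nlinarith

lemma UU_step {s h : ℝ} (hs : 0 < s) (h0 : 0 < h) (h1 : h ≤ 1) :
    UU s + h * (1 / 10000 * ((min s (EE 0 s)) ^ 2 / s)) ≤ UU (s + h) := by
  refine (Um_incr hs h0 h1).trans ?_
  unfold UU
  have h2 := mm_add (s := s) h1
  have h3 := mm_mono (by linarith : s ≤ s + h)
  rcases (by omega : mm (s + h) = mm s ∨ mm (s + h) = mm s + 1) with h4 | h4
  · rw [h4]
  · rw [h4]
    refine Um_switch ?_ ?_
    · exact le_of_lt_mm (by omega)
    · have := mm_lt s
      linarith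

end Pool.Agent.H65.TG
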