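import Pool.Agent.H65.TGHor

/-!
The stage inequality for the games with a finite horizon.
-/

open Finset Filter Topology

namespace Pool.Agent.H65.TG

/-- The potential of `B j` without truncation. -/
noncomputable def psi (j : ℕ) (s : ℝ) : ℝ := UU s + 1 - 100 ^ j + EE j s

/-- The potential at time-to-go `s`. -/
noncomputable def phi (s : ℝ) : Z → ℝ
  | .A => UU s
  | .B j => min s (psi j s)
  | .top => s
  | .bot => -s
  | .gate => 8 / 1000 * s

/-- The action of player 2 when the time-to-go after the current stage is `s`. -/
noncomputable def yy (s : ℝ) : Z → Bool → ℝ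
  | .A, true => min s (EE 0 s) / (100 * s)
  | .A, false => 1 - min s (EE 0 s) / (100 * s)
  | .B k, true => if mm s ≤ k then 1 else 0
  | .B k, false => if mm s ≤ k then 0 else 1
  | _, true => 0
  | _, false => 1

lemma yy_nonneg {s : ℝ} (hs : 0 < s) (z : Z) (j : Bool) : 0 ≤ yy s z j := by
  have hE := EE_pos 0 hs
  have h1 : 0 ≤ min s (EE 0 s) / (100 * s) := by positivity
  have h2 : min s (EE 0 s) / (100 * s) ≤ 1 := by
    rw [div_le_one (by positivity)]
    have := min_le_left s (EE 0 s)
    linarith
  cases z with
  | A =>
    cases j
    · simp only [yy]; linarith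
    · simp only [yy]; exact h1
  | B k => cases j <;> simp only [yy] <;> split_ifs <;> norm_num
  | _ => cases j <;> simp only [yy] <;> norm_num

lemma yy_sum (s : ℝ) (z : Z) : ∑ j, yy s z j = 1 := by
  rw [Fintype.sum_bool]
  cases z with
  | A => simp only [yy]; ring
  | B k => simp only [yy]; split_ifs <;> norm_num
  | _ => simp only [yy]; norm_num

lemma phi_le {s : ℝ} (hs : 0 < s) (z : Z) : phi s z ≤ s := by
  have := UU_bounds hs
  cases z with
  | A => simp only [phi]; linarith
  | B j => exact min_le_left _ _
  | top => exact le_rfl
  | bot => simp only [phi]; linarith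
  | gate => simp only [phi]; linarith

lemma neg_phi_le {s : ℝ} (hs : 0 < s) (z : Z) : -phi s z ≤ s := by
  have h1 := UU_bounds hs
  cases z with
  | A => simp only [phi]; linarith
  | B j =>
    have h2 := EE_ge j hs
    have h3 : 0 ≤ min s (psi j s) := le_min hs.le (by unfold psi; linarith)
    simp only [phi]; linarith
  | top => simp only [phi]; linarith
  | bot => simp only [phi]; linarith
  | gate => simp only [phi]; linarith

lemma trans_le_const (z : Z) (i j : Bool) (φ : Z → ℝ) (c : ℝ) (h : ∀ z, φ z ≤ c) :
    trans z i j φ ≤ c := by
  have h1 := trans_mono z i j φ (fun _ => 0 + c) (fun z' _ => by simpa using h z')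
  rw [trans_add_const z i j (fun _ => 0) c] at h1
  have h2 : trans z i j (fun _ => (0:ℝ)) = 0 := by
    cases z <;> cases i <;> cases j <;> simp [trans]
  linarith

lemma hor_stage {s h : ℝ} (hs : 0 < s) (h0 : 0 < h) (h1 : h ≤ 1) (z : Z) (i : Bool) :
    ∑ j, yy s z j * (h * gz z + ((1 - h) * phi s z + h * trans z i j (phi s))) ≤
      phi (s + h) z := by
  have hU := UU_bounds hs
  have hE := EE_pos 0 hs
  have hUs := UU_step hs h0 h1
  set q := min s (EE 0 s) with hq
  have hq0 : 0 < q := lt_min hs hE
  have hqs : q ≤ s := min_le_left _ _
  have hstep0 : 0 ≤ h * (1 / 10000 * (q ^ 2 / s)) := by positivity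
  have hpsi : ∀ j, psi j s ≤ psi j (s + h) := by
    intro j
    have := EE_mono j (by linarith : s ≤ s + h)
    unfold psi
    linarith
  rw [Fintype.sum_bool]
  cases z with
  | A =>
    have hB0 : phi s (.B 0) - UU s ≤ q := by
      rw [hq]
      simp only [phi]
      refine le_min ?_ ?_
      · have := min_le_left s (psi 0 s); linarith
      · have := min_le_right s (psi 0 s)
        unfold psi at this ⊢
        simp only [pow_zero] at this ⊢
        linarith
    have hy : yy s .A true = q / (100 * s) := rfl
    have hy' : yy s .A false = 1 - q / (100 * s) := rfl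
    rw [hy, hy']
    set y := q / (100 * s) with hydef
    have hys : y * s = q / 100 := by rw [hydef]; field_simp
    have hy0 : 0 ≤ y := by positivity
    have hy1 : y ≤ 1 := by
      rw [hydef, div_le_one (by positivity)]; linarith
    set D := phi s (.B 0) - UU s with hD
    have hB : phi s (.B 0) = UU s + D := by rw [hD]; ring
    cases i
    · -- player 1 waits
      simp only [gz, trans]
      rw [hB]
      simp only [phi]
      have e : y * (h * 0 + ((1 - h) * UU s + h * (1 / 100 * (UU s + D) + 99 / 100 * UU s))) +
          (1 - y) * (h * 0 + ((1 - h) * UU s + h * UU s)) = UU s + h * (1 / 100 * (y * D)) := by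
        ring
      rw [e]
      have e2 : q ^ 2 / s = 100 * (y * q) := by rw [hydef]; field_simp
      rw [e2] at hUs
      have e3 : y * D ≤ y * q := mul_le_mul_of_nonneg_left hB0 hy0
      have e4 := mul_le_mul_of_nonneg_left e3 h0.le
      linarith
    · simp only [gz, trans]
      rw [hB]
      simp only [phi]
      have e : y * (h * 0 + ((1 - h) * UU s + h * -s)) +
          (1 - y) * (h * 0 + ((1 - h) * UU s + h * (1 / 100 * (UU s + D) + 99 / 100 * UU s))) =
          UU s + h * ((1 - y) * (1 / 100 * D) - y * s - y * UU s) := by
        ring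
      rw [e]
      have e3 : (1 - y) * (1 / 100 * D) ≤ (1 - y) * (1 / 100 * q) :=
        mul_le_mul_of_nonneg_left (by linarith) (by linarith)
      have e4 : 0 ≤ y * q := by positivity
      have e5 : 0 ≤ y * UU s := mul_nonneg hy0 hU.1
      have e6 : (1 - y) * (1 / 100 * D) - y * s - y * UU s ≤ 0 := by
        rw [hys]; nlinarith
      have e7 := mul_nonpos_of_nonneg_of_nonpos h0.le e6
      linarith
  | B k =>
    have hle : ∀ j, h * gz (.B k) + ((1 - h) * phi s (.B k) + h * trans (.B k) i j (phi s)) ≤
        s + h := by
      intro j
      have a1 := phi_le hs (.B k)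
      have a2 := trans_le_const (.B k) i j (phi s) s (phi_le hs)
      have a3 := mul_le_mul_of_nonneg_left a1 (by linarith : 0 ≤ 1 - h)
      have a4 := mul_le_mul_of_nonneg_left a2 h0.le
      simp only [gz]
      linarith
    have hlek : phi s (.B k) ≤ psi k s := min_le_right _ _
    by_cases hk : mm s ≤ k
    · -- exit
      have hy : yy s (.B k) true = 1 := by simp only [yy, if_pos hk]
      have hy' : yy s (.B k) false = 0 := by simp only [yy, if_pos hk]
      rw [hy, hy', one_mul, zero_mul, add_zero]
      have hmax : max k (mm s) = k := max_eq_left hk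
      have e1 : psi k s = UU s + 1 + s / 100 ^ k := by
        unfold psi EE Dm; rw [hmax]; ring
      have hfin : h * gz (.B k) + ((1 - h) * phi s (.B k) + h * trans (.B k) i true (phi s)) ≤
          psi k s := by
        have e2 : trans (.B k) i true (phi s) = (1 / 100) ^ k * s + (1 - (1 / 100) ^ k) * UU s := by
          cases i <;> rfl
        rw [e2]
        have e3 : s / 100 ^ k = (1 / 100) ^ k * s := by
          rw [one_div, inv_pow]; field_simp
        have e4 : 0 ≤ (1 / 100 : ℝ) ^ k * UU s := mul_nonneg (by positivity) hU.1
        have e5 : (1 / 100) ^ k * s + (1 - (1 / 100) ^ k) * UU s ≤ psi k s - 1 := by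
          rw [e1, e3]; linarith
        have e6 := mul_le_mul_of_nonneg_left hlek (by linarith : 0 ≤ 1 - h)
        have e7 := mul_le_mul_of_nonneg_left e5 h0.le
        simp only [gz]
        linarith
      exact le_min (hle true) (hfin.trans (hpsi k))
    · have hy : yy s (.B k) true = 0 := by simp only [yy, if_neg hk]
      have hy' : yy s (.B k) false = 1 := by simp only [yy, if_neg hk]
      rw [hy, hy', one_mul, zero_mul, zero_add]
      have hfin : h * gz (.B k) + ((1 - h) * phi s (.B k) + h * trans (.B k) i false (phi s)) ≤
          psi k s := by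
        have e2 : trans (.B k) i false (phi s) =
            99 / 100 * phi s (.B 0) + 1 / 100 * phi s (.B (k + 1)) := by
          cases i <;> rfl
        rw [e2]
        have m1 : max k (mm s) = mm s := max_eq_right (by omega)
        have m2 : max 0 (mm s) = mm s := max_eq_right (by omega)
        have m3 : max (k + 1) (mm s) = mm s := max_eq_right (by omega)
        have f1 : phi s (.B 0) ≤ psi 0 s := min_le_right _ _
        have f2 : phi s (.B (k + 1)) ≤ psi (k + 1) s := min_le_right _ _
        have g0 : psi 0 s = UU s + Dm (mm s) s := by unfold psi EE; rw [m2]; ring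
        have g1 : psi k s = UU s + Dm (mm s) s + 1 - 100 ^ k := by unfold psi EE; rw [m1]; ring
        have g2 : psi (k + 1) s = UU s + Dm (mm s) s + 1 - 100 * 100 ^ k := by
          unfold psi EE; rw [m3]; ring
        have e6 := mul_le_mul_of_nonneg_left hlek (by linarith : 0 ≤ 1 - h)
        have e5 : 99 / 100 * phi s (.B 0) + 1 / 100 * phi s (.B (k + 1)) ≤
            psi k s - 99 / 100 := by
          rw [g1]; rw [g0] at f1; rw [g2] at f2; linarith
        have e7 := mul_le_mul_of_nonneg_left e5 h0.le
        simp only [gz]
        linarith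
      exact le_min (hle false) (hfin.trans (hpsi k))
  | top =>
    have hy : yy s .top true = 0 := rfl
    have hy' : yy s .top false = 1 := rfl
    rw [hy, hy']
    have e : trans .top i false (phi s) = s := by cases i <;> rfl
    rw [e]; simp only [gz, phi]; linarith
  | bot =>
    have hy : yy s .bot true = 0 := rfl
    have hy' : yy s .bot false = 1 := rfl
    rw [hy, hy']
    have e : trans .bot i false (phi s) = -s := by cases i <;> rfl
    rw [e]; simp only [gz, phi]; linarith
  | gate =>
    have hy : yy s .gate true = 0 := rfl
    have hy' : yy s .gate false = 1 := rfl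
    rw [hy, hy']
    cases i
    · simp only [gz, phi, trans]; linarith
    · simp only [gz, phi, trans]
      have := mul_le_mul_of_nonneg_left hU.2 h0.le
      linarith

end Pool.Agent.H65.TG
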