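import Pool.Agent.H65.TGEx

/-!
The main facts, with the function `V`.
-/

open Finset Filter Topology

namespace Pool.Agent.H65.TG

lemma isV_unique {lam v v' : ℝ} (hv : IsV game law lam v) (hv' : IsV game law lam v') :
    v ≤ v' := by
  refine le_of_forall_pos_le_add fun ε hε => ?_
  obtain ⟨δ, hδ, H⟩ := hv (ε / 2) (by positivity)
  obtain ⟨δ', hδ', H'⟩ := hv' (ε / 2) (by positivity)
  have hm : 0 < min δ δ' := lt_min hδ hδ'
  have h5 := H (fun _ => min δ δ') (fun _ => ⟨hm, min_le_left _ _⟩) (const_tendsto hm)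
  have h6 := H' (fun _ => min δ δ') (fun _ => ⟨hm, min_le_right _ _⟩) (const_tendsto hm)
  have h7 := abs_le.1 h5.1
  have h8 := abs_le.1 h6.1
  linarith

lemma isV_odd {n : ℕ} (hn : 1 ≤ n) {v : ℝ} (hv : IsV game law ((1 / 100) ^ (2 * n + 1)) v) :
    85 / 10000 ≤ v := by
  refine le_of_forall_pos_le_add fun ε hε => ?_
  obtain ⟨δ, hδ, H⟩ := hv ε hε
  have hm : 0 < min δ 1 := lt_min hδ one_pos
  have h5 := H (fun _ => min δ 1) (fun _ => ⟨hm, min_le_left _ _⟩) (const_tendsto hm)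
  have h6 := disc_odd hn (h := fun _ => min δ 1) (const_tendsto hm) (fun _ => hm)
    (fun _ => min_le_right _ _)
  have h7 := abs_le.1 h5.1
  linarith [h6.1]

lemma main : ∃ V : ℝ → ℝ, (∀ lam, 0 < lam → lam < 1 → IsV game law lam (V lam)) ∧
    (∀ l > 0, ∃ lam, 0 < lam ∧ lam < l ∧ lam < 1 ∧ V lam = 8 / 1000) ∧
    (∀ l > 0, ∃ lam, 0 < lam ∧ lam < l ∧ lam < 1 ∧ 85 / 10000 ≤ V lam) := by
  classical
  have key : ∀ lam : ℝ, ∃ v, 0 < lam → lam < 1 → IsV game law lam v := by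
    intro lam
    by_cases h0 : 0 < lam
    · by_cases h1 : lam < 1
      · obtain ⟨v, hv⟩ := exists_isV h0 h1
        exact ⟨v, fun _ _ => hv⟩
      · exact ⟨0, fun _ h => absurd h h1⟩
    · exact ⟨0, fun h => absurd h h0⟩
  choose V hV using key
  refine ⟨V, hV, fun l hl => ?_, fun l hl => ?_⟩
  · obtain ⟨n, hn, h1, _⟩ := exists_pow_small hl
    have l0 : (0:ℝ) < (1 / 100) ^ (2 * n) := by positivity
    have l1 : ((1:ℝ) / 100) ^ (2 * n) < 1 := pow_lt_one₀ (by norm_num) (by norm_num) (by omega)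
    exact ⟨_, l0, h1, l1, le_antisymm (isV_unique (hV _ l0 l1) (isV_even hn))
      (isV_unique (isV_even hn) (hV _ l0 l1))⟩
  · obtain ⟨n, hn, _, h2⟩ := exists_pow_small hl
    have l0 : (0:ℝ) < (1 / 100) ^ (2 * n + 1) := by positivity
    have l1 : ((1:ℝ) / 100) ^ (2 * n + 1) < 1 :=
      pow_lt_one₀ (by norm_num) (by norm_num) (by omega)
    exact ⟨_, l0, h2, l1, isV_odd hn (hV _ l0 l1)⟩

end Pool.Agent.H65.TG
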