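import Pool.Agent.H65.TGDisc

/-!
From the stage inequalities to the values.
-/

open Finset Filter Topology

namespace Pool.Agent.H65.TG

/-- The initial law: the point mass at `gate`. -/
noncomputable def law : St → ℝ := pt .gate

abbrev Str := Strat Sg Bool Bool Bool

lemma payoff_law (h w : ℕ → ℝ) (σ τ : Str) :
    payoff game h w law σ τ = ∑' n, w n * stageExp game h σ τ n [] .gate := by
  unfold payoff law
  simp only [sum_pt_mul]

lemma game_g_bound (i j : Bool) (ω : St) : |game.g i j ω| ≤ 1 := by
  rw [game_g]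
  cases ω <;> simp only [py] <;> norm_num [abs_le]

/-- The strategy which never acts. -/
noncomputable def waitS : Str where
  act := fun _ _ x => if x then 0 else 1
  nonneg := by intro l a x; cases x <;> norm_num
  sum_one := by intro l a; rw [Fintype.sum_bool]; norm_num

instance : Nonempty Str := ⟨waitS⟩

section vals

variable {h w : ℕ → ℝ} (h0 : ∀ n, 0 ≤ h n) (h1 : ∀ n, h n ≤ 1) (w0 : ∀ n, 0 ≤ w n)
  (hw : Summable w)

include h0 h1 w0 hw

lemma payoff_abs (σ τ : Str) : |payoff game h w law σ τ| ≤ ∑' n, w n := by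
  rw [payoff_law]
  have hb : ∀ n, ‖w n * stageExp game h σ τ n [] .gate‖ ≤ w n := by
    intro n
    rw [Real.norm_eq_abs, abs_mul, abs_of_nonneg (w0 n)]
    have := abs_stageExp_le game game_g_bound h h0 h1 σ τ n [] .gate
    have := mul_le_mul_of_nonneg_left this (w0 n)
    linarith
  exact tsum_of_norm_bounded hw.hasSum hb

lemma val_ge (σ : Str) (x : ℝ) (hx : ∀ τ, x ≤ payoff game h w law σ τ) :
    x ≤ lowerVal game h w law ∧ x ≤ upperVal game h w law := by
  have hb := payoff_abs h0 h1 w0 hw
  constructor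
  · unfold lowerVal
    refine le_ciSup_of_le ?_ σ (le_ciInf hx)
    refine ⟨∑' n, w n, ?_⟩
    rintro _ ⟨σ', rfl⟩
    refine ciInf_le_of_le ?_ waitS ((abs_le.1 (hb σ' waitS)).2)
    refine ⟨-∑' n, w n, ?_⟩
    rintro _ ⟨τ', rfl⟩
    exact (abs_le.1 (hb σ' τ')).1
  · unfold upperVal
    refine le_ciInf fun τ => ?_
    refine le_ciSup_of_le ?_ σ (hx τ)
    refine ⟨∑' n, w n, ?_⟩
    rintro _ ⟨σ', rfl⟩
    exact (abs_le.1 (hb σ' τ)).2

lemma val_le (τ : Str) (x : ℝ) (hx : ∀ σ, payoff game h w law σ τ ≤ x) :
    lowerVal game h w law ≤ x ∧ upperVal game h w law ≤ x := by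
  have hb := payoff_abs h0 h1 w0 hw
  constructor
  · unfold lowerVal
    refine ciSup_le fun σ => ?_
    refine ciInf_le_of_le ?_ τ (hx σ)
    refine ⟨-∑' n, w n, ?_⟩
    rintro _ ⟨τ', rfl⟩
    exact (abs_le.1 (hb σ τ')).1
  · unfold upperVal
    refine ciInf_le_of_le ?_ τ (ciSup_le hx)
    refine ⟨-∑' n, w n, ?_⟩
    rintro _ ⟨τ', rfl⟩
    refine le_ciSup_of_le ?_ waitS ((abs_le.1 (hb waitS τ')).1)
    refine ⟨∑' n, w n, ?_⟩
    rintro _ ⟨σ', rfl⟩
    exact (abs_le.1 (hb σ' τ')).2

/-- Upper verification, for the total payoffs. -/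
lemma upper_total (y : ℕ → Z → Bool → ℝ) (τ : Str)
    (hτ : ∀ l a j, τ.act l a j = y l.length (trk l a) j)
    (Φ : ℕ → Z → ℝ) (R : ℕ → ℝ) (hR : ∀ n z, -Φ n z ≤ R n) (hR0 : Tendsto R atTop (𝓝 0))
    (H : ∀ n z i, ∑ j, y n z j * (w n * gz z + ((1 - h n) * Φ (n + 1) z +
      h n * trans z i j (Φ (n + 1)))) ≤ Φ n z) (σ : Str) :
    payoff game h w law σ τ ≤ Φ 0 .gate := by
  rw [payoff_law]
  have h2 := tendsto_PS game game_g_bound h w h0 h1 w0 hw σ τ .gate
  have h3 : ∀ N, PS game h w σ τ N [] .gate ≤ Φ 0 .gate + R N := by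
    intro N
    have := upper_verif h w h0 h1 σ τ y hτ Φ R hR H N [] .gate rfl
    simpa [bel] using this
  have h4 : Tendsto (fun N => Φ 0 .gate + R N) atTop (𝓝 (Φ 0 .gate + 0)) :=
    tendsto_const_nhds.add hR0
  rw [add_zero] at h4
  exact le_of_tendsto_of_tendsto' h2 h4 h3

/-- Lower verification, for the total payoffs. -/
lemma lower_total (x : ℕ → Z → Bool → ℝ) (σ : Str)
    (hσ : ∀ l a j, σ.act l a j = x l.length (trk l a) j)
    (Φ : ℕ → Z → ℝ) (R : ℕ → ℝ) (hR : ∀ n z, Φ n z ≤ R n) (hR0 : Tendsto R atTop (𝓝 0))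
    (H : ∀ n z j, Φ n z ≤ ∑ i, x n z i * (w n * gz z + ((1 - h n) * Φ (n + 1) z +
      h n * trans z i j (Φ (n + 1))))) (τ : Str) :
    Φ 0 .gate ≤ payoff game h w law σ τ := by
  rw [payoff_law]
  have h2 := tendsto_PS game game_g_bound h w h0 h1 w0 hw σ τ .gate
  have h3 : ∀ N, Φ 0 .gate - R N ≤ PS game h w σ τ N [] .gate := by
    intro N
    have := lower_verif h w h0 h1 σ τ x hσ Φ R hR H N [] .gate rfl
    simpa [bel] using this
  have h4 : Tendsto (fun N => Φ 0 .gate - R N) atTop (𝓝 (Φ 0 .gate - 0)) :=
    tendsto_const_nhds.sub hR0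
  rw [sub_zero] at h4
  exact le_of_tendsto_of_tendsto' h4 h2 h3

end vals

lemma trans_smul (c : ℝ) (z : Z) (i j : Bool) (φ : Z → ℝ) :
    trans z i j (fun z' => c * φ z') = c * trans z i j φ := by
  cases z <;> cases i <;> cases j <;> simp only [trans] <;> ring

/-! ### Finite horizon -/

section horizon

variable {h : ℕ → ℝ} {T : ℝ} (hT : HasSum h T) (h0 : ∀ n, 0 < h n) (h1 : ∀ n, h n ≤ 1)

noncomputable def tail (h : ℕ → ℝ) (n : ℕ) : ℝ := ∑' k, h (k + n)

include hT

lemma tail_zero : tail h 0 = T := by
  unfold tail; simpa using hT.tsum_eq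

lemma tail_succ (n : ℕ) : tail h n = tail h (n + 1) + h n := by
  unfold tail
  have hs : Summable fun k => h (k + n) := (summable_nat_add_iff n).2 hT.summable
  rw [hs.tsum_eq_zero_add, zero_add, add_comm]
  congr 1
  refine tsum_congr fun k => ?_
  congr 1; ring

include h0

lemma tail_pos (n : ℕ) : 0 < tail h n := by
  unfold tail
  have hs : Summable fun k => h (k + n) := (summable_nat_add_iff n).2 hT.summable
  exact hs.tsum_pos (fun k => (h0 _).le) 0 (h0 _)

omit h0 in
lemma tail_tendsto : Tendsto (tail h) atTop (𝓝 0) := by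
  unfold tail; exact tendsto_sum_nat_add h

include h1

lemma hor_value : lowerVal game h (horW T h) law = 8 / 1000 ∧
    upperVal game h (horW T h) law = 8 / 1000 := by
  have hT0 : 0 < T := by rw [← tail_zero hT]; exact tail_pos hT h0 0
  have h0' : ∀ n, 0 ≤ h n := fun n => (h0 n).le
  have w0 : ∀ n, 0 ≤ horW T h n := fun n => div_nonneg (h0' n) hT0.le
  have hw : Summable (horW T h) := hT.summable.div_const T
  have hRt : Tendsto (fun n => 1 / T * tail h n) atTop (𝓝 0) := by
    have := (tail_tendsto hT).const_mul (1 / T)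
    simpa using this
  have hgoal0 : 1 / T * (8 / 1000 * tail h 0) = 8 / 1000 := by
    rw [tail_zero hT]; field_simp
  -- player 2
  let τ : Str :=
    { act := fun l a j => yy (tail h (l.length + 1)) (trk l a) j
      nonneg := fun l a j => yy_nonneg (tail_pos hT h0 _) _ _
      sum_one := fun l a => yy_sum _ _ }
  have hup : ∀ σ, payoff game h (horW T h) law σ τ ≤ 8 / 1000 := by
    intro σ
    have := upper_total h0' h1 w0 hw (fun n z j => yy (tail h (n + 1)) z j) τ (fun _ _ _ => rfl)
      (fun n z => 1 / T * phi (tail h n) z) (fun n => 1 / T * tail h n)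
      (fun n z => by
        have := neg_phi_le (tail_pos hT h0 n) z
        have := mul_le_mul_of_nonneg_left this (by positivity : 0 ≤ 1 / T)
        linarith) hRt
      (fun n z i => by
        simp only [trans_smul]
        have h5 := hor_stage (tail_pos hT h0 (n + 1)) (h0 n) (h1 n) z i
        rw [← tail_succ hT n] at h5
        have h6 := mul_le_mul_of_nonneg_left h5 (by positivity : 0 ≤ 1 / T)
        refine le_trans (le_of_eq ?_) h6
        rw [mul_sum]
        refine sum_congr rfl fun j _ => ?_
        unfold horW; ring) σ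
    simp only [phi] at this
    rwa [hgoal0] at this
  -- player 1
  have hlow : ∀ τ', 8 / 1000 ≤ payoff game h (horW T h) law waitS τ' := by
    intro τ'
    have := lower_total h0' h1 w0 hw (fun _ _ i => if i then 0 else 1) waitS (fun _ _ _ => rfl)
      (fun n z => 1 / T * (tail h n * (match z with | .gate => 8 / 1000 | _ => -1)))
      (fun n => 1 / T * tail h n)
      (fun n z => by
        have h5 : tail h n * (match z with | .gate => 8 / 1000 | _ => -1) ≤ tail h n := by
          have := tail_pos hT h0 n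
          cases z <;> simp only <;> linarith
        exact mul_le_mul_of_nonneg_left h5 (by positivity : 0 ≤ 1 / T)) hRt
      (fun n z j => by
        simp only [trans_smul]
        rw [tail_succ hT n, Fintype.sum_bool]
        have h5 := tail_pos hT h0 (n + 1)
        have h6 := h0 n
        have h7 := h1 n
        have h8 : ∀ a b : ℝ, a ≤ b → 1 / T * a ≤ 1 / T * b := fun a b hab =>
          mul_le_mul_of_nonneg_left hab (by positivity)
        unfold horW
        cases z with
        | gate =>
          simp only [gz, trans]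
          refine le_trans (h8 _ (h n * (8 / 1000) + tail h (n + 1) * (8 / 1000)) (by linarith)) ?_
          refine le_of_eq ?_
          norm_num
          ring
        | A =>
          cases j <;> simp only [gz, trans] <;>
          · refine le_trans (h8 _ (h n * 0 + tail h (n + 1) * (-1)) (by linarith)) ?_
            refine le_of_eq ?_
            norm_num
            ring
        | B k =>
          cases j <;> simp only [gz, trans] <;>
          · refine le_trans (h8 _ (h n * (99 / 100) + tail h (n + 1) * (-1)) (by linarith)) ?_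
            refine le_of_eq ?_
            norm_num
            ring
        | top =>
          cases j <;> simp only [gz, trans] <;>
          · refine le_trans (h8 _ (h n * 1 + tail h (n + 1) * (-1)) (by linarith)) ?_
            refine le_of_eq ?_
            norm_num
            ring
        | bot =>
          cases j <;> simp only [gz, trans] <;>
          · refine le_trans (h8 _ (h n * (-1) + tail h (n + 1) * (-1)) (by linarith)) ?_
            refine le_of_eq ?_
            norm_num
            ring) τ'
    simp only [] at this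
    rw [show tail h 0 * (8 / 1000) = 8 / 1000 * tail h 0 by ring, hgoal0] at this
    exact this
  obtain ⟨a1, a2⟩ := val_ge h0' h1 w0 hw waitS _ hlow
  obtain ⟨b1, b2⟩ := val_le h0' h1 w0 hw τ _ hup
  exact ⟨le_antisymm b1 a1, le_antisymm b2 a2⟩

end horizon

end Pool.Agent.H65.TG
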