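import Pool.Agent.H65.TWInd

/-!
From tree decompositions and excluded cycle lengths to the hypotheses of the induction.
-/

namespace H65TW

open Relation Finset Classical H65PW

universe u

/-- `G` has a tree decomposition of width at most `k`: a tree `T` with a bag `B i` of at most
`k + 1` vertices for every node `i`, such that every vertex is in a bag, the ends of every edge
are in a common bag, and the nodes whose bags contain a given vertex induce a connected
subgraph of `T`. -/
def TreewidthLE {V : Type u} (G : SimpleGraph V) (k : ℕ) : Prop :=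
  ∃ (ι : Type) (T : SimpleGraph ι) (B : ι → Finset V), T.IsTree ∧
    (∀ v, ∃ i, v ∈ B i) ∧
    (∀ u v, G.Adj u v → ∃ i, u ∈ B i ∧ v ∈ B i) ∧
    (∀ v, (T.induce {i | v ∈ B i}).Preconnected) ∧
    (∀ i, (B i).card ≤ k + 1)

section Tree

variable {ι : Type} {T : SimpleGraph ι}

theorem parent_unique (hT : T.IsTree) (r : ι) {a b b' : ι} (h : T.Adj a b) (h' : T.Adj a b')
    (hd : T.dist r a = T.dist r b + 1) (hd' : T.dist r a = T.dist r b' + 1) : b = b' := by
  obtain ⟨q, hq, _⟩ := (hT.connected r a).exists_path_of_dist
  have key : ∀ x, T.Adj a x → T.dist r a = T.dist r x + 1 → x = q.penultimate := by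
    intro x hx hdx
    obtain ⟨p, hp, hpl⟩ := (hT.connected r x).exists_path_of_dist
    have hxq : x ∈ q.support := by
      by_contra hn
      have h1 := hT.isAcyclic.mem_support_of_ne_mem_support_of_adj_of_isPath hp hq hx.symm hn
      have h2 : T.dist r a ≤ (p.takeUntil a h1).length := SimpleGraph.dist_le _
      have h3 := p.length_takeUntil_le_length h1
      omega
    exact hT.isAcyclic.eq_penultimate_of_adj_end hq hx hxq
  rw [key b h hd, key b' h' hd']

theorem exists_parent (hT : T.IsTree) (r : ι) {a : ι} (ha : a ≠ r) :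
    ∃ b, T.Adj a b ∧ T.dist r a = T.dist r b + 1 := by
  obtain ⟨p, hp, hpl⟩ := (hT.connected r a).exists_path_of_dist
  have hnil : ¬ p.Nil := by
    intro h
    exact ha h.eq.symm
  refine ⟨p.penultimate, (p.adj_penultimate hnil).symm, ?_⟩
  have h1 : T.dist r p.penultimate ≤ p.dropLast.length := SimpleGraph.dist_le _
  have h2 : p.dropLast.length + 1 = p.length := by
    have h3 := p.length_dropLast_add_one hnil
    exact h3
  rcases hT.dist_eq_dist_add_one_of_adj r (p.adj_penultimate hnil) with h | h
  · omega
  · exact h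

/-- Descendants. -/
def Desc (T : SimpleGraph ι) (r : ι) : ι → ι → Prop :=
  ReflTransGen (fun a b => T.Adj a b ∧ T.dist r b = T.dist r a + 1)

theorem desc_dist {r i j : ι} (h : Desc T r i j) : i = j ∨ T.dist r i < T.dist r j := by
  induction h with
  | refl => exact Or.inl rfl
  | @tail b c _ hbc ih =>
    right
    rcases ih with rfl | ih
    · omega
    · omega

/-- A connected set of nodes is closed under parents, except at its top node. -/
theorem parent_mem (hT : T.IsTree) (r : ι) {I : Set ι} (hI : (T.induce I).Preconnected)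
    {top i j : ι} (htop : top ∈ I) (hmin : ∀ i ∈ I, T.dist r top ≤ T.dist r i) (hi : i ∈ I)
    (hne : i ≠ top) (hij : T.Adj i j) (hd : T.dist r i = T.dist r j + 1) : j ∈ I := by
  by_contra hj
  have h1 : ReflTransGen (T.induce I).Adj ⟨i, hi⟩ ⟨top, htop⟩ :=
    (SimpleGraph.reachable_iff_reflTransGen _ _).mp (hI _ _)
  have h2 : ReflTransGen (fun a b => T.Adj a b ∧ b ∈ I) i top := by
    refine ReflTransGen.lift (r := (T.induce I).Adj) Subtype.val ?_ _ _ h1
    intro a b hab
    exact ⟨by simpa using hab, b.2⟩
  have h3 : Desc T r i top := by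
    clear h1 htop hmin hne
    induction h2 with
    | refl => exact ReflTransGen.refl
    | @tail a b _ hab ih =>
      rcases hT.dist_eq_dist_add_one_of_adj r hab.1 with h | h
      · -- `b` is the parent of `a`
        rcases ReflTransGen.cases_tail ih with h4 | ⟨a', h4, h5⟩
        · exfalso
          subst h4
          have h6 := parent_unique hT r hij hab.1 hd h
          exact hj (h6 ▸ hab.2)
        · have h6 := parent_unique hT r h5.1.symm hab.1 h5.2 h
          rw [← h6]
          exact h4
      · exact ReflTransGen.tail ih ⟨hab.1, h⟩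
  rcases desc_dist h3 with h4 | h4
  · exact hne h4
  · have := hmin i hi
    omega

end Tree

section Conv

variable {V : Type u}

theorem exists_top {ι : Type} (T : SimpleGraph ι) (r : ι) (I : Set ι) (hI : I.Nonempty) :
    ∃ top ∈ I, ∀ i ∈ I, T.dist r top ≤ T.dist r i := by
  obtain ⟨i0, hi0⟩ := hI
  have hex : ∃ d, ∃ i ∈ I, T.dist r i = d := ⟨_, i0, hi0, rfl⟩
  obtain ⟨top, htop, hd⟩ := Nat.find_spec hex
  refine ⟨top, htop, fun i hi => ?_⟩
  rw [hd]
  exact Nat.find_min' hex ⟨i, hi, rfl⟩

/-- The graph of pairs sharing a bag. -/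
def bagGraph {ι : Type} (B : ι → Finset V) : SimpleGraph V where
  Adj u v := u ≠ v ∧ ∃ i, u ∈ B i ∧ v ∈ B i
  symm := ⟨by rintro u v ⟨h, i, h1, h2⟩; exact ⟨h.symm, i, h2, h1⟩⟩
  loopless := ⟨by rintro u ⟨h, _⟩; exact h rfl⟩

theorem exists_elim [Fintype V] {G : SimpleGraph V} {k : ℕ} (h : TreewidthLE G k) :
    ∃ (H : SimpleGraph V) (f : V → ℕ), G ≤ H ∧ Elim H f k := by
  obtain ⟨ι, T, B, hT, hcov, hedge, hconn, hcard⟩ := h
  obtain ⟨r⟩ := hT.connected.nonempty
  choose top htop hmin using fun v => exists_top T r {i | v ∈ B i} (hcov v)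
  have htopB : ∀ v, v ∈ B (top v) := htop
  -- the key containment
  have hkey : ∀ u v, T.dist r (top u) ≤ T.dist r (top v) →
      ∀ n j, T.dist r j = n → u ∈ B j → v ∈ B j → u ∈ B (top v) := by
    intro u v huv n
    induction n with
    | zero =>
      intro j hj hu hv
      have h1 : T.dist r (top v) ≤ T.dist r j := hmin v j hv
      have h2 : j = r := ((hT.connected r j).dist_eq_zero_iff.mp hj).symm
      have h3 : top v = r := ((hT.connected r (top v)).dist_eq_zero_iff.mp (by omega)).symm
      rw [h3, ← h2]
      exact hu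
    | succ n ih =>
      intro j hj hu hv
      by_cases hjv : j = top v
      · rw [← hjv]; exact hu
      · have hjr : j ≠ r := by
          rintro rfl
          simp at hj
        obtain ⟨j', hadj, hd⟩ := exists_parent hT r hjr
        have hv' : v ∈ B j' := parent_mem hT r (hconn v) (htop v) (hmin v) hv hjv hadj hd
        have h1 : T.dist r (top v) ≤ T.dist r j' := hmin v j' hv'
        have hju : j ≠ top u := by
          rintro rfl
          omega
        have hu' : u ∈ B j' := parent_mem hT r (hconn u) (htop u) (hmin u) hu hju hadj hd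
        exact ih j' (by omega) hu' hv'
  set e := Fintype.equivFin V
  set f : V → ℕ := fun v => T.dist r (top v) * (Fintype.card V + 1) + (e v : ℕ) with hf
  have hfv : ∀ v, f v = T.dist r (top v) * (Fintype.card V + 1) + (e v : ℕ) := fun v => rfl
  have hlt : ∀ u v, f u ≤ f v → T.dist r (top u) ≤ T.dist r (top v) := by
    intro u v huv
    by_contra hcon
    rw [hfv, hfv] at huv
    have h1 := (e v).isLt
    have h2 : (T.dist r (top v) + 1) * (Fintype.card V + 1) ≤
        T.dist r (top u) * (Fintype.card V + 1) := Nat.mul_le_mul_right _ (by omega)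
    rw [Nat.add_mul] at h2
    omega
  have hback : ∀ u v, (bagGraph B).Adj u v → f u < f v → u ∈ B (top v) := by
    rintro u v ⟨_, j, hu, hv⟩ huv
    exact hkey u v (hlt u v huv.le) _ j rfl hu hv
  refine ⟨bagGraph B, f, ?_, ?_, ?_, ?_⟩
  · intro u v huv
    exact ⟨huv.ne, hedge u v huv⟩
  · intro u v huv
    have h1 := hlt u v huv.le
    have h2 := hlt v u huv.ge
    have h3 : T.dist r (top u) = T.dist r (top v) := le_antisymm h1 h2
    rw [hfv, hfv, h3] at huv
    have h4 : (e u : ℕ) = (e v : ℕ) := by omega
    exact e.injective (Fin.ext h4)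
  · intro v a b ha hfa hb hfb hab
    exact ⟨hab, top v, hback a v ha hfa, hback b v hb hfb⟩
  · intro v
    have hsub : back (bagGraph B) f v ⊆ (B (top v)).erase v := by
      intro u hu
      rw [mem_back] at hu
      rw [Finset.mem_erase]
      exact ⟨hu.1.ne, hback u v hu.1 hu.2⟩
    have h1 := Finset.card_le_card hsub
    rw [Finset.card_erase_of_mem (htopB v)] at h1
    have h2 := hcard (top v)
    omega

end Conv

end H65TW
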