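import Pool.Agent.H65.TWMain

/-!
The main induction.
-/

namespace H65TW

open Relation Finset Classical H65PW

universe u

variable {V : Type u}

/-- Separation property. -/
def Sep (G : SimpleGraph V) (c1 c2 : ℕ) : Prop :=
  ∀ X : Finset V, X.card ≤ c1 + 2 * (c1 * c1) + 1 → ∃ Y : Finset V, X ⊆ Y ∧ Y.card ≤ c2 ∧
    ∀ K : Finset V, Disjoint K Y → (∀ u ∈ K, ∀ v ∈ K, Reach G K u v) →
      (Y.filter (fun y => ∃ v ∈ K, G.Adj y v)).card ≤ c1

/-- The final bound. -/
def bnd (c1 c2 : ℕ) : ℕ := c2 + (c1 + c2) * (c1 + c2) * c2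

theorem main {G : SimpleGraph V} (hG : Good G) {c1 c2 : ℕ} (hS : Sep G c1 c2) :
    ∀ (n : ℕ) (K : Finset V), K.card ≤ n → ∀ (P M : Finset V) (s : Bool) (c0 : V → Bool),
      Piece G K P M s c0 c1 →
      ∃ c : V → Bool, (∀ v, v ∉ K → c v = c0 v) ∧ Rules G K P M s c c2 (bnd c1 c2) := by
  intro n
  induction n with
  | zero =>
    intro K hK P M s c0 _
    have hKe : K = ∅ := Finset.card_eq_zero.mp (by omega)
    subst hKe
    exact ⟨c0, fun v _ => rfl, ⟨⟨by simp, by simp, by simp⟩, by simp, by simp⟩⟩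
  | succ n ih =>
    intro K hK P M s c0 hPc
    rcases K.eq_empty_or_nonempty with hKe | ⟨v0, hv0⟩
    · subst hKe
      exact ⟨c0, fun v _ => rfl, ⟨⟨by simp, by simp, by simp⟩, by simp, by simp⟩⟩
    -- the central part
    set A := P ∪ M with hA
    have hKA : ∀ v ∈ K, v ∉ A := by
      intro v hv hvA
      rw [hA, Finset.mem_union] at hvA
      rcases hvA with h | h
      · exact hPc.dP v hv h
      · exact hPc.dM v hv h
    have hX : (insert v0 (A ∪ CK G K A)).card ≤ c1 + 2 * (c1 * c1) + 1 := by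
      have h1 := Finset.card_insert_le v0 (A ∪ CK G K A)
      have h2 := Finset.card_union_le A (CK G K A)
      have h3 := card_CK hG hKA hPc.card
      have h4 : A.card ≤ c1 := hPc.card
      omega
    obtain ⟨Y, hXY, hYc, hYsep⟩ := hS _ hX
    have hv0Y : v0 ∈ Y := hXY (Finset.mem_insert_self _ _)
    have hAY : ∀ x ∈ A, x ∈ Y := fun x hx =>
      hXY (Finset.mem_insert_of_mem (Finset.mem_union_left _ hx))
    have hCY : ∀ x ∈ CK G K A, x ∈ Y := fun x hx =>
      hXY (Finset.mem_insert_of_mem (Finset.mem_union_right _ hx))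
    set Z := K.filter (fun v => v ∈ Y) with hZ
    set W := K.filter (fun v => v ∉ Y) with hW
    have memZ : ∀ {v}, v ∈ Z ↔ v ∈ K ∧ v ∈ Y := by intro v; rw [hZ, Finset.mem_filter]
    have memW : ∀ {v}, v ∈ W ↔ v ∈ K ∧ v ∉ Y := by intro v; rw [hW, Finset.mem_filter]
    have hZc : Z.card ≤ c2 := (Finset.card_le_card (fun v hv => (memZ.mp hv).2)).trans hYc
    -- the colouring outside `W`
    set cA : V → Bool := fun v => if v ∈ Z then cZ G P M s c0 v else c0 v with hcA
    have hcAZ : ∀ v ∈ Z, cA v = cZ G P M s c0 v := by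
      intro v hv; rw [hcA]; simp only; rw [if_pos hv]
    have hcAn : ∀ v, v ∉ Z → cA v = c0 v := by
      intro v hv; rw [hcA]; simp only; rw [if_neg hv]
    have hcAA : ∀ v ∈ A, cA v = c0 v := fun v hv => hcAn v (fun h => hKA v (memZ.mp h).1 hv)
    -- pieces
    set PP : Finset V → Finset V := fun K' => A.filter (fun y => ∃ v ∈ K', G.Adj y v) with hPP
    set MM : Finset V → Finset V := fun K' => Z.filter (fun y => ∃ v ∈ K', G.Adj y v) with hMM
    have memPP : ∀ {K' y}, y ∈ PP K' ↔ y ∈ A ∧ ∃ v ∈ K', G.Adj y v := by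
      intro K' y; rw [hPP]; simp only; rw [Finset.mem_filter]
    have memMM : ∀ {K' y}, y ∈ MM K' ↔ y ∈ Z ∧ ∃ v ∈ K', G.Adj y v := by
      intro K' y; rw [hMM]; simp only; rw [Finset.mem_filter]
    have hcompW : ∀ {w v}, v ∈ comp G W w → v ∈ W := fun h => (mem_comp.mp h).1
    have hone : ∀ v ∈ W, ∀ x ∈ A, ∀ x' ∈ A, G.Adj v x → G.Adj v x' → x = x' := by
      intro v hv x hx x' hx' h1 h2
      by_contra hne
      refine (memW.mp hv).2 (hCY v ?_)
      rw [CK, Finset.mem_union]
      left
      rw [Finset.mem_filter]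
      exact ⟨(memW.mp hv).1, x, hx, x', hx', hne, h1, h2⟩
    have hwal : ∀ v ∈ W, ∀ y ∈ Z, G.Adj v y → cA y = !s → ∀ x ∈ A, ¬ G.Adj v x := by
      intro v hv y hy hvy hcy x hx hvx
      rw [hcAZ y hy, cZ] at hcy
      have hyx : ∃ x' ∈ A, G.Adj y x' := by
        by_cases h1 : ∃ x ∈ P, G.Adj y x
        · obtain ⟨x', hx', h⟩ := h1
          exact ⟨x', Finset.mem_union_left _ hx', h⟩
        · by_cases h2 : ∃ y' ∈ M, G.Adj y y' ∧ c0 y' = s
          · obtain ⟨x', hx', h, _⟩ := h2
            exact ⟨x', Finset.mem_union_right _ hx', h⟩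
          · rw [dif_neg h1, if_neg h2] at hcy
            cases s <;> simp at hcy
      obtain ⟨x', hx', hyx'⟩ := hyx
      refine (memW.mp hv).2 (hCY v ?_)
      rw [CK, Finset.mem_union]
      right
      rw [Finset.mem_filter]
      exact ⟨(memW.mp hv).1, x, hx, x', hx', y, (memZ.mp hy).1, hvx, hvy, hyx'⟩
    have hpiece : ∀ w ∈ W, Piece G (comp G W w) (PP (comp G W w)) (MM (comp G W w)) (!s) cA c1 := by
      intro w hw
      refine ⟨?_, ?_, ?_, ?_, ?_, ?_⟩
      · intro v hv x hvx
        have hvW := hcompW hv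
        have hcase : x ∈ K ∨ x ∈ A := by
          rcases hPc.nb v (memW.mp hvW).1 x hvx with h | h | h
          · exact Or.inl h
          · exact Or.inr (Finset.mem_union_left _ h)
          · exact Or.inr (Finset.mem_union_right _ h)
        rcases hcase with h | h
        · by_cases hxY : x ∈ Y
          · right; right
            exact memMM.mpr ⟨memZ.mpr ⟨h, hxY⟩, v, hv, hvx.symm⟩
          · left
            rw [mem_comp] at hv ⊢
            exact ⟨memW.mpr ⟨h, hxY⟩, hv.2.tail ⟨hv.1, memW.mpr ⟨h, hxY⟩, hvx⟩⟩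
        · right; left
          exact memPP.mpr ⟨h, v, hv, hvx.symm⟩
      · intro v hv hvP
        exact hKA v (memW.mp (hcompW hv)).1 (memPP.mp hvP).1
      · intro v hv hvM
        exact (memW.mp (hcompW hv)).2 (memZ.mp (memMM.mp hvM).1).2
      · refine le_trans (Finset.card_le_card ?_) (hYsep (comp G W w) ?_ comp_conn)
        · intro y hy
          rw [Finset.mem_union, memPP, memMM] at hy
          rw [Finset.mem_filter]
          rcases hy with h | h
          · exact ⟨hAY y h.1, h.2⟩
          · exact ⟨(memZ.mp h.1).2, h.2⟩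
        · rw [Finset.disjoint_left]
          intro v hv hvY
          exact (memW.mp (hcompW hv)).2 hvY
      · intro v hv x hx x' hx' h1 h2
        exact hone v (hcompW hv) x (memPP.mp hx).1 x' (memPP.mp hx').1 h1 h2
      · intro v hv y hy hvy hcy x hx
        exact hwal v (hcompW hv) y (memMM.mp hy).1 hvy hcy x (memPP.mp hx).1
    -- colour the pieces
    have hex : ∀ K' : Finset V, ∃ c : V → Bool, (∃ w ∈ W, K' = comp G W w) →
        (∀ v, v ∉ K' → c v = cA v) ∧ Rules G K' (PP K') (MM K') (!s) c c2 (bnd c1 c2) := by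
      intro K'
      by_cases h : ∃ w ∈ W, K' = comp G W w
      · obtain ⟨w, hw, rfl⟩ := h
        have hcard : (comp G W w).card ≤ n := by
          have h1 : comp G W w ⊆ K.erase v0 := by
            intro v hv
            rw [Finset.mem_erase]
            have h2 := memW.mp (hcompW hv)
            exact ⟨fun h => h2.2 (h ▸ hv0Y), h2.1⟩
          have h2 := Finset.card_le_card h1
          rw [Finset.card_erase_of_mem hv0] at h2
          omega
        obtain ⟨c, hc⟩ := ih (comp G W w) hcard _ _ _ cA (hpiece w hw)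
        exact ⟨c, fun _ => hc⟩
      · exact ⟨c0, fun h' => absurd h' h⟩
    choose cc hcc using hex
    set c : V → Bool := fun v => if v ∈ W then cc (comp G W v) v else cA v with hc
    have hcn : ∀ v, v ∉ W → c v = cA v := by
      intro v hv; rw [hc]; simp only; rw [if_neg hv]
    have hcW : ∀ w ∈ W, ∀ v ∈ comp G W w, c v = cc (comp G W w) v := by
      intro w hw v hv
      rw [hc]; simp only
      rw [if_pos (hcompW hv), comp_eq hv]
    have hWA : ∀ v ∈ A, v ∉ W := fun v hv h => hKA v (memW.mp h).1 hv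
    have hWZ : ∀ v ∈ Z, v ∉ W := fun v hv h => (memW.mp h).2 (memZ.mp hv).2
    have hcA' : ∀ v ∈ A, c v = c0 v := fun v hv => (hcn v (hWA v hv)).trans (hcAA v hv)
    have hcZ' : ∀ v ∈ Z, c v = cZ G P M s c0 v := fun v hv =>
      (hcn v (hWZ v hv)).trans (hcAZ v hv)
    have hout : ∀ v, v ∉ K → c v = c0 v := by
      intro v hv
      rw [hcn v (fun h => hv (memW.mp h).1), hcAn v (fun h => hv (memZ.mp h).1)]
    have hpieceC : ∀ w ∈ W, Piece G (comp G W w) (PP (comp G W w)) (MM (comp G W w)) (!s) c c1 :=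
      fun w hw => (hpiece w hw).congr (fun y hy => (hcn y (hWZ y (memMM.mp hy).1)).symm)
    have hrules : ∀ w ∈ W, Rules G (comp G W w) (PP (comp G W w)) (MM (comp G W w)) (!s) c c2
        (bnd c1 c2) := by
      intro w hw
      obtain ⟨h1, h2⟩ := hcc (comp G W w) ⟨w, hw, rfl⟩
      refine h2.congr ?_ ?_ ?_
      · intro v hv
        exact (hcW w hw v hv).symm
      · intro v hv
        rw [h1 v (fun h => (hpiece w hw).dP v h hv), hcn v (hWA v (memPP.mp hv).1)]
      · intro v hv
        rw [h1 v (fun h => (hpiece w hw).dM v h hv), hcn v (hWZ v (memMM.mp hv).1)]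
    -- crossing edges
    have hcross : ∀ t ∈ W, ∀ y ∈ Z, G.Adj t y → c t = c y →
        c y = s ∧ (Clus G c (comp G W t) t).card ≤ c2 ∧ ∃ x ∈ A ∪ Z, x ≠ y ∧ G.Adj t x := by
      intro t ht y hy hty hcol
      have hyM : y ∈ MM (comp G W t) := memMM.mpr ⟨hy, t, self_mem_comp ht, hty.symm⟩
      obtain ⟨h1, x, hx, hne, htx⟩ := mono_attach (hpieceC t ht) (hrules t ht).loc
        (self_mem_comp ht) hyM hty hcol
      refine ⟨by simpa using h1, (hrules t ht).near t (self_mem_comp ht) y hyM hty hcol,
        x, ?_, hne, htx⟩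
      rw [Finset.mem_union]
      rcases hx with h | h
      · exact Or.inl (memPP.mp h).1
      · exact Or.inr (memMM.mp h).1
    have hadjA : ∀ v ∈ W, ∀ x ∈ A, G.Adj v x → c v = !c x := by
      intro v hv x hx hvx
      exact (hrules v hv).loc.r1 v (self_mem_comp hv) x
        (memPP.mpr ⟨hx, v, self_mem_comp hv, hvx.symm⟩) hvx
    have hcP : ∀ x ∈ P, c x = c0 x := fun x hx => hcA' x (Finset.mem_union_left _ hx)
    have hcM : ∀ x ∈ M, c x = c0 x := fun x hx => hcA' x (Finset.mem_union_right _ hx)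
    have hloc : Rules0 G K P M s c := by
      refine ⟨?_, ?_, ?_⟩
      · intro v hv x hx hvx
        by_cases hvY : v ∈ Y
        · have hvZ : v ∈ Z := memZ.mpr ⟨hv, hvY⟩
          have hex : ∃ x ∈ P, G.Adj v x := ⟨x, hx, hvx⟩
          rw [hcZ' v hvZ, cZ, dif_pos hex, hcP x hx]
          have h1 := hex.choose_spec
          rw [hPc.one v hv _ h1.1 x hx h1.2 hvx]
        · exact hadjA v (memW.mpr ⟨hv, hvY⟩) x (Finset.mem_union_left _ hx) hvx
      · rintro v hv hno ⟨y, hy, hvy, hys⟩
        by_cases hvY : v ∈ Y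
        · have hvZ : v ∈ Z := memZ.mpr ⟨hv, hvY⟩
          have h1 : ¬ ∃ x ∈ P, G.Adj v x := by
            rintro ⟨x, hx, h⟩; exact hno x hx h
          rw [hcZ' v hvZ, cZ, dif_neg h1, if_pos ⟨y, hy, hvy, by rw [← hcM y hy]; exact hys⟩]
        · rw [hadjA v (memW.mpr ⟨hv, hvY⟩) y (Finset.mem_union_right _ hy) hvy, hys]
      · rintro v hv hno ⟨y, hy, hvy⟩ hall
        by_cases hvY : v ∈ Y
        · have hvZ : v ∈ Z := memZ.mpr ⟨hv, hvY⟩
          have h1 : ¬ ∃ x ∈ P, G.Adj v x := by
            rintro ⟨x, hx, h⟩; exact hno x hx h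
          have h2 : ¬ ∃ y ∈ M, G.Adj v y ∧ c0 y = s := by
            rintro ⟨y', hy', h, hs⟩
            have := hall y' hy' h
            rw [hcM y' hy', hs] at this
            cases s <;> simp at this
          rw [hcZ' v hvZ, cZ, dif_neg h1, if_neg h2]
        · rw [hadjA v (memW.mpr ⟨hv, hvY⟩) y (Finset.mem_union_right _ hy) hvy, hall y hy hvy]
          simp
    have hPcC : Piece G K P M s c c1 := hPc.congr (fun y hy => (hcM y hy).symm)
    have hnear : ∀ v ∈ K, ∀ y ∈ M, G.Adj v y → c v = c y → (Clus G c K v).card ≤ c2 := by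
      intro v hv y hy hvy hcol
      obtain ⟨h1, x, hx, hne, hvx⟩ := mono_attach hPcC hloc hv hy hvy hcol
      have hvZ : v ∈ Z := by
        refine memZ.mpr ⟨hv, hCY v ?_⟩
        rw [CK, Finset.mem_union]
        left
        rw [Finset.mem_filter]
        exact ⟨hv, x, Finset.mem_union.mpr hx, y, Finset.mem_union_right _ hy, hne, hvx, hvy⟩
      refine (Finset.card_le_card ?_).trans hZc
      intro w hw
      have hr := (mem_Clus.mp hw).2
      clear hw
      induction hr with
      | refl => exact hvZ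
      | @tail a b hva hab iha =>
        by_cases hbY : b ∈ Y
        · exact memZ.mpr ⟨hab.2.1, hbY⟩
        · exfalso
          have h2 := (hcross b (memW.mpr ⟨hab.2.1, hbY⟩) a iha hab.2.2.1.symm
            hab.2.2.2.symm).1
          rw [← mono_color hva, hcol, h1] at h2
          cases s <;> simp at h2
    have hclus : ∀ v ∈ K, (Clus G c K v).card ≤ bnd c1 c2 := by
      intro v hv
      by_cases hcase : ∃ z ∈ Z, ReflTransGen (Mono G c K) v z
      · obtain ⟨z, hz, hvz⟩ := hcase
        set T := W.filter (fun t => ∃ y ∈ Z, G.Adj t y ∧ c t = c y) with hT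
        have hTc : T.card ≤ (c1 + c2) * (c1 + c2) := by
          have h1 : T.card ≤ ((A ∪ Z) ×ˢ (A ∪ Z)).card := by
            refine Finset.card_le_card_of_forall_subsingleton
              (fun t p => p.1 ≠ p.2 ∧ G.Adj t p.1 ∧ G.Adj t p.2) ?_ ?_
            · intro t ht
              rw [hT, Finset.mem_filter] at ht
              obtain ⟨htW, y, hy, hty, hcol⟩ := ht
              obtain ⟨_, _, x, hx, hne, htx⟩ := hcross t htW y hy hty hcol
              exact ⟨(x, y), by simp only [Finset.mem_product]; exact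
                ⟨hx, Finset.mem_union_right _ hy⟩, hne, htx, hty⟩
            · rintro ⟨x, x'⟩ _ t ⟨_, hne, h1, h2⟩ t' ⟨_, _, h1', h2'⟩
              exact hG.c4 x x' t t' hne h1 h2 h1' h2'
          have h2 : (A ∪ Z).card ≤ c1 + c2 :=
            (Finset.card_union_le _ _).trans (Nat.add_le_add hPc.card hZc)
          rw [Finset.card_product] at h1
          exact h1.trans (Nat.mul_le_mul h2 h2)
        have hsub : Clus G c K v ⊆ Z ∪ T.biUnion (fun t => Clus G c (comp G W t) t) := by
          intro w hw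
          have hzw : ReflTransGen (Mono G c K) z w := (mono_symm hvz).trans (mem_Clus.mp hw).2
          have key : w ∈ Z ∨ ∃ t ∈ T, w ∈ Clus G c (comp G W t) t := by
            clear hw
            induction hzw with
            | refl => exact Or.inl hz
            | @tail a b _ hab iha =>
              by_cases hbY : b ∈ Y
              · exact Or.inl (memZ.mpr ⟨hab.2.1, hbY⟩)
              · right
                have hbW : b ∈ W := memW.mpr ⟨hab.2.1, hbY⟩
                rcases iha with haZ | ⟨t, ht, hta⟩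
                · refine ⟨b, ?_, mem_Clus.mpr ⟨self_mem_comp hbW, ReflTransGen.refl⟩⟩
                  rw [hT, Finset.mem_filter]
                  exact ⟨hbW, a, haZ, hab.2.2.1.symm, hab.2.2.2.symm⟩
                · rw [mem_Clus] at hta
                  have hbc : b ∈ comp G W t := by
                    have h := mem_comp.mp hta.1
                    exact mem_comp.mpr ⟨hbW, h.2.tail ⟨h.1, hbW, hab.2.2.1⟩⟩
                  exact ⟨t, ht, mem_Clus.mpr ⟨hbc, hta.2.tail ⟨hta.1, hbc, hab.2.2.1,
                    hab.2.2.2⟩⟩⟩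
          rw [Finset.mem_union, Finset.mem_biUnion]
          exact key
        refine (Finset.card_le_card hsub).trans ((Finset.card_union_le _ _).trans ?_)
        rw [bnd]
        refine Nat.add_le_add hZc ?_
        refine (Finset.card_biUnion_le_card_mul _ _ c2 ?_).trans (Nat.mul_le_mul_right _ hTc)
        intro t ht
        rw [hT, Finset.mem_filter] at ht
        obtain ⟨htW, y, hy, hty, hcol⟩ := ht
        exact (hcross t htW y hy hty hcol).2.1
      · push Not at hcase
        have hvW : v ∈ W := by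
          refine memW.mpr ⟨hv, fun hvY => ?_⟩
          exact hcase v (memZ.mpr ⟨hv, hvY⟩) ReflTransGen.refl
        refine (Finset.card_le_card ?_).trans ((hrules v hvW).clus v (self_mem_comp hvW))
        intro w hw
        have hr := (mem_Clus.mp hw).2
        clear hw
        induction hr with
        | refl => exact mem_Clus.mpr ⟨self_mem_comp hvW, ReflTransGen.refl⟩
        | @tail a b hva hab iha =>
          rw [mem_Clus] at iha
          have hbW : b ∈ W := by
            refine memW.mpr ⟨hab.2.1, fun hbY => ?_⟩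
            exact hcase b (memZ.mpr ⟨hab.2.1, hbY⟩) (hva.tail hab)
          have hbc : b ∈ comp G W v := by
            have h := mem_comp.mp iha.1
            exact mem_comp.mpr ⟨hbW, h.2.tail ⟨h.1, hbW, hab.2.2.1⟩⟩
          exact mem_Clus.mpr ⟨hbc, iha.2.tail ⟨iha.1, hbc, hab.2.2.1, hab.2.2.2⟩⟩
    exact ⟨c, hout, ⟨hloc, hnear, hclus⟩⟩

end H65TW
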