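import Pool.Agent.H65.TWOrd

/-!
The main induction: recursive colouring of a piece `K` with old attachments `P` and new
attachments `M`.
-/

namespace H65TW

open Relation Finset Classical H65PW

universe u

variable {V : Type u}

/-- The monochromatic cluster of `u` in `K`. -/
noncomputable def Clus (G : SimpleGraph V) (c : V → Bool) (K : Finset V) (u : V) : Finset V :=
  K.filter (fun v => ReflTransGen (Mono G c K) u v)

theorem mem_Clus {G : SimpleGraph V} {c : V → Bool} {K : Finset V} {u v : V} :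
    v ∈ Clus G c K u ↔ v ∈ K ∧ ReflTransGen (Mono G c K) u v := by
  simp [Clus]

theorem mono_symm {G : SimpleGraph V} {c : V → Bool} {K : Finset V} {u v : V}
    (h : ReflTransGen (Mono G c K) u v) : ReflTransGen (Mono G c K) v u := by
  induction h with
  | refl => exact ReflTransGen.refl
  | tail _ h2 ih => exact ReflTransGen.head ⟨h2.2.1, h2.1, h2.2.2.1.symm, h2.2.2.2.symm⟩ ih

/-- Local rules satisfied by the colouring `c` of `K` with old attachments `P`, new attachments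
`M` and wall colour `s`. -/
structure Rules0 (G : SimpleGraph V) (K P M : Finset V) (s : Bool) (c : V → Bool) : Prop where
  r1 : ∀ v ∈ K, ∀ x ∈ P, G.Adj v x → c v = !c x
  r2 : ∀ v ∈ K, (∀ x ∈ P, ¬ G.Adj v x) → (∃ y ∈ M, G.Adj v y ∧ c y = s) → c v = !s
  r3 : ∀ v ∈ K, (∀ x ∈ P, ¬ G.Adj v x) → (∃ y ∈ M, G.Adj v y) →
    (∀ y ∈ M, G.Adj v y → c y = !s) → c v = s

/-- All rules. -/
structure Rules (G : SimpleGraph V) (K P M : Finset V) (s : Bool) (c : V → Bool)
    (c2 N : ℕ) : Prop where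
  loc : Rules0 G K P M s c
  near : ∀ v ∈ K, ∀ y ∈ M, G.Adj v y → c v = c y → (Clus G c K v).card ≤ c2
  clus : ∀ v ∈ K, (Clus G c K v).card ≤ N

/-- Hypotheses on a piece. -/
structure Piece (G : SimpleGraph V) (K P M : Finset V) (s : Bool) (c0 : V → Bool)
    (c1 : ℕ) : Prop where
  nb : ∀ v ∈ K, ∀ x, G.Adj v x → x ∈ K ∨ x ∈ P ∨ x ∈ M
  dP : ∀ v ∈ K, v ∉ P
  dM : ∀ v ∈ K, v ∉ M
  card : (P ∪ M).card ≤ c1
  one : ∀ v ∈ K, ∀ x ∈ P, ∀ x' ∈ P, G.Adj v x → G.Adj v x' → x = x'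
  wal : ∀ v ∈ K, ∀ y ∈ M, G.Adj v y → c0 y = s → ∀ x ∈ P, ¬ G.Adj v x

theorem Piece.congr {G : SimpleGraph V} {K P M : Finset V} {s : Bool} {c c' : V → Bool}
    {c1 : ℕ} (h : Piece G K P M s c c1) (hc : ∀ y ∈ M, c y = c' y) : Piece G K P M s c' c1 :=
  ⟨h.nb, h.dP, h.dM, h.card, h.one, fun v hv y hy hvy hs =>
    h.wal v hv y hy hvy ((hc y hy).trans hs)⟩

theorem Rules.congr {G : SimpleGraph V} {K P M : Finset V} {s : Bool} {c c' : V → Bool}
    {c2 N : ℕ} (h : Rules G K P M s c c2 N) (hK : ∀ v ∈ K, c v = c' v)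
    (hP : ∀ v ∈ P, c v = c' v) (hM : ∀ v ∈ M, c v = c' v) : Rules G K P M s c' c2 N := by
  have hmono : ∀ a b, Mono G c' K a b → Mono G c K a b := by
    rintro a b ⟨h1, h2, h3, h4⟩
    exact ⟨h1, h2, h3, by rw [hK a h1, hK b h2]; exact h4⟩
  have hclus : ∀ v, Clus G c' K v ⊆ Clus G c K v := by
    intro v w hw
    rw [mem_Clus] at hw ⊢
    exact ⟨hw.1, ReflTransGen.mono hmono _ _ hw.2⟩
  refine ⟨⟨?_, ?_, ?_⟩, ?_, ?_⟩
  · intro v hv x hx hvx
    rw [← hK v hv, ← hP x hx]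
    exact h.loc.r1 v hv x hx hvx
  · rintro v hv hx ⟨y, hy, hvy, hys⟩
    rw [← hK v hv]
    exact h.loc.r2 v hv hx ⟨y, hy, hvy, by rw [hM y hy]; exact hys⟩
  · rintro v hv hx hy hall
    rw [← hK v hv]
    exact h.loc.r3 v hv hx hy (fun y hy hvy => by rw [hM y hy]; exact hall y hy hvy)
  · intro v hv y hy hvy hcol
    exact (Finset.card_le_card (hclus v)).trans
      (h.near v hv y hy hvy (by rw [hK v hv, hM y hy]; exact hcol))
  · intro v hv
    exact (Finset.card_le_card (hclus v)).trans (h.clus v hv)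

/-- A vertex with a neighbour in `M` of its own colour has a second attachment, and the colour
is not the wall colour. -/
theorem mono_attach {G : SimpleGraph V} {K P M : Finset V} {s : Bool} {c : V → Bool}
    {c1 : ℕ} (hP : Piece G K P M s c c1) (hR : Rules0 G K P M s c) {v y : V}
    (hv : v ∈ K) (hy : y ∈ M) (hadj : G.Adj v y) (hcol : c v = c y) :
    c y = !s ∧ ∃ x, (x ∈ P ∨ x ∈ M) ∧ x ≠ y ∧ G.Adj v x := by
  have h1 : c y = !s := by
    by_contra hne
    have h2 : c y = s := by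
      cases h : c y <;> cases h' : s <;> simp [h, h'] at hne ⊢
    have h3 := hR.r2 v hv (hP.wal v hv y hy hadj h2) ⟨y, hy, hadj, h2⟩
    rw [hcol, h2] at h3
    cases s <;> simp at h3
  refine ⟨h1, ?_⟩
  by_cases hx : ∃ x ∈ P, G.Adj v x
  · obtain ⟨x, hx, hvx⟩ := hx
    refine ⟨x, Or.inl hx, ?_, hvx⟩
    rintro rfl
    have := hR.r1 v hv x hx hvx
    rw [hcol] at this
    cases h : c x <;> simp [h] at this
  · push Not at hx
    by_cases hy' : ∃ y' ∈ M, G.Adj v y' ∧ c y' = s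
    · obtain ⟨y', hy'M, hvy', hy's⟩ := hy'
      refine ⟨y', Or.inr hy'M, ?_, hvy'⟩
      rintro rfl
      rw [hy's] at h1
      cases s <;> simp at h1
    · exfalso
      push Not at hy'
      have h3 := hR.r3 v hv hx ⟨y, hy, hadj⟩ (fun y' hy'M hvy' => by
        have := hy' y' hy'M hvy'
        cases h : c y' <;> cases h' : s <;> simp [h, h'] at this ⊢)
      rw [hcol, h1] at h3
      cases s <;> simp at h3

/-- Vertices of `K` on short paths between attachments. -/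
noncomputable def CK (G : SimpleGraph V) (K A : Finset V) : Finset V :=
  K.filter (fun v => ∃ x ∈ A, ∃ x' ∈ A, x ≠ x' ∧ G.Adj v x ∧ G.Adj v x') ∪
  K.filter (fun v => ∃ x ∈ A, ∃ x' ∈ A, ∃ w ∈ K, G.Adj v x ∧ G.Adj v w ∧ G.Adj w x')

theorem card_CK {G : SimpleGraph V} (hG : Good G) {K A : Finset V} (hKA : ∀ v ∈ K, v ∉ A)
    {c1 : ℕ} (hA : A.card ≤ c1) : (CK G K A).card ≤ 2 * (c1 * c1) := by
  have hprod : (A ×ˢ A).card ≤ c1 * c1 := by
    rw [Finset.card_product]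
    exact Nat.mul_le_mul hA hA
  have h1 : (K.filter (fun v => ∃ x ∈ A, ∃ x' ∈ A, x ≠ x' ∧ G.Adj v x ∧ G.Adj v x')).card ≤
      (A ×ˢ A).card := by
    refine Finset.card_le_card_of_forall_subsingleton
      (fun v p => p.1 ≠ p.2 ∧ G.Adj v p.1 ∧ G.Adj v p.2) ?_ ?_
    · intro v hv
      rw [Finset.mem_filter] at hv
      obtain ⟨_, x, hx, x', hx', hne, h1, h2⟩ := hv
      exact ⟨(x, x'), by simp [hx, hx'], hne, h1, h2⟩
    · rintro ⟨x, x'⟩ _ v ⟨_, hne, h1, h2⟩ v' ⟨_, _, h1', h2'⟩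
      exact hG.c4 x x' v v' hne h1 h2 h1' h2'
  have h2 : (K.filter (fun v => ∃ x ∈ A, ∃ x' ∈ A, ∃ w ∈ K,
      G.Adj v x ∧ G.Adj v w ∧ G.Adj w x')).card ≤ (A ×ˢ A).card := by
    refine Finset.card_le_card_of_forall_subsingleton
      (fun v p => v ∈ K ∧ p.1 ∈ A ∧ p.2 ∈ A ∧ ∃ w ∈ K, G.Adj v p.1 ∧ G.Adj v w ∧ G.Adj w p.2)
      ?_ ?_
    · intro v hv
      rw [Finset.mem_filter] at hv
      obtain ⟨hvK, x, hx, x', hx', w, hw, h1, h2, h3⟩ := hv
      exact ⟨(x, x'), by simp [hx, hx'], hvK, hx, hx', w, hw, h1, h2, h3⟩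
    · rintro ⟨x, x'⟩ _ v ⟨_, hvK, hx, hx', w, hw, h1, h2, h3⟩
        v' ⟨_, hvK', _, _, w', hw', h1', h2', h3'⟩
      simp only at hx hx' h1 h3 h1' h3'
      have hne : ∀ a ∈ K, ∀ b ∈ A, a ≠ b := fun a ha b hb h => hKA a ha (h ▸ hb)
      exact (hG.p3 x x' v w v' w' h1.symm h2 h3 h1'.symm h2' h3' (hne _ hvK _ hx')
        (hne _ hvK' _ hx') (hne _ hw _ hx) (hne _ hw' _ hx)).1
  have h3 := Finset.card_union_le
    (K.filter (fun v => ∃ x ∈ A, ∃ x' ∈ A, x ≠ x' ∧ G.Adj v x ∧ G.Adj v x'))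
    (K.filter (fun v => ∃ x ∈ A, ∃ x' ∈ A, ∃ w ∈ K, G.Adj v x ∧ G.Adj v w ∧ G.Adj w x'))
  rw [CK]
  omega

/-- Colour of the vertices of the central part. -/
noncomputable def cZ (G : SimpleGraph V) (P M : Finset V) (s : Bool) (c0 : V → Bool) (v : V) :
    Bool :=
  if h : ∃ x ∈ P, G.Adj v x then !c0 h.choose
  else if ∃ y ∈ M, G.Adj v y ∧ c0 y = s then !s else s

/-- The component of `v` in `W`. -/
noncomputable def comp (G : SimpleGraph V) (W : Finset V) (v : V) : Finset V :=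
  W.filter (fun w => Reach G W v w)

theorem mem_comp {G : SimpleGraph V} {W : Finset V} {v w : V} :
    w ∈ comp G W v ↔ w ∈ W ∧ Reach G W v w := by
  simp [comp]

theorem reach_symm {G : SimpleGraph V} {W : Finset V} {u v : V} (h : Reach G W u v) :
    Reach G W v u := by
  induction h with
  | refl => exact ReflTransGen.refl
  | tail _ h2 ih => exact ReflTransGen.head ⟨h2.2.1, h2.1, h2.2.2.symm⟩ ih

theorem comp_eq {G : SimpleGraph V} {W : Finset V} {u v : V} (h : v ∈ comp G W u) :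
    comp G W v = comp G W u := by
  rw [mem_comp] at h
  ext w
  rw [mem_comp, mem_comp]
  constructor
  · rintro ⟨h1, h2⟩
    exact ⟨h1, ReflTransGen.trans h.2 h2⟩
  · rintro ⟨h1, h2⟩
    exact ⟨h1, ReflTransGen.trans (reach_symm h.2) h2⟩

theorem self_mem_comp {G : SimpleGraph V} {W : Finset V} {v : V} (h : v ∈ W) :
    v ∈ comp G W v := mem_comp.mpr ⟨h, ReflTransGen.refl⟩

theorem comp_conn {G : SimpleGraph V} {W : Finset V} {v : V} :
    ∀ a ∈ comp G W v, ∀ b ∈ comp G W v, Reach G (comp G W v) a b := by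
  have key : ∀ b, b ∈ comp G W v → Reach G (comp G W v) v b := by
    intro b hb
    rw [mem_comp] at hb
    obtain ⟨hbW, hr⟩ := hb
    clear hbW
    induction hr with
    | refl => exact ReflTransGen.refl
    | @tail x y hvx hxy ih =>
      refine ReflTransGen.tail ih ⟨?_, ?_, hxy.2.2⟩
      · exact mem_comp.mpr ⟨hxy.1, hvx⟩
      · exact mem_comp.mpr ⟨hxy.2.1, hvx.tail hxy⟩
  intro a ha b hb
  exact ReflTransGen.trans (reach_symm (key a ha)) (key b hb)

end H65TW
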