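import Pool.Agent.H65.PWDefs

/-!
Elimination orders, the induced rooted forest and the separation lemma.
-/

namespace H65TW

open Relation Finset Classical

universe u

variable {V : Type u}

/-- Connection inside `W`. -/
def Reach (G : SimpleGraph V) (W : Finset V) (u v : V) : Prop :=
  ReflTransGen (fun a b => a ∈ W ∧ b ∈ W ∧ G.Adj a b) u v

variable [Fintype V]

/-- Earlier neighbours. -/
noncomputable def back (H : SimpleGraph V) (f : V → ℕ) (v : V) : Finset V :=
  Finset.univ.filter (fun u => H.Adj u v ∧ f u < f v)

theorem mem_back {H : SimpleGraph V} {f : V → ℕ} {u v : V} :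
    u ∈ back H f v ↔ H.Adj u v ∧ f u < f v := by
  simp [back]

/-- `f` is a perfect elimination order of `H` with at most `k` earlier neighbours. -/
structure Elim (H : SimpleGraph V) (f : V → ℕ) (k : ℕ) : Prop where
  inj : Function.Injective f
  clique : ∀ v a b, H.Adj a v → f a < f v → H.Adj b v → f b < f v → a ≠ b → H.Adj a b
  card : ∀ v, (back H f v).card ≤ k

/-- `u` is the parent of `v`. -/
def Par (H : SimpleGraph V) (f : V → ℕ) (u v : V) : Prop :=
  H.Adj u v ∧ f u < f v ∧ ∀ w, H.Adj w v → f w < f v → f w ≤ f u

/-- `u` is an ancestor of `v`. -/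
def Anc (H : SimpleGraph V) (f : V → ℕ) (u v : V) : Prop := ReflTransGen (Par H f) u v

variable {H : SimpleGraph V} {f : V → ℕ} {k : ℕ}

theorem par_unique (hE : Elim H f k) {u u' v : V} (h : Par H f u v) (h' : Par H f u' v) :
    u = u' :=
  hE.inj (le_antisymm (h'.2.2 u h.1 h.2.1) (h.2.2 u' h'.1 h'.2.1))

theorem anc_f {u v : V} (h : Anc H f u v) : u = v ∨ f u < f v := by
  induction h with
  | refl => exact Or.inl rfl
  | @tail b c _ hbc ih =>
    right
    rcases ih with rfl | ih
    · exact hbc.2.1
    · exact ih.trans hbc.2.1

theorem anc_le {u v : V} (h : Anc H f u v) : f u ≤ f v := by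
  rcases anc_f h with rfl | h
  · exact le_rfl
  · exact h.le

theorem anc_antisymm {u v : V} (h : Anc H f u v) (h' : Anc H f v u) : u = v := by
  rcases anc_f h with h1 | h1
  · exact h1
  · have := anc_le h'
    omega

theorem anc_chain (hE : Elim H f k) {u v w : V} (h : Anc H f u w) (h' : Anc H f v w) :
    Anc H f u v ∨ Anc H f v u := by
  induction h generalizing v with
  | refl => exact Or.inr h'
  | @tail b c hub hbc ih =>
    rcases ReflTransGen.cases_tail h' with h1 | ⟨b', h1, h2⟩
    · left
      rw [← h1]
      exact hub.tail hbc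
    · have := par_unique hE hbc h2
      subst this
      exact ih h1

theorem exists_par (H : SimpleGraph V) (f : V → ℕ) {u v : V} (h : H.Adj u v) (hf : f u < f v) :
    ∃ p, Par H f p v := by
  have hne : (back H f v).Nonempty := ⟨u, mem_back.mpr ⟨h, hf⟩⟩
  obtain ⟨p, hp, hmax⟩ := Finset.exists_max_image (back H f v) f hne
  rw [mem_back] at hp
  exact ⟨p, hp.1, hp.2, fun w hw hfw => hmax w (mem_back.mpr ⟨hw, hfw⟩)⟩

theorem adj_anc (hE : Elim H f k) {u v : V} (h : H.Adj u v) (hf : f u < f v) : Anc H f u v := by
  induction hn : f v using Nat.strong_induction_on generalizing v with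
  | _ n ih =>
    obtain ⟨p, hp⟩ := exists_par H f h hf
    by_cases hup : u = p
    · subst hup
      exact ReflTransGen.single hp
    · have h1 : f u ≤ f p := hp.2.2 u h hf
      have h2 : f u ≠ f p := fun h' => hup (hE.inj h')
      have h3 : H.Adj u p := hE.clique v u p h hf hp.1 hp.2.1 hup
      have h4 : Anc H f u p := ih (f p) (by rw [← hn]; exact hp.2.1) h3 (by omega) rfl
      exact h4.tail hp

theorem star (hE : Elim H f k) {u z y : V} (h : H.Adj u z) (hf : f u < f z) (hy : Anc H f y z)
    (hfy : f u < f y) : H.Adj u y := by
  induction hy with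
  | refl => exact h
  | @tail b c hyb hbc ih =>
    by_cases hub : u = b
    · subst hub
      have := anc_le hyb
      omega
    · have h1 : H.Adj u b := hE.clique c u b h hf hbc.1 hbc.2.1 hub
      have h2 : f u ≤ f b := hbc.2.2 u h hf
      have h3 : f u ≠ f b := fun h' => hub (hE.inj h')
      exact ih h1 (by omega)

/-- Closed under least common ancestors. -/
def LC (H : SimpleGraph V) (f : V → ℕ) (Q : Finset V) : Prop :=
  ∀ a ∈ Q, ∀ b ∈ Q, ∀ t, Anc H f t a → Anc H f t b →
    ∃ q ∈ Q, Anc H f t q ∧ Anc H f q a ∧ Anc H f q b

theorem exists_LC (hE : Elim H f k) (X : Finset V) :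
    ∃ Q : Finset V, X ⊆ Q ∧ Q.card ≤ 2 * X.card ∧ LC H f Q := by
  induction X using Finset.induction_on with
  | empty => exact ⟨∅, by simp, by simp, by intro a ha; simp at ha⟩
  | @insert x X hx ih =>
    obtain ⟨Q, hXQ, hcard, hLC⟩ := ih
    by_cases hex : ∃ w, Anc H f w x ∧ ∃ q ∈ Q, Anc H f w q
    · have hne : (Finset.univ.filter (fun w => Anc H f w x ∧ ∃ q ∈ Q, Anc H f w q)).Nonempty := by
        obtain ⟨w, hw⟩ := hex
        exact ⟨w, by simpa using hw⟩
      obtain ⟨m, hm, hmax⟩ := Finset.exists_max_image _ f hne
      simp only [Finset.mem_filter, Finset.mem_univ, true_and] at hm hmax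
      obtain ⟨hmx, q0, hq0, hmq0⟩ := hm
      have keyx : ∀ b ∈ Q, ∀ t, Anc H f t x → Anc H f t b →
          ∃ q ∈ insert x (insert m Q), Anc H f t q ∧ Anc H f q x ∧ Anc H f q b := by
        intro b hb t htx htb
        have h1 : f t ≤ f m := hmax t ⟨htx, b, hb, htb⟩
        have htm : Anc H f t m := by
          rcases anc_chain hE htx hmx with h | h
          · exact h
          · have h2 := anc_le h
            have h3 : t = m := hE.inj (le_antisymm h1 h2)
            rw [h3]
            exact ReflTransGen.refl
        by_cases hmb : Anc H f m b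
        · exact ⟨m, by simp, htm, hmx, hmb⟩
        · obtain ⟨q, hq, htq, hqq0, hqb⟩ := hLC q0 hq0 b hb t (htm.trans hmq0) htb
          refine ⟨q, by simp [hq], htq, ?_, hqb⟩
          rcases anc_chain hE hqq0 hmq0 with h | h
          · exact h.trans hmx
          · exact absurd (h.trans hqb) hmb
      have keym : ∀ b ∈ Q, ∀ t, Anc H f t m → Anc H f t b →
          ∃ q ∈ insert x (insert m Q), Anc H f t q ∧ Anc H f q m ∧ Anc H f q b := by
        intro b hb t htm htb
        obtain ⟨q, hq, htq, hqq0, hqb⟩ := hLC q0 hq0 b hb t (htm.trans hmq0) htb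
        rcases anc_chain hE hqq0 hmq0 with h | h
        · exact ⟨q, by simp [hq], htq, h, hqb⟩
        · exact ⟨m, by simp, htm, ReflTransGen.refl, h.trans hqb⟩
      refine ⟨insert x (insert m Q), ?_, ?_, ?_⟩
      · intro z hz
        rw [Finset.mem_insert] at hz
        rcases hz with rfl | hz
        · simp
        · simp [hXQ hz]
      · rw [Finset.card_insert_of_notMem hx]
        have h1 := Finset.card_insert_le x (insert m Q)
        have h2 := Finset.card_insert_le m Q
        omega
      · intro a ha b hb t hta htb
        have hsym : ∀ {a b : V}, (∃ q ∈ insert x (insert m Q), Anc H f t q ∧ Anc H f q a ∧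
            Anc H f q b) → (∃ q ∈ insert x (insert m Q), Anc H f t q ∧ Anc H f q b ∧
            Anc H f q a) := by
          rintro a b ⟨q, h1, h2, h3, h4⟩
          exact ⟨q, h1, h2, h4, h3⟩
        rw [Finset.mem_insert, Finset.mem_insert] at ha hb
        rcases ha with rfl | rfl | ha
        · rcases hb with rfl | rfl | hb
          · exact ⟨b, by simp, hta, ReflTransGen.refl, ReflTransGen.refl⟩
          · exact ⟨b, by simp, htb, hmx, ReflTransGen.refl⟩
          · exact keyx b hb t hta htb
        · rcases hb with rfl | rfl | hb
          · exact ⟨a, by simp, hta, ReflTransGen.refl, hmx⟩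
          · exact ⟨b, by simp, hta, ReflTransGen.refl, ReflTransGen.refl⟩
          · exact keym b hb t hta htb
        · rcases hb with rfl | rfl | hb
          · exact hsym (keyx a ha t htb hta)
          · exact hsym (keym a ha t htb hta)
          · obtain ⟨q, hq, h⟩ := hLC a ha b hb t hta htb
            exact ⟨q, by simp [hq], h⟩
    · push Not at hex
      refine ⟨insert x Q, ?_, ?_, ?_⟩
      · exact Finset.insert_subset_insert _ hXQ
      · rw [Finset.card_insert_of_notMem hx]
        have h1 := Finset.card_insert_le x Q
        omega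
      · intro a ha b hb t hta htb
        rw [Finset.mem_insert] at ha hb
        rcases ha with rfl | ha
        · rcases hb with rfl | hb
          · exact ⟨b, by simp, hta, ReflTransGen.refl, ReflTransGen.refl⟩
          · exact absurd htb (hex t hta b hb)
        · rcases hb with rfl | hb
          · exact absurd hta (hex t htb a ha)
          · obtain ⟨q, hq, h⟩ := hLC a ha b hb t hta htb
            exact ⟨q, by simp [hq], h⟩

/-- Separation lemma. -/
theorem sep (hE : Elim H f k) {G : SimpleGraph V} (hGH : G ≤ H) (X : Finset V) :
    ∃ Y : Finset V, X ⊆ Y ∧ Y.card ≤ 2 * X.card * (k + 1) ∧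
      ∀ K : Finset V, Disjoint K Y → (∀ u ∈ K, ∀ v ∈ K, Reach G K u v) →
        (Y.filter (fun y => ∃ v ∈ K, G.Adj y v)).card ≤ 2 * k + 1 := by
  obtain ⟨Q, hXQ, hcard, hLC⟩ := exists_LC hE X
  have hmemY : ∀ q ∈ Q, insert q (back H f q) ⊆
      Q.biUnion (fun q => insert q (back H f q)) := by
    intro q hq
    exact Finset.subset_biUnion_of_mem (fun q => insert q (back H f q)) hq
  refine ⟨Q.biUnion (fun q => insert q (back H f q)), ?_, ?_, ?_⟩
  · intro x hx
    exact hmemY x (hXQ hx) (Finset.mem_insert_self _ _)
  · refine (Finset.card_biUnion_le_card_mul _ _ (k + 1) ?_).trans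
      (Nat.mul_le_mul_right _ hcard)
    intro q _
    refine (Finset.card_insert_le _ _).trans ?_
    have := hE.card q
    omega
  · intro K hKY hconn
    set Y := Q.biUnion (fun q => insert q (back H f q)) with hY
    have hdis : ∀ z, z ∈ K → z ∉ Y := fun z hz hzY => (Finset.disjoint_left.mp hKY) hz hzY
    rcases K.eq_empty_or_nonempty with hK | hK
    · subst hK
      simp
    obtain ⟨t, ht, hmin⟩ := Finset.exists_min_image K f hK
    have claim1 : ∀ z ∈ K, Anc H f t z := by
      intro z hz
      have hr := hconn t ht z hz
      clear hz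
      induction hr with
      | refl => exact ReflTransGen.refl
      | @tail a b _ hab ih =>
        have hadj : H.Adj a b := hGH hab.2.2
        rcases lt_trichotomy (f a) (f b) with h | h | h
        · exact ih.trans (adj_anc hE hadj h)
        · exact absurd (hE.inj h) hadj.ne
        · have h1 := adj_anc hE hadj.symm h
          rcases anc_chain hE ih h1 with h2 | h2
          · exact h2
          · rcases anc_f h2 with h3 | h3
            · rw [h3]; exact ReflTransGen.refl
            · have := hmin b hab.2.1
              omega
    have hcaseB : ∀ u ∈ Y, ∀ z ∈ K, H.Adj u z → Anc H f t u →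
        ∃ q ∈ Q, Anc H f t q ∧ Anc H f u q ∧ (u = q ∨ u ∈ back H f q) := by
      intro u hu z hz huz htu
      rw [hY, Finset.mem_biUnion] at hu
      obtain ⟨q, hq, huq⟩ := hu
      rw [Finset.mem_insert] at huq
      have h1 : Anc H f u q := by
        rcases huq with rfl | h
        · exact ReflTransGen.refl
        · rw [mem_back] at h
          exact adj_anc hE h.1 h.2
      exact ⟨q, hq, htu.trans h1, h1, huq⟩
    have hcaseA : ∀ u ∈ Y, ∀ z ∈ K, H.Adj u z → u ∈ back H f t ∨ Anc H f t u := by
      intro u hu z hz huz
      rcases lt_trichotomy (f u) (f z) with h | h | h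
      · have h1 := adj_anc hE huz h
        rcases anc_chain hE h1 (claim1 z hz) with h2 | h2
        · rcases anc_f h2 with h3 | h3
          · exact absurd (h3 ▸ hu) (hdis t ht)
          · left
            rw [mem_back]
            exact ⟨star hE huz h (claim1 z hz) h3, h3⟩
        · exact Or.inr h2
      · exact absurd (hE.inj h) huz.ne
      · exact Or.inr ((claim1 z hz).trans (adj_anc hE huz.symm h))
    rcases (Q.filter (fun q => Anc H f t q)).eq_empty_or_nonempty with hQt | hQt
    · refine le_trans (Finset.card_le_card (t := back H f t) ?_) ((hE.card t).trans (by omega))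
      intro u hu
      rw [Finset.mem_filter] at hu
      obtain ⟨huY, z, hz, huz⟩ := hu
      rcases hcaseA u huY z hz (hGH huz) with h | h
      · exact h
      · obtain ⟨q, hq, htq, _⟩ := hcaseB u huY z hz (hGH huz) h
        exfalso
        have : q ∈ Q.filter (fun q => Anc H f t q) := Finset.mem_filter.mpr ⟨hq, htq⟩
        rw [hQt] at this
        simp at this
    · obtain ⟨q1, hq1, hq1min⟩ := Finset.exists_min_image _ f hQt
      rw [Finset.mem_filter] at hq1
      have hq1Y : insert q1 (back H f q1) ⊆ Y := hmemY q1 hq1.1
      have claim2 : ∀ q ∈ Q, Anc H f t q → Anc H f q1 q := by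
        intro q hq htq
        obtain ⟨q', hq', h1, h2, h3⟩ := hLC q1 hq1.1 q hq t hq1.2 htq
        have h4 : f q1 ≤ f q' := hq1min q' (Finset.mem_filter.mpr ⟨hq', h1⟩)
        have h5 : q' = q1 := by
          rcases anc_f h2 with h | h
          · exact h
          · omega
        rw [h5] at h3
        exact h3
      -- no vertex of `K` is below `q1`
      have step : ∀ a, a ∈ K → ¬ Anc H f q1 a → ∀ b, H.Adj a b → ¬ Anc H f q1 b := by
        intro a ha hna b hab hb
        rcases lt_trichotomy (f a) (f b) with h | h | h
        · have h1 := adj_anc hE hab h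
          rcases anc_chain hE h1 hb with h2 | h2
          · rcases anc_f h2 with h3 | h3
            · exact hdis a ha (h3 ▸ hq1Y (Finset.mem_insert_self _ _))
            · have h4 : H.Adj a q1 := star hE hab h hb h3
              exact hdis a ha (hq1Y (Finset.mem_insert_of_mem (mem_back.mpr ⟨h4, h3⟩)))
          · exact hna h2
        · exact hab.ne (hE.inj h)
        · exact hna (hb.trans (adj_anc hE hab.symm h))
      have hnt : ¬ Anc H f q1 t := by
        intro h
        have h1 : q1 = t := anc_antisymm h hq1.2
        exact hdis t ht (h1 ▸ hq1Y (Finset.mem_insert_self _ _))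
      have claim3 : ∀ z ∈ K, ¬ Anc H f q1 z := by
        intro z hz
        have hr := hconn t ht z hz
        clear hz
        induction hr with
        | refl => exact hnt
        | @tail a b _ hab ih => exact step a hab.1 ih b (hGH hab.2.2)
      have hsub : Y.filter (fun y => ∃ v ∈ K, G.Adj y v) ⊆
          back H f t ∪ insert q1 (back H f q1) := by
        intro u hu
        rw [Finset.mem_filter] at hu
        obtain ⟨huY, z, hz, huz⟩ := hu
        rw [Finset.mem_union]
        rcases hcaseA u huY z hz (hGH huz) with h | h
        · exact Or.inl h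
        · right
          obtain ⟨q, hq, htq, huq, hor⟩ := hcaseB u huY z hz (hGH huz) h
          have h1 := claim2 q hq htq
          rcases anc_chain hE huq h1 with h2 | h2
          · rcases anc_f h2 with h3 | h3
            · rw [h3]; exact Finset.mem_insert_self _ _
            · refine Finset.mem_insert_of_mem (mem_back.mpr ⟨?_, h3⟩)
              rcases hor with h4 | h4
              · rw [← h4] at h1
                have h5 := anc_le h1
                omega
              · rw [mem_back] at h4
                exact star hE h4.1 h4.2 h1 h3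
          · exact absurd h2 (step z hz (claim3 z hz) u (hGH huz).symm)
      refine (Finset.card_le_card hsub).trans ((Finset.card_union_le _ _).trans ?_)
      have h1 := hE.card t
      have h2 := hE.card q1
      have h3 := Finset.card_insert_le q1 (back H f q1)
      omega

end H65TW
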